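import Pool.Agent.TZB.CMB

set_option autoImplicit false

/-! CM2: the coefficient of `T^2`. -/

namespace Pool.Agent.TZB

open Finset Polynomial

variable {ι : Type*} [Fintype ι] [DecidableEq ι]

/-- `det(T Lambda + L_D)` as a polynomial -/
noncomputable def PT (R : ι → ι → ZMod 2) (l : ι → ZMod 2) (D : Finset ι) : (ZMod 2)[X] :=
  (LD (A := (ZMod 2)[X]) (fun i j => C (R i j)) (fun i => C (l i) * X) D).det

/-- the coefficient of `T^2` in `det(T Lambda + L_D)` -/
noncomputable def F5 (R : ι → ι → ZMod 2) (l : ι → ZMod 2) (D : Finset ι) : ZMod 2 :=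
  (PT R l D).coeff 2

/-- coefficients of a product of linear polynomials -/
private lemma cm2_prod_coeff {κ : Type*} [DecidableEq κ] (S : Finset κ) (a b : κ → ZMod 2)
    (n : ℕ) :
    (∏ i ∈ S, ((C (a i) + C (b i) * X : (ZMod 2)[X]))).coeff n =
      ∑ T ∈ S.powersetCard n, (∏ i ∈ T, b i) * ∏ i ∈ S \ T, a i := by
  have h1 : (∏ i ∈ S, ((C (a i) + C (b i) * X : (ZMod 2)[X]))) =
      ∑ T ∈ S.powerset, C ((∏ i ∈ T, b i) * ∏ i ∈ S \ T, a i) * X ^ T.card := by
    have h2 : (∏ i ∈ S, ((C (a i) + C (b i) * X : (ZMod 2)[X]))) =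
        ∏ i ∈ S, ((C (b i) * X + C (a i) : (ZMod 2)[X])) :=
      prod_congr rfl fun i _ => add_comm _ _
    rw [h2, Finset.prod_add]
    refine sum_congr rfl fun T _ => ?_
    rw [Finset.prod_mul_distrib, Finset.prod_const, C_mul, map_prod, map_prod]
    ring
  rw [h1, finsetSum_coeff]
  simp only [coeff_C_mul, coeff_X_pow]
  rw [Finset.powersetCard_eq_filter, Finset.sum_filter]
  refine sum_congr rfl fun T _ => ?_
  by_cases h : T.card = n
  · rw [if_pos h, if_pos h.symm, mul_one]
  · rw [if_neg h, if_neg (fun h' => h h'.symm), mul_zero]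

omit [Fintype ι] in
private lemma cm2_coeff_zero (S : Finset ι) (a b : ι → ZMod 2) :
    (∏ i ∈ S, ((C (a i) + C (b i) * X : (ZMod 2)[X]))).coeff 0 = ∏ i ∈ S, a i := by
  rw [cm2_prod_coeff, Finset.powersetCard_zero]
  simp

omit [Fintype ι] in
private lemma cm2_coeff_one (S : Finset ι) (a b : ι → ZMod 2) :
    (∏ i ∈ S, ((C (a i) + C (b i) * X : (ZMod 2)[X]))).coeff 1 =
      ∑ i ∈ S, b i * ∏ k ∈ S.erase i, a k := by
  rw [cm2_prod_coeff, Finset.powersetCard_one, Finset.sum_map]
  refine sum_congr rfl fun i _ => ?_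
  simp [Finset.sdiff_singleton_eq_erase]

private lemma cm2_snd (p : (ZMod 2)[X]) :
    (Polynomial.aeval (DualNumber.eps : DualNumber (ZMod 2)) p) =
      TrivSqZeroExt.inl (p.coeff 0) + TrivSqZeroExt.inr (p.coeff 1) := by
  induction p using Polynomial.induction_on' with
  | add p q hp hq =>
    rw [map_add, hp, hq, coeff_add, coeff_add, TrivSqZeroExt.inl_add, TrivSqZeroExt.inr_add]
    abel
  | monomial n a =>
    rw [Polynomial.aeval_monomial]
    rcases n with _ | _ | n
    · simp [TrivSqZeroExt.algebraMap_eq_inl]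
    · simp [TrivSqZeroExt.algebraMap_eq_inl]
      ext <;> simp
    · have h : (DualNumber.eps : DualNumber (ZMod 2)) ^ (n + 1 + 1) = 0 := by
        rw [pow_succ, pow_succ, mul_assoc, DualNumber.eps_mul_eps, mul_zero]
      rw [h, mul_zero, coeff_monomial, coeff_monomial]
      simp

theorem PT_coeff_one (R : ι → ι → ZMod 2) (l : ι → ZMod 2) (D : Finset ι) :
    (PT R l D).coeff 1 = F4 R l D := by
  have h1 : (Polynomial.aeval (DualNumber.eps : DualNumber (ZMod 2)) (PT R l D)) =
      (LD (A := DualNumber (ZMod 2)) (fun i j => TrivSqZeroExt.inl (R i j))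
        (fun i => TrivSqZeroExt.inr (l i)) D).det := by
    unfold PT
    rw [AlgHom.map_det]
    congr 1
    apply Matrix.ext
    intro i j
    simp only [AlgHom.mapMatrix_apply, Matrix.map_apply, LD, Matrix.of_apply]
    split_ifs
    · rw [map_add, map_mul, map_sum, Polynomial.aeval_X]
      simp only [Polynomial.aeval_C, TrivSqZeroExt.algebraMap_eq_inl]
      congr 1
      ext <;> simp
    · simp only [Polynomial.aeval_C, TrivSqZeroExt.algebraMap_eq_inl]
    · simp
    · simp
  unfold F4
  rw [← h1, cm2_snd]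
  simp

private lemma cm2_det_zero (R : ι → ι → ZMod 2) (D : Finset ι) (hD : D.Nonempty) :
    (LD R (fun _ => 0) D).det = 0 := by
  rw [← Matrix.exists_mulVec_eq_zero_iff]
  refine ⟨fun i => if i ∈ D then 1 else 0, ?_, ?_⟩
  · obtain ⟨i, hi⟩ := hD
    intro h
    have := congrFun h i
    simp [hi] at this
  · ext i
    simp only [Matrix.mulVec, dotProduct, LD, Matrix.of_apply, Pi.zero_apply, zero_add]
    by_cases hi : i ∈ D
    · rw [← Finset.add_sum_erase univ _ (mem_univ i)]
      simp only [hi, and_self, if_true, mul_one, true_and]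
      have h1 : ∑ x ∈ univ.erase i, ((if x ∈ D then (if i = x then ∑ k ∈ D.erase i, R i k else R i x)
          else if i = x then 1 else 0) * if x ∈ D then (1 : ZMod 2) else 0) =
          ∑ x ∈ D.erase i, R i x := by
        rw [← Finset.sum_subset (Finset.erase_subset_erase i (subset_univ D))]
        · refine sum_congr rfl fun x hx => ?_
          have hx2 := Finset.mem_erase.1 hx
          rw [if_pos hx2.2, if_neg (fun h => hx2.1 h.symm), if_pos hx2.2, mul_one]
        · intro x _ hx
          have : x ∉ D ∨ x = i := by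
            by_contra hc
            push Not at hc
            exact hx (Finset.mem_erase.2 ⟨hc.2, hc.1⟩)
          rcases this with h | h
          · rw [if_neg h, if_neg h, mul_zero]
          · exact absurd h (Finset.mem_erase.1 (by assumption)).1
      rw [h1]
      exact CharTwo.add_self_eq_zero _
    · refine sum_eq_zero fun j _ => ?_
      rw [if_neg (fun h => hi h.1)]
      by_cases hij : i = j
      · subst hij
        rw [if_neg hi, mul_zero]
      · rw [if_neg hij, zero_mul]

theorem PT_coeff_zero (R : ι → ι → ZMod 2) (l : ι → ZMod 2) (D : Finset ι) (hD : D.Nonempty) :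
    (PT R l D).coeff 0 = 0 := by
  rw [← cm2_det_zero R D hD, ← Polynomial.constantCoeff_apply]
  unfold PT
  rw [RingHom.map_det]
  congr 1
  ext i j : 2
  simp only [RingHom.mapMatrix_apply, Matrix.map_apply, LD, Matrix.of_apply]
  split_ifs
  · rw [map_add, map_sum]
    simp
  · simp
  · simp
  · simp

private lemma cm2_PT_empty (R : ι → ι → ZMod 2) (l : ι → ZMod 2) : PT R l ∅ = 1 := by
  unfold PT
  have : LD (A := (ZMod 2)[X]) (fun i j => C (R i j)) (fun i => C (l i) * X) ∅ = 1 := by
    ext i j : 2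
    simp [LD, Matrix.one_apply]
  rw [this, Matrix.det_one]

private lemma cm2_mul_coeff_two (p q : (ZMod 2)[X]) :
    (p * q).coeff 2 = p.coeff 0 * q.coeff 2 + p.coeff 1 * q.coeff 1 + p.coeff 2 * q.coeff 0 := by
  rw [coeff_mul, Finset.Nat.sum_antidiagonal_eq_sum_range_succ_mk, Finset.sum_range_succ,
    Finset.sum_range_succ, Finset.sum_range_succ, Finset.sum_range_zero, zero_add]

/-- recursion of the digits of the trivial zero case -/
theorem F5_rec (R : ι → ι → ZMod 2) (l s : ι → ZMod 2) (S : Finset ι) :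
    ∑ D ∈ S.powerset.erase ∅, (F5 R l D * ∏ i ∈ S \ D, (s i + ∑ j ∈ D, R i j) +
      F4 R l D * ∑ i ∈ S \ D, l i * ∏ k ∈ (S \ D).erase i, (s k + ∑ j ∈ D, R k j)) =
      ∑ T ∈ S.powersetCard 2, (∏ i ∈ T, l i) * ∏ k ∈ S \ T, s k := by
  have h2 : (2 : (ZMod 2)[X]) = 0 := by
    have : ((2 : ZMod 2)) = 0 := by decide
    rw [← C_ofNat, this, C_0]
  have h := ident2 h2 (fun i j => C (R i j)) (fun i => C (l i) * X) (fun i => C (s i)) S
  have hc := congrArg (fun p : (ZMod 2)[X] => p.coeff 2) h
  simp only [finsetSum_coeff] at hc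
  have hr : (∏ i ∈ S, (C (s i) : (ZMod 2)[X])).coeff 2 = 0 := by
    rw [← map_prod, coeff_C]
    simp
  have hprod : ∀ D : Finset ι, ∏ i ∈ S \ D, (C (s i) + C (l i) * X + ∑ j ∈ D, C (R i j)) =
      ∏ i ∈ S \ D, ((C (s i + ∑ j ∈ D, R i j) + C (l i) * X : (ZMod 2)[X])) := by
    intro D
    refine prod_congr rfl fun i _ => ?_
    rw [C_add, map_sum]
    ring
  rw [hr, ← Finset.add_sum_erase _ _ (Finset.empty_mem_powerset S)] at hc
  have h0 : ((LD (A := (ZMod 2)[X]) (fun i j => C (R i j)) (fun i => C (l i) * X) ∅).det *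
      ∏ i ∈ S \ ∅, (C (s i) + C (l i) * X + ∑ j ∈ (∅ : Finset ι), C (R i j))).coeff 2 =
      ∑ T ∈ S.powersetCard 2, (∏ i ∈ T, l i) * ∏ k ∈ S \ T, s k := by
    have := cm2_PT_empty R l
    unfold PT at this
    rw [this, one_mul, hprod, cm2_prod_coeff]
    simp
  have h1 : ∀ D ∈ S.powerset.erase ∅,
      ((LD (A := (ZMod 2)[X]) (fun i j => C (R i j)) (fun i => C (l i) * X) D).det *
      ∏ i ∈ S \ D, (C (s i) + C (l i) * X + ∑ j ∈ D, C (R i j))).coeff 2 =
      (F5 R l D * ∏ i ∈ S \ D, (s i + ∑ j ∈ D, R i j) +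
      F4 R l D * ∑ i ∈ S \ D, l i * ∏ k ∈ (S \ D).erase i, (s k + ∑ j ∈ D, R k j)) := by
    intro D hD
    have hne : D.Nonempty := Finset.nonempty_iff_ne_empty.2 (Finset.mem_erase.1 hD).1
    have e1 := PT_coeff_zero R l D hne
    have e2 := PT_coeff_one R l D
    have e3 : (PT R l D).coeff 2 = F5 R l D := rfl
    unfold PT at e1 e2 e3
    rw [hprod, cm2_mul_coeff_two, e1, e2, e3, cm2_coeff_zero, cm2_coeff_one]
    ring
  rw [h0, Finset.sum_congr rfl h1] at hc
  rw [add_comm] at hc
  exact CharTwo.add_eq_zero.1 hc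

/-- the digit of the full set, when the columns of the Laplacian and `l` sum to zero -/
theorem F5_univ (R : ι → ι → ZMod 2) (l : ι → ZMod 2) (q : ι)
    (hcol : ∀ j, ∑ i, Lap R i j = 0) (hl : ∑ i, l i = 0) :
    F5 R l univ = (((Lap R).updateCol q l).updateRow q (Function.update l q 0)).det := by
  classical
  have hM : LD (A := (ZMod 2)[X]) (fun i j => C (R i j)) (fun i => C (l i) * X) univ =
      (Lap R).map C + Matrix.diagonal (fun i => C (l i) * X) := by
    ext i j : 2
    simp only [LD, Lap, Matrix.of_apply, Matrix.add_apply, Matrix.map_apply, mem_univ, and_self,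
      if_true, Matrix.diagonal_apply]
    split_ifs
    · rw [map_sum]
      ring
    · rw [add_zero]
  set M : Matrix ι ι (ZMod 2)[X] := (Lap R).map C + Matrix.diagonal (fun i => C (l i) * X) with hMdef
  have hrow : ∀ k, ∑ j, Lap R k j = 0 := by
    intro k
    rw [← Finset.add_sum_erase univ _ (mem_univ k)]
    have h1 : ∑ x ∈ univ.erase k, Lap R k x = ∑ x ∈ univ.erase k, R k x := by
      refine sum_congr rfl fun x hx => ?_
      simp only [Lap, Matrix.of_apply]
      rw [if_neg (fun h => (Finset.mem_erase.1 hx).1 h.symm)]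
    have h2 : Lap R k k = ∑ x ∈ univ.erase k, R k x := by
      simp only [Lap, Matrix.of_apply, if_true]
    rw [h1, h2]
    exact CharTwo.add_self_eq_zero _
  -- the column and row operation
  have key : ∀ (N : Matrix ι ι (ZMod 2)[X]) (v : ι → ZMod 2),
      (∀ k, ∑ i, N k i = X * C (v k)) → N.det = X * (N.updateCol q (fun k => C (v k))).det := by
    intro N v hv
    have h1 := Matrix.det_updateCol_sum N q (fun _ => (1 : (ZMod 2)[X]))
    have h2 : (fun k => ∑ i, (1 : (ZMod 2)[X]) • N k i) =
        (X : (ZMod 2)[X]) • (fun k => (C (v k) : (ZMod 2)[X])) := by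
      funext k
      rw [Pi.smul_apply, smul_eq_mul, ← hv k]
      exact sum_congr rfl fun i _ => one_smul _ _
    rw [h2, Matrix.det_updateCol_smul, one_smul] at h1
    exact h1.symm
  have hd1 : M.det = X * (M.updateCol q (fun k => C (l k))).det := by
    refine key M l fun k => ?_
    have h3 : ∀ i, M k i = C (Lap R k i) + if k = i then C (l k) * X else 0 := by
      intro i
      rw [hMdef, Matrix.add_apply, Matrix.map_apply, Matrix.diagonal_apply]
    rw [Finset.sum_congr rfl fun i _ => h3 i, Finset.sum_add_distrib, ← map_sum, hrow k, C_0,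
      zero_add, Finset.sum_ite_eq, if_pos (mem_univ k), mul_comm]
  set M1 : Matrix ι ι (ZMod 2)[X] := M.updateCol q (fun k => C (l k)) with hM1def
  have hd2 : M1.det = X * (M1.updateRow q (fun k => C (Function.update l q 0 k))).det := by
    rw [← Matrix.det_transpose M1, key M1.transpose (Function.update l q 0) ?_,
      Matrix.updateCol_transpose, Matrix.det_transpose]
    intro j
    by_cases hj : j = q
    · have h3 : ∀ i, M1.transpose j i = C (l i) := by
        intro i
        rw [Matrix.transpose_apply, hM1def, hj, Matrix.updateCol_self]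
      rw [Finset.sum_congr rfl fun i _ => h3 i, ← map_sum, hl, hj, Function.update_self, C_0,
        mul_zero]
    · have h3 : ∀ i, M1.transpose j i = C (Lap R i j) + if i = j then C (l i) * X else 0 := by
        intro i
        rw [Matrix.transpose_apply, hM1def, Matrix.updateCol_ne hj, hMdef, Matrix.add_apply,
          Matrix.map_apply, Matrix.diagonal_apply]
      rw [Finset.sum_congr rfl fun i _ => h3 i, Finset.sum_add_distrib, ← map_sum, hcol j, C_0,
        zero_add, Finset.sum_ite_eq', if_pos (mem_univ j), Function.update_of_ne hj, mul_comm]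
  unfold F5 PT
  rw [hM, hd1, hd2, coeff_X_mul, coeff_X_mul, ← Polynomial.constantCoeff_apply, RingHom.map_det]
  congr 1
  ext i j : 2
  simp only [RingHom.mapMatrix_apply, Matrix.map_apply, hM1def, hMdef]
  by_cases hi : i = q
  · subst hi
    simp [Matrix.updateRow_self]
  · rw [Matrix.updateRow_ne hi, Matrix.updateRow_ne hi]
    by_cases hj : j = q
    · subst hj
      simp [Matrix.updateCol_self]
    · rw [Matrix.updateCol_ne hj, Matrix.updateCol_ne hj]
      simp only [Matrix.add_apply, Matrix.map_apply, Matrix.diagonal_apply, map_add]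
      split_ifs <;> simp

end Pool.Agent.TZB
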