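import Pool.Agent.TZB.Defs

set_option autoImplicit false

/-! CMB: the identities between the determinants `LD`. -/

namespace Pool.Agent.TZB

open Finset

variable {ι : Type*} [Fintype ι] [DecidableEq ι] {A : Type*} [CommRing A]

/-- products of few affine forms sum to zero over the cube, characteristic two -/
theorem aff_sum (h2 : (2 : A) = 0) (S U T : Finset ι) (hU : U ⊆ S) (hUT : U.card + T.card < S.card)
    (c : ι → A) (b : ι → ι → A) :
    ∑ D ∈ S.powerset with U ⊆ D, ∏ j ∈ T, (c j + ∑ k ∈ D, b j k) = 0 := by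
  induction T using Finset.induction_on generalizing U with
  | empty =>
    simp only [Finset.prod_empty, Finset.sum_const, nsmul_eq_mul, mul_one]
    have e : (S.powerset.filter fun D => U ⊆ D) = Finset.Icc U S := by
      ext D
      simp only [Finset.mem_filter, Finset.mem_powerset, Finset.mem_Icc]
      tauto
    rw [e, Finset.card_Icc_finset hU]
    obtain ⟨m, hm⟩ : ∃ m, S.card - U.card = m + 1 :=
      ⟨S.card - U.card - 1, by rw [Finset.card_empty] at hUT; omega⟩
    rw [hm, pow_succ]
    push_cast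
    rw [h2, mul_zero]
  | insert j T hj ih =>
    rw [Finset.card_insert_of_notMem hj] at hUT
    simp only [Finset.prod_insert hj, add_mul, Finset.sum_add_distrib]
    rw [← Finset.mul_sum, ih U hU (by omega), mul_zero, zero_add]
    have e : ∀ D ∈ S.powerset.filter (fun D => U ⊆ D),
        (∑ k ∈ D, b j k) * ∏ j ∈ T, (c j + ∑ k ∈ D, b j k) =
        ∑ k ∈ S, if k ∈ D then b j k * ∏ j ∈ T, (c j + ∑ k ∈ D, b j k) else 0 := by
      intro D hD
      have hDS : D ⊆ S := Finset.mem_powerset.1 (Finset.mem_filter.1 hD).1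
      rw [Finset.sum_mul, ← Finset.sum_filter]
      refine Finset.sum_congr ?_ fun _ _ => rfl
      ext k
      simp only [Finset.mem_filter]
      exact ⟨fun h => ⟨hDS h, h⟩, fun h => h.2⟩
    rw [Finset.sum_congr rfl e, Finset.sum_comm]
    refine Finset.sum_eq_zero fun k hk => ?_
    rw [← Finset.sum_filter, ← Finset.mul_sum, Finset.filter_filter]
    have e2 : (S.powerset.filter fun D => U ⊆ D ∧ k ∈ D) =
        S.powerset.filter fun D => insert k U ⊆ D := by
      ext D
      simp only [Finset.mem_filter, Finset.insert_subset_iff]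
      tauto
    rw [e2, ih (insert k U) (Finset.insert_subset hk hU)
      (by have := Finset.card_insert_le k U; omega), mul_zero]

private def Mx (R : ι → ι → A) (y : ι → A) (S D : Finset ι) : Matrix ι ι A :=
  Matrix.of fun i j => if i ∈ S ∧ j ∈ S then
    (if i = j then y i + ∑ k ∈ D.erase i, R i k else if j ∈ D then R i j else 0)
    else if i = j then 1 else 0

private theorem det_Mx (R : ι → ι → A) (y : ι → A) (S D : Finset ι) (hD : D ⊆ S) :
    (Mx R y S D).det = (LD R y D).det * ∏ i ∈ S \ D, (y i + ∑ j ∈ D, R i j) := by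
  rw [Matrix.det_apply, Matrix.det_apply, Finset.sum_mul]
  refine Finset.sum_congr rfl fun σ _ => ?_
  rw [smul_mul_assoc]
  congr 1
  by_cases hσ : ∀ i, i ∉ D → σ i = i
  · have hD' : ∀ i ∈ D, σ i ∈ D := by
      intro i hi
      by_contra h
      have h3 := σ.injective (hσ _ h)
      rw [h3] at h
      exact h hi
    have e : ∏ i ∈ S \ D, (y i + ∑ j ∈ D, R i j) =
        ∏ i, if i ∈ S \ D then (y i + ∑ j ∈ D, R i j) else 1 := by
      rw [Finset.prod_ite_mem, Finset.univ_inter]
    rw [e, ← Finset.prod_mul_distrib]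
    refine Finset.prod_congr rfl fun i _ => ?_
    by_cases hi : i ∈ D
    · have h4 := hD' i hi
      simp [Mx, LD, hi, h4, hD hi, hD h4]
    · rw [hσ i hi]
      by_cases hiS : i ∈ S
      · simp [Mx, LD, hi, hiS]
      · simp [Mx, LD, hi, hiS]
  · push Not at hσ
    obtain ⟨i, hi, hne⟩ := hσ
    rw [Finset.prod_eq_zero (Finset.mem_univ i), Finset.prod_eq_zero (Finset.mem_univ i), zero_mul]
    · simp [LD, hi, hne]
    · simp [Mx, hi, hne]

private theorem two_cancel (h2 : (2 : A) = 0) (x : A) : x + x = 0 := by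
  rw [← two_mul, h2, zero_mul]

private theorem row_sum (h2 : (2 : A) = 0) (R : ι → ι → A) (y : ι → A) (S D : Finset ι)
    (hD : D ⊆ S) (i : ι) :
    ∑ j, (if j ∈ S then (1 : A) else 0) • Mx R y S D i j = if i ∈ S then y i else 0 := by
  have e : ∑ j, (if j ∈ S then (1 : A) else 0) • Mx R y S D i j = ∑ j ∈ S, Mx R y S D i j := by
    simp only [ite_smul, one_smul, zero_smul]
    rw [Finset.sum_ite_mem, Finset.univ_inter]
  rw [e]
  by_cases hi : i ∈ S
  · rw [if_pos hi, ← Finset.add_sum_erase S _ hi]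
    have e1 : Mx R y S D i i = y i + ∑ k ∈ D.erase i, R i k := by simp [Mx, hi]
    have e2 : ∑ j ∈ S.erase i, Mx R y S D i j = ∑ k ∈ D.erase i, R i k := by
      have : ∀ j ∈ S.erase i, Mx R y S D i j = if j ∈ D.erase i then R i j else 0 := by
        intro j hj
        have hj1 := Finset.ne_of_mem_erase hj
        have hj2 := Finset.mem_of_mem_erase hj
        simp [Mx, hi, hj2, hj1, hj1.symm]
      rw [Finset.sum_congr rfl this, Finset.sum_ite_mem,
        Finset.inter_eq_right.2 (Finset.erase_subset_erase i hD)]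
    rw [e1, e2, add_assoc, two_cancel h2, add_zero]
  · rw [if_neg hi]
    refine Finset.sum_eq_zero fun j hj => ?_
    have : i ≠ j := fun h => hi (h ▸ hj)
    simp [Mx, hi, this]

/-- identity (I) -/
theorem ident1 (h2 : (2 : A) = 0) (R : ι → ι → A) (y : ι → A) (S : Finset ι) (hS : S.Nonempty) :
    ∑ D ∈ S.powerset, (LD R y D).det * ∏ i ∈ S \ D, (y i + ∑ j ∈ D, R i j) = 0 := by
  obtain ⟨q, hq⟩ := hS
  set Y : ι → A := fun i => if i ∈ S then y i else 0 with hY
  have e1 : ∀ D ∈ S.powerset, (LD R y D).det * ∏ i ∈ S \ D, (y i + ∑ j ∈ D, R i j) =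
      ((Mx R y S D).updateCol q Y).det := by
    intro D hD
    rw [Finset.mem_powerset] at hD
    rw [← det_Mx R y S D hD]
    have h5 := Matrix.det_updateCol_sum (Mx R y S D) q (fun j => if j ∈ S then (1 : A) else 0)
    have h6 : (fun k => ∑ i, (fun j => if j ∈ S then (1 : A) else 0) i • Mx R y S D k i) = Y :=
      funext fun k => row_sum h2 R y S D hD k
    rw [h6] at h5
    rw [h5]
    simp [hq]
  rw [Finset.sum_congr rfl e1]
  simp only [Matrix.det_apply]
  rw [Finset.sum_comm]
  refine Finset.sum_eq_zero fun σ _ => ?_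
  rw [← Finset.smul_sum]
  have e2 : ∑ D ∈ S.powerset, ∏ j, ((Mx R y S D).updateCol q Y) (σ j) j = 0 := by
    let c : ι → A := fun j => if σ j ∈ S then (if σ j = j then y j else 0) else 0
    let b : ι → ι → A := fun j k => if σ j ∈ S then
      (if σ j = j then (if k = j then 0 else R j k) else (if k = j then R (σ j) j else 0)) else 0
    have e3 : ∀ D ∈ S.powerset, ∏ j, ((Mx R y S D).updateCol q Y) (σ j) j =
        (Y (σ q) * ∏ j ∈ Sᶜ, (if σ j = j then (1 : A) else 0)) *
          ∏ j ∈ S.erase q, (c j + ∑ k ∈ D, b j k) := by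
      intro D hD
      rw [Finset.mem_powerset] at hD
      rw [← Finset.prod_mul_prod_compl S, ← Finset.mul_prod_erase S _ hq, Matrix.updateCol_self]
      have e4 : ∏ j ∈ S.erase q, ((Mx R y S D).updateCol q Y) (σ j) j =
          ∏ j ∈ S.erase q, (c j + ∑ k ∈ D, b j k) := by
        refine Finset.prod_congr rfl fun j hj => ?_
        have hj1 := Finset.ne_of_mem_erase hj
        have hj2 := Finset.mem_of_mem_erase hj
        rw [Matrix.updateCol_ne hj1]
        by_cases hs : σ j ∈ S
        · by_cases hjj : σ j = j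
          · have : ∑ k ∈ D, b j k = ∑ k ∈ D.erase j, R j k := by
              have hb : ∀ k, b j k = if k = j then 0 else R j k := fun k => by
                simp only [b, hjj, hj2, if_true]
              simp only [hb]
              rw [Finset.sum_ite, Finset.sum_const_zero, zero_add]
              refine Finset.sum_congr ?_ fun _ _ => rfl
              ext k
              simp only [Finset.mem_filter, Finset.mem_erase]
              tauto
            rw [this]
            simp [Mx, c, hs, hjj, hj2]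
          · have : ∑ k ∈ D, b j k = if j ∈ D then R (σ j) j else 0 := by
              simp only [b, hs, hjj, if_true, if_false]
              rw [Finset.sum_ite_eq']
            rw [this]
            simp [Mx, c, hs, hjj, hj2]
        · have hjj : σ j ≠ j := fun h => hs (h.symm ▸ hj2)
          have : ∑ k ∈ D, b j k = 0 := by
            refine Finset.sum_eq_zero fun k _ => ?_
            simp only [b, hs, if_false]
          rw [this]
          simp [Mx, c, hs, hjj]
      have e5 : ∏ j ∈ Sᶜ, ((Mx R y S D).updateCol q Y) (σ j) j =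
          ∏ j ∈ Sᶜ, (if σ j = j then (1 : A) else 0) := by
        refine Finset.prod_congr rfl fun j hj => ?_
        rw [Finset.mem_compl] at hj
        have hj1 : j ≠ q := fun h => hj (h ▸ hq)
        rw [Matrix.updateCol_ne hj1]
        simp [Mx, hj]
      rw [e4, e5]
      ring
    rw [Finset.sum_congr rfl e3, ← Finset.mul_sum]
    have h7 := aff_sum h2 S ∅ (S.erase q) (Finset.empty_subset _)
      (by rw [Finset.card_empty, zero_add]; exact Finset.card_erase_lt_of_mem hq) c b
    simp only [Finset.empty_subset, Finset.filter_true] at h7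
    rw [h7, mul_zero]
  rw [e2, smul_zero]

private theorem det_LD_empty (R : ι → ι → A) (y : ι → A) : (LD R y ∅).det = 1 := by
  have : LD R y ∅ = 1 := by
    ext i j
    simp [LD, Matrix.one_apply]
  rw [this, Matrix.det_one]

/-- identity (II) -/
theorem ident2 (h2 : (2 : A) = 0) (R : ι → ι → A) (y s : ι → A) (S : Finset ι) :
    ∑ D ∈ S.powerset, (LD R y D).det * ∏ i ∈ S \ D, (s i + y i + ∑ j ∈ D, R i j) =
      ∏ i ∈ S, s i := by
  have e1 : ∀ D ∈ S.powerset, (LD R y D).det * ∏ i ∈ S \ D, (s i + y i + ∑ j ∈ D, R i j) =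
      ∑ E ∈ S.powerset, if D ⊆ S \ E then (∏ i ∈ E, s i) *
        ((LD R y D).det * ∏ i ∈ (S \ E) \ D, (y i + ∑ j ∈ D, R i j)) else 0 := by
    intro D hD
    rw [Finset.mem_powerset] at hD
    have : ∏ i ∈ S \ D, (s i + y i + ∑ j ∈ D, R i j) =
        ∑ E ∈ (S \ D).powerset, (∏ i ∈ E, s i) * ∏ i ∈ (S \ D) \ E, (y i + ∑ j ∈ D, R i j) := by
      rw [← Finset.prod_add]
      refine Finset.prod_congr rfl fun i _ => by ring
    rw [this, Finset.mul_sum, ← Finset.sum_filter]
    refine Finset.sum_congr ?_ ?_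
    · ext E
      simp only [Finset.mem_filter, Finset.mem_powerset, Finset.subset_sdiff]
      constructor
      · rintro ⟨h, h'⟩; exact ⟨h, hD, h'.symm⟩
      · rintro ⟨h, _, h'⟩; exact ⟨h, h'.symm⟩
    · intro E _
      have : (S \ D) \ E = (S \ E) \ D := by
        ext i; simp only [Finset.mem_sdiff]; tauto
      rw [this]
      ring
  rw [Finset.sum_congr rfl e1, Finset.sum_comm]
  have e2 : ∀ E ∈ S.powerset, (∑ D ∈ S.powerset, if D ⊆ S \ E then (∏ i ∈ E, s i) *
        ((LD R y D).det * ∏ i ∈ (S \ E) \ D, (y i + ∑ j ∈ D, R i j)) else 0) =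
        if E = S then ∏ i ∈ S, s i else 0 := by
    intro E hE
    rw [Finset.mem_powerset] at hE
    rw [← Finset.sum_filter, ← Finset.mul_sum]
    have e3 : (S.powerset.filter fun D => D ⊆ S \ E) = (S \ E).powerset := by
      ext D
      simp only [Finset.mem_filter, Finset.mem_powerset]
      exact ⟨fun h => h.2, fun h => ⟨h.trans Finset.sdiff_subset, h⟩⟩
    rw [e3]
    by_cases h : E = S
    · subst h
      simp [det_LD_empty]
    · rw [if_neg h, ident1 h2 R y (S \ E), mul_zero]
      rw [Finset.sdiff_nonempty]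
      exact fun h' => h (Finset.Subset.antisymm hE h')
  rw [Finset.sum_congr rfl e2, Finset.sum_ite_eq' S.powerset S (fun _ => ∏ i ∈ S, s i)]
  simp

theorem F8_empty (R : ι → ι → ZMod 2) (l : ι → ZMod 2) : F8 R l ∅ = 1 := det_LD_empty R l

/-- recursion of the digits of level 8 -/
theorem F8_rec (R : ι → ι → ZMod 2) (l s : ι → ZMod 2) (S : Finset ι) :
    ∑ D ∈ S.powerset, F8 R l D * ∏ i ∈ S \ D, (s i + l i + ∑ j ∈ D, R i j) = ∏ i ∈ S, s i :=
  ident2 (by decide) R l s S

private theorem fst_prod (S : Finset ι) (a b : ι → ZMod 2) :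
    TrivSqZeroExt.fst (∏ i ∈ S, (TrivSqZeroExt.inl (a i) + TrivSqZeroExt.inr (b i) :
      DualNumber (ZMod 2))) = ∏ i ∈ S, a i := by
  induction S using Finset.induction_on with
  | empty => simp
  | insert i S hi ih => rw [Finset.prod_insert hi, Finset.prod_insert hi, TrivSqZeroExt.fst_mul, ih]; simp

private theorem snd_prod (S : Finset ι) (a b : ι → ZMod 2) :
    TrivSqZeroExt.snd (∏ i ∈ S, (TrivSqZeroExt.inl (a i) + TrivSqZeroExt.inr (b i) :
      DualNumber (ZMod 2))) = ∑ i ∈ S, b i * ∏ j ∈ S.erase i, a j := by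
  induction S using Finset.induction_on with
  | empty => simp
  | insert i S hi ih =>
    rw [Finset.prod_insert hi, TrivSqZeroExt.snd_mul, ih, fst_prod, Finset.sum_insert hi,
      Finset.erase_insert hi]
    have e : ∑ x ∈ S, b x * ∏ j ∈ (insert i S).erase x, a j =
        ∑ x ∈ S, a i * (b x * ∏ j ∈ S.erase x, a j) := by
      refine Finset.sum_congr rfl fun x hx => ?_
      have hxi : i ≠ x := fun h => hi (h ▸ hx)
      rw [Finset.erase_insert_of_ne hxi, Finset.prod_insert (fun h => hi (Finset.mem_of_mem_erase h))]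
      ring
    rw [e, ← Finset.mul_sum]
    simp
    ring

private theorem two_dual : (2 : DualNumber (ZMod 2)) = 0 := by
  have h : (2 : DualNumber (ZMod 2)) = TrivSqZeroExt.inl (2 : ZMod 2) := by
    rfl
  rw [h, show (2 : ZMod 2) = 0 from rfl, TrivSqZeroExt.inl_zero]

/-- a Laplacian with zero diagonal perturbation is singular -/
private theorem det_LD_zero (R : ι → ι → ZMod 2) (D : Finset ι) (hD : D.Nonempty) :
    (LD R (fun _ => (0 : ZMod 2)) D).det = 0 := by
  obtain ⟨q, hq⟩ := hD
  have h5 := Matrix.det_updateCol_sum (LD R (fun _ => (0 : ZMod 2)) D) q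
    (fun j => if j ∈ D then (1 : ZMod 2) else 0)
  have h6 : (fun k => ∑ i, (fun j => if j ∈ D then (1 : ZMod 2) else 0) i •
      LD R (fun _ => (0 : ZMod 2)) D k i) = 0 := by
    funext k
    have h7 := row_sum (A := ZMod 2) (by decide) R (fun _ => 0) D D (Finset.Subset.refl _) k
    have h8 : ∀ j, Mx R (fun _ => (0 : ZMod 2)) D D k j = LD R (fun _ => (0 : ZMod 2)) D k j := by
      intro j
      by_cases h : k ∈ D ∧ j ∈ D
      · simp [Mx, LD, h.1, h.2]
      · simp [Mx, LD, h]
    simp only [h8] at h7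
    rw [h7]
    simp
  rw [h6] at h5
  have h9 : ((LD R (fun _ => (0 : ZMod 2)) D).updateCol q 0).det = 0 :=
    Matrix.det_eq_zero_of_column_eq_zero q fun i => by rw [Matrix.updateCol_self]; rfl
  rw [h9] at h5
  simpa [hq] using h5.symm

private theorem fst_det (R : ι → ι → ZMod 2) (l : ι → ZMod 2) (D : Finset ι) :
    TrivSqZeroExt.fst (LD (A := DualNumber (ZMod 2)) (fun i j => TrivSqZeroExt.inl (R i j))
    (fun i => TrivSqZeroExt.inr (l i)) D).det = (LD R (fun _ => (0 : ZMod 2)) D).det := by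
  have := (TrivSqZeroExt.fstHom (ZMod 2) (ZMod 2) (ZMod 2)).toRingHom.map_det
    (LD (A := DualNumber (ZMod 2)) (fun i j => TrivSqZeroExt.inl (R i j))
    (fun i => TrivSqZeroExt.inr (l i)) D)
  refine this.trans ?_
  congr 1
  ext i j
  simp only [RingHom.mapMatrix_apply, Matrix.map_apply, LD, Matrix.of_apply]
  split_ifs <;> simp [TrivSqZeroExt.fst_sum]

/-- recursion of the digits of level 4 -/
theorem F4_rec (R : ι → ι → ZMod 2) (l s : ι → ZMod 2) (S : Finset ι) :
    ∑ D ∈ S.powerset.erase ∅, F4 R l D * ∏ i ∈ S \ D, (s i + ∑ j ∈ D, R i j) =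
      ∑ i ∈ S, l i * ∏ j ∈ S.erase i, s j := by
  have h := ident2 (A := DualNumber (ZMod 2)) two_dual (fun i j => TrivSqZeroExt.inl (R i j))
    (fun i => TrivSqZeroExt.inr (l i)) (fun i => TrivSqZeroExt.inl (s i)) S
  have h' := congrArg TrivSqZeroExt.snd h
  rw [TrivSqZeroExt.snd_sum] at h'
  have e1 : ∀ D ∈ S.powerset, TrivSqZeroExt.snd
      ((LD (A := DualNumber (ZMod 2)) (fun i j => TrivSqZeroExt.inl (R i j))
        (fun i => TrivSqZeroExt.inr (l i)) D).det *
        ∏ i ∈ S \ D, (TrivSqZeroExt.inl (s i) + TrivSqZeroExt.inr (l i) +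
          ∑ j ∈ D, (TrivSqZeroExt.inl (R i j) : DualNumber (ZMod 2)))) =
      if D = ∅ then ∑ i ∈ S, l i * ∏ j ∈ S.erase i, s j else
        F4 R l D * ∏ i ∈ S \ D, (s i + ∑ j ∈ D, R i j) := by
    intro D hD
    by_cases hD0 : D = ∅
    · subst hD0
      rw [if_pos rfl, det_LD_empty, one_mul, Finset.sdiff_empty, ← snd_prod]
      simp
    · rw [if_neg hD0]
      have e3 : ∏ i ∈ S \ D, (TrivSqZeroExt.inl (s i) + TrivSqZeroExt.inr (l i) +
          ∑ j ∈ D, (TrivSqZeroExt.inl (R i j) : DualNumber (ZMod 2))) =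
          ∏ i ∈ S \ D, (TrivSqZeroExt.inl (s i + ∑ j ∈ D, R i j) + TrivSqZeroExt.inr (l i)) := by
        refine Finset.prod_congr rfl fun i _ => ?_
        rw [TrivSqZeroExt.inl_add, TrivSqZeroExt.inl_sum]
        ring
      rw [e3, TrivSqZeroExt.snd_mul, fst_det, det_LD_zero R D (Finset.nonempty_iff_ne_empty.2 hD0),
        fst_prod]
      simp [F4]
  rw [Finset.sum_congr rfl e1] at h'
  have e2 : TrivSqZeroExt.snd (∏ i ∈ S, (TrivSqZeroExt.inl (s i) : DualNumber (ZMod 2))) = 0 := by
    have := snd_prod S s (fun _ => 0)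
    simpa using this
  rw [e2, ← Finset.add_sum_erase _ _ (Finset.empty_mem_powerset S), if_pos rfl] at h'
  have e3 : ∑ D ∈ S.powerset.erase ∅, (if D = ∅ then ∑ i ∈ S, l i * ∏ j ∈ S.erase i, s j else
        F4 R l D * ∏ i ∈ S \ D, (s i + ∑ j ∈ D, R i j)) =
      ∑ D ∈ S.powerset.erase ∅, F4 R l D * ∏ i ∈ S \ D, (s i + ∑ j ∈ D, R i j) := by
    refine Finset.sum_congr rfl fun D hD => ?_
    rw [if_neg (Finset.ne_of_mem_erase hD)]
  rw [e3] at h'
  have h9 := CharTwo.add_eq_zero.1 h'
  exact h9.symm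

private theorem col_univ (h2 : (2 : A) = 0) (R : ι → ι → A) (y : ι → A) (q : ι) :
    (LD R y univ).det = ((LD R y univ).updateCol q y).det := by
  have h5 := Matrix.det_updateCol_sum (LD R y univ) q (fun _ => (1 : A))
  have h6 : (fun k => ∑ i, (fun _ => (1 : A)) i • LD R y univ k i) = y := by
    funext k
    have h7 := row_sum h2 R y univ univ (Finset.Subset.refl _) k
    have h8 : ∀ j, Mx R y univ univ k j = LD R y univ k j := by
      intro j
      simp [Mx, LD]
    simpa [h8] using h7
  rw [h6] at h5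
  rw [h5, one_smul]

/-- the digit of level 4 of the full set is the determinant with one column replaced -/
theorem F4_univ (R : ι → ι → ZMod 2) (l : ι → ZMod 2) (q : ι) :
    F4 R l univ = ((Lap R).updateCol q l).det := by
  rw [F4, col_univ two_dual _ _ q]
  have e1 : (fun i => (TrivSqZeroExt.inr (l i) : DualNumber (ZMod 2))) =
      (TrivSqZeroExt.inr (1 : ZMod 2) : DualNumber (ZMod 2)) •
        fun i => (TrivSqZeroExt.inl (l i) : DualNumber (ZMod 2)) := by
    funext i
    rw [Pi.smul_apply, smul_eq_mul]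
    apply TrivSqZeroExt.ext
    · rw [TrivSqZeroExt.fst_mul, TrivSqZeroExt.fst_inr, TrivSqZeroExt.fst_inr, zero_mul]
    · rw [TrivSqZeroExt.snd_mul, TrivSqZeroExt.fst_inr, TrivSqZeroExt.snd_inr,
        TrivSqZeroExt.snd_inr, TrivSqZeroExt.fst_inl, TrivSqZeroExt.snd_inl]
      simp
  have e2 : ((LD (A := DualNumber (ZMod 2)) (fun i j => TrivSqZeroExt.inl (R i j))
    (fun i => TrivSqZeroExt.inr (l i)) univ).updateCol q
      (fun i => (TrivSqZeroExt.inr (l i) : DualNumber (ZMod 2)))).det =
      (TrivSqZeroExt.inr (1 : ZMod 2) : DualNumber (ZMod 2)) *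
      ((LD (A := DualNumber (ZMod 2)) (fun i j => TrivSqZeroExt.inl (R i j))
    (fun i => TrivSqZeroExt.inr (l i)) univ).updateCol q
      (fun i => (TrivSqZeroExt.inl (l i) : DualNumber (ZMod 2)))).det := by
    have h := Matrix.det_updateCol_smul (LD (A := DualNumber (ZMod 2))
      (fun i j => TrivSqZeroExt.inl (R i j)) (fun i => TrivSqZeroExt.inr (l i)) univ) q
      (TrivSqZeroExt.inr (1 : ZMod 2) : DualNumber (ZMod 2))
      (fun i => (TrivSqZeroExt.inl (l i) : DualNumber (ZMod 2)))
    rw [← e1] at h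
    exact h
  rw [e2, TrivSqZeroExt.snd_mul]
  have e3 := (TrivSqZeroExt.fstHom (ZMod 2) (ZMod 2) (ZMod 2)).toRingHom.map_det
    (((LD (A := DualNumber (ZMod 2)) (fun i j => TrivSqZeroExt.inl (R i j))
    (fun i => TrivSqZeroExt.inr (l i)) univ).updateCol q
      (fun i => (TrivSqZeroExt.inl (l i) : DualNumber (ZMod 2)))))
  have e4 : TrivSqZeroExt.fst ((LD (A := DualNumber (ZMod 2)) (fun i j => TrivSqZeroExt.inl (R i j))
    (fun i => TrivSqZeroExt.inr (l i)) univ).updateCol q
      (fun i => (TrivSqZeroExt.inl (l i) : DualNumber (ZMod 2)))).det =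
      ((Lap R).updateCol q l).det := by
    refine e3.trans ?_
    congr 1
    ext i j
    simp only [RingHom.mapMatrix_apply, Matrix.map_apply, Matrix.updateCol_apply, LD, Lap,
      Matrix.of_apply]
    split_ifs <;> simp_all [TrivSqZeroExt.fst_sum]
  rw [e4]
  simp

/-- the digit of level 8 of the full set -/
theorem F8_univ (R : ι → ι → ZMod 2) (l : ι → ZMod 2) (q : ι) :
    F8 R l univ = ((Lap R + Matrix.diagonal l).updateCol q l).det := by
  rw [F8, col_univ (by decide) R l q]
  congr 2
  ext i j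
  simp only [LD, Lap, Matrix.of_apply, Matrix.add_apply, Matrix.diagonal_apply]
  by_cases h : i = j
  · simp [h, add_comm]
  · simp [h]

end Pool.Agent.TZB
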