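import Pool.Agent.TZB.Defs

set_option autoImplicit false

/-! DIS: multiplication theorem of Bernoulli polynomials and its consequences for `BB`. -/

namespace Pool.Agent.TZB

open Finset

private noncomputable def FF (n m : ℕ) : Polynomial ℚ :=
  Polynomial.C ((m : ℚ) ^ n) * ∑ j ∈ range m,
    (Polynomial.bernoulli n).comp (Polynomial.C (1 / (m : ℚ)) * Polynomial.X +
      Polynomial.C ((j : ℚ) / m)) - Polynomial.C (m : ℚ) * Polynomial.bernoulli n

private theorem FF_eval (n m : ℕ) (x : ℚ) : (FF n m).eval x =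
    (m : ℚ) ^ n * ∑ j ∈ range m, (Polynomial.bernoulli n).eval ((x + j) / m) -
      m * (Polynomial.bernoulli n).eval x := by
  unfold FF
  rw [Polynomial.eval_sub, Polynomial.eval_mul, Polynomial.eval_mul, Polynomial.eval_C,
    Polynomial.eval_C, Polynomial.eval_finsetSum]
  congr 2
  refine Finset.sum_congr rfl (fun j _ => ?_)
  rw [Polynomial.eval_comp]
  congr 1
  simp only [Polynomial.eval_add, Polynomial.eval_mul, Polynomial.eval_C, Polynomial.eval_X]
  ring

private theorem FF_step (n m : ℕ) (hn : 1 ≤ n) (hm : 1 ≤ m) (x : ℚ) :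
    (FF n m).eval (1 + x) = (FF n m).eval x := by
  have hmq : (m : ℚ) ≠ 0 := by exact_mod_cast (by omega : m ≠ 0)
  rw [FF_eval, FF_eval, Polynomial.bernoulli_eval_one_add]
  obtain ⟨m', rfl⟩ : ∃ m', m = m' + 1 := ⟨m - 1, by omega⟩
  have h1 : ∑ j ∈ range (m' + 1), (Polynomial.bernoulli n).eval ((1 + x + j) / ((m' + 1 : ℕ) : ℚ)) =
      ∑ j ∈ range (m' + 1), (Polynomial.bernoulli n).eval ((x + j) / ((m' + 1 : ℕ) : ℚ)) +
      n * (x / ((m' + 1 : ℕ) : ℚ)) ^ (n - 1) := by
    rw [Finset.sum_range_succ, Finset.sum_range_succ' (fun j => (Polynomial.bernoulli n).eval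
      ((x + (j : ℕ)) / ((m' + 1 : ℕ) : ℚ)))]
    have e1 : (1 + x + (m' : ℚ)) / ((m' + 1 : ℕ) : ℚ) = 1 + x / ((m' + 1 : ℕ) : ℚ) := by
      field_simp; push_cast; ring
    rw [e1, Polynomial.bernoulli_eval_one_add]
    have e2 : ∀ j ∈ range m', (Polynomial.bernoulli n).eval ((1 + x + (j : ℚ)) / ((m' + 1 : ℕ) : ℚ)) =
        (Polynomial.bernoulli n).eval ((x + ((j + 1 : ℕ) : ℚ)) / ((m' + 1 : ℕ) : ℚ)) := by
      intro j _
      congr 1; push_cast; ring
    rw [Finset.sum_congr rfl e2]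
    simp only [Nat.cast_zero, add_zero]
    ring
  rw [h1]
  obtain ⟨n', rfl⟩ : ∃ n', n = n' + 1 := ⟨n - 1, by omega⟩
  simp only [Nat.add_sub_cancel]
  rw [div_pow]
  field_simp
  ring

private theorem FF_const (n m : ℕ) (hn : 1 ≤ n) (hm : 1 ≤ m) :
    FF n m = Polynomial.C ((FF n m).eval 0) := by
  apply Polynomial.eq_of_infinite_eval_eq
  refine Set.Infinite.mono ?_ (Set.infinite_range_of_injective (f := fun k : ℕ => (k : ℚ))
    Nat.cast_injective)
  rintro _ ⟨k, rfl⟩
  simp only [Set.mem_ofPred_eq, Polynomial.eval_C]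
  induction k with
  | zero => simp
  | succ k ih =>
    rw [← ih, ← FF_step n m hn hm (k : ℚ)]
    congr 1; push_cast; ring

private theorem FF_deriv (n m : ℕ) (hm : 1 ≤ m) :
    Polynomial.derivative (FF (n + 1) m) = Polynomial.C ((n : ℚ) + 1) * FF n m := by
  have hmq : (m : ℚ) ≠ 0 := by exact_mod_cast (by omega : m ≠ 0)
  apply Polynomial.funext
  intro x
  unfold FF
  simp only [Polynomial.derivative_sub, Polynomial.derivative_mul, Polynomial.derivative_C,
    Polynomial.derivative_sum, Polynomial.derivative_comp, Polynomial.derivative_add,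
    Polynomial.derivative_X, Polynomial.derivative_bernoulli_add_one,
    Polynomial.eval_sub, Polynomial.eval_mul, Polynomial.eval_add, Polynomial.eval_finsetSum,
    Polynomial.eval_comp, Polynomial.eval_C, Polynomial.eval_X, Polynomial.mul_comp,
    Polynomial.add_comp, Polynomial.eval_natCast, Polynomial.natCast_comp, Polynomial.eval_one,
    Polynomial.one_comp, zero_mul, zero_add, add_zero, mul_one]
  rw [mul_sub, mul_left_comm ((n : ℚ) + 1), ← Finset.mul_sum, ← Finset.mul_sum, pow_succ]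
  field_simp

/-- multiplication theorem: `m^(n-1) sum_{j<m} B_n((x+j)/m) = B_n(x)`, in the form for all `n` -/
theorem bern_mul (n m : ℕ) (hm : 1 ≤ m) (x : ℚ) :
    (m : ℚ) ^ n * ∑ j ∈ range m, (Polynomial.bernoulli n).eval ((x + j) / m) =
      m * (Polynomial.bernoulli n).eval x := by
  have h1 := FF_const (n + 1) m (by omega) hm
  have h2 := FF_deriv n m hm
  rw [h1, Polynomial.derivative_C] at h2
  have h3 := congrArg (Polynomial.eval x) h2
  rw [Polynomial.eval_zero, Polynomial.eval_mul, Polynomial.eval_C, FF_eval] at h3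
  have h4 : (n : ℚ) + 1 ≠ 0 := by positivity
  have h5 := (mul_eq_zero.1 h3.symm).resolve_left h4
  linarith

private theorem sum_range_mul' (M k : ℕ) (f : ℕ → ℚ) :
    ∑ a ∈ range (M * k), f a = ∑ j ∈ range k, ∑ b ∈ range M, f (b + M * j) := by
  induction k with
  | zero => simp
  | succ k ih =>
    rw [Nat.mul_succ, Finset.sum_range_add, ih, Finset.sum_range_succ]
    congr 1
    exact Finset.sum_congr rfl (fun b _ => by rw [add_comm])

private theorem per' (g : ℤ → ℚ) (M : ℕ) (hg : ∀ a : ℤ, g (a + M) = g a) (b j : ℕ) :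
    g ((b + M * j : ℕ) : ℤ) = g b := by
  have hp : Function.Periodic g (M : ℤ) := hg
  have h1 := hp.int_mul (j : ℤ) (b : ℤ)
  rw [← h1]
  congr 1
  push_cast
  ring

/-- `BB` does not depend on the level -/
theorem BB_level (n M k : ℕ) (hn : 1 ≤ n) (hM : 1 ≤ M) (hk : 1 ≤ k) (g : ℤ → ℚ)
    (hg : ∀ a : ℤ, g (a + M) = g a) : BB n (M * k) g = BB n M g := by
  have hMq : (M : ℚ) ≠ 0 := by exact_mod_cast (by omega : M ≠ 0)
  have hkq : (k : ℚ) ≠ 0 := by exact_mod_cast (by omega : k ≠ 0)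
  unfold BB
  rw [sum_range_mul', Finset.sum_comm]
  have e : ∀ b ∈ range M, ∑ j ∈ range k, g ((b + M * j : ℕ) : ℤ) *
      (Polynomial.bernoulli n).eval (((b + M * j : ℕ) : ℚ) / ((M * k : ℕ) : ℚ)) =
      g b * ((k : ℚ) / (k : ℚ) ^ n * (Polynomial.bernoulli n).eval ((b : ℚ) / M)) := by
    intro b _
    have h1 := bern_mul n k hk ((b : ℚ) / M)
    have h2 : ∀ j ∈ range k, g ((b + M * j : ℕ) : ℤ) *
        (Polynomial.bernoulli n).eval (((b + M * j : ℕ) : ℚ) / ((M * k : ℕ) : ℚ)) =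
        g b * (Polynomial.bernoulli n).eval (((b : ℚ) / M + j) / k) := by
      intro j _
      rw [per' g M hg]
      congr 2
      push_cast
      field_simp
    rw [Finset.sum_congr rfl h2, ← Finset.mul_sum]
    congr 1
    have h3 : (k : ℚ) ^ n ≠ 0 := pow_ne_zero _ hkq
    rw [div_mul_eq_mul_div, ← h1, mul_div_cancel_left₀ _ h3]
  rw [Finset.sum_congr rfl e, Finset.mul_sum, Finset.mul_sum]
  refine Finset.sum_congr rfl (fun b _ => ?_)
  obtain ⟨n', rfl⟩ : ∃ n', n = n' + 1 := ⟨n - 1, by omega⟩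
  simp only [Nat.add_sub_cancel]
  push_cast
  rw [mul_pow, pow_succ (k : ℚ)]
  field_simp

/-- reflection -/
theorem BB_neg (n M : ℕ) (hn : 1 ≤ n) (hM : 1 ≤ M) (g : ℤ → ℚ)
    (hg : ∀ a : ℤ, g (a + M) = g a) (h0 : g 0 = 0) :
    BB n M (fun a => g (-a)) = (-1) ^ n * BB n M g := by
  unfold BB
  rw [mul_left_comm]
  congr 1
  obtain ⟨m, rfl⟩ : ∃ m, M = m + 1 := ⟨M - 1, by omega⟩
  rw [Finset.sum_range_succ', Finset.sum_range_succ' (fun a => g ((a : ℕ) : ℤ) *
    (Polynomial.bernoulli n).eval (((a : ℕ) : ℚ) / ((m + 1 : ℕ) : ℚ)))]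
  simp only [Nat.cast_zero, neg_zero, h0, zero_mul, add_zero]
  rw [← Finset.sum_range_reflect (fun a => g ((a + 1 : ℕ) : ℤ) *
    (Polynomial.bernoulli n).eval (((a + 1 : ℕ) : ℚ) / ((m + 1 : ℕ) : ℚ))), Finset.mul_sum]
  refine Finset.sum_congr rfl (fun a ha => ?_)
  have ha' := Finset.mem_range.1 ha
  have e1 : m - 1 - a + 1 = m - a := by omega
  rw [e1]
  have hmq : ((m + 1 : ℕ) : ℚ) ≠ 0 := by positivity
  have e2 : ((m - a : ℕ) : ℤ) = -((a + 1 : ℕ) : ℤ) + ((m + 1 : ℕ) : ℤ) := by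
    rw [Nat.cast_sub ha'.le]; push_cast; ring
  have e3 : ((m - a : ℕ) : ℚ) / ((m + 1 : ℕ) : ℚ) = 1 - ((a + 1 : ℕ) : ℚ) / ((m + 1 : ℕ) : ℚ) := by
    rw [Nat.cast_sub ha'.le]; field_simp; push_cast; ring
  rw [e2, hg, e3, Polynomial.bernoulli_eval_one_sub]
  have e4 : ((-1 : ℚ)) ^ n * (-1) ^ n = 1 := by
    rw [← mul_pow]; norm_num
  linear_combination (-(g (-((a + 1 : ℕ) : ℤ)) *
    (Polynomial.bernoulli n).eval (((a + 1 : ℕ) : ℚ) / ((m + 1 : ℕ) : ℚ)))) * e4

theorem BB_add (n M : ℕ) (g h : ℤ → ℚ) : BB n M (fun a => g a + h a) = BB n M g + BB n M h := by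
  unfold BB
  rw [← mul_add, ← Finset.sum_add_distrib]
  congr 1
  exact Finset.sum_congr rfl (fun a _ => by ring)

theorem BB_smul (n M : ℕ) (c : ℚ) (g : ℤ → ℚ) : BB n M (fun a => c * g a) = c * BB n M g := by
  unfold BB
  rw [mul_left_comm]
  congr 1
  rw [Finset.mul_sum]
  exact Finset.sum_congr rfl (fun a _ => by ring)

theorem BB_sum {κ : Type*} (n M : ℕ) (s : Finset κ) (g : κ → ℤ → ℚ) :
    BB n M (fun a => ∑ i ∈ s, g i a) = ∑ i ∈ s, BB n M (g i) := by
  unfold BB
  rw [← Finset.mul_sum, Finset.sum_comm]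
  congr 1
  exact Finset.sum_congr rfl (fun a _ => by rw [Finset.sum_mul])

theorem BB_congr (n M : ℕ) (g h : ℤ → ℚ) (H : ∀ a : ℕ, a < M → g a = h a) :
    BB n M g = BB n M h := by
  unfold BB
  congr 1
  exact Finset.sum_congr rfl (fun a ha => by rw [H a (Finset.mem_range.1 ha)])

/-- removing the multiples of a prime -/
theorem BB_prime (n M l : ℕ) (hn : 1 ≤ n) (hM : 1 ≤ M) (hl : 1 ≤ l) (g : ℤ → ℚ)
    (hg : ∀ a : ℤ, g (a + M) = g a) :
    BB n (M * l) (fun a => if (l : ℤ) ∣ a then 0 else g a) =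
      BB n M g - (l : ℚ) ^ (n - 1) * BB n M (fun a => g (l * a)) := by
  have hMq : (M : ℚ) ≠ 0 := by exact_mod_cast (by omega : M ≠ 0)
  have hlq : (l : ℚ) ≠ 0 := by exact_mod_cast (by omega : l ≠ 0)
  rw [← BB_level n M l hn hM hl g hg]
  have h1 : BB n (M * l) (fun a => if (l : ℤ) ∣ a then 0 else g a) + BB n (M * l)
      (fun a => if (l : ℤ) ∣ a then g a else 0) = BB n (M * l) g := by
    rw [← BB_add]
    apply BB_congr
    intro a _
    split_ifs <;> simp
  have h2 : BB n (M * l) (fun a => if (l : ℤ) ∣ a then g a else 0) =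
      (l : ℚ) ^ (n - 1) * BB n M (fun a => g (l * a)) := by
    unfold BB
    rw [show M * l = l * M by ring, sum_range_mul']
    have e : ∀ j ∈ range M, ∑ b ∈ range l, (if (l : ℤ) ∣ ((b + l * j : ℕ) : ℤ) then
        g ((b + l * j : ℕ) : ℤ) else 0) *
        (Polynomial.bernoulli n).eval (((b + l * j : ℕ) : ℚ) / ((l * M : ℕ) : ℚ)) =
        g (l * (j : ℤ)) * (Polynomial.bernoulli n).eval ((j : ℚ) / M) := by
      intro j _
      rw [Finset.sum_eq_single_of_mem 0 (Finset.mem_range.2 (by omega))]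
      · have : (l : ℤ) ∣ ((0 + l * j : ℕ) : ℤ) := by push_cast; simp
        rw [if_pos this]
        congr 2
        · push_cast; ring
        · push_cast; field_simp; ring
      · intro b hb hb0
        have hb' := Finset.mem_range.1 hb
        have : ¬ (l : ℤ) ∣ ((b + l * j : ℕ) : ℤ) := by
          intro hd
          have hd' : l ∣ b + l * j := by exact_mod_cast hd
          have hd2 : l ∣ b := (Nat.dvd_add_left (dvd_mul_right l j)).1 hd'
          exact absurd (Nat.le_of_dvd (Nat.pos_of_ne_zero hb0) hd2) (by omega)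
        rw [if_neg this, zero_mul]
    rw [Finset.sum_congr rfl e]
    push_cast
    rw [mul_pow]
    ring
  rw [← h2, ← h1]
  ring

end Pool.Agent.TZB
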