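import Mathlib

set_option autoImplicit false

/-!
# TZB / MP_b20a3c_nt: 2-adic L-functions of real quadratic characters. Definitions.
-/

namespace Pool.Agent.TZB

open Finset

/-! ### Integrality at 2 and residues -/

/-- `x` is integral at `2` and its residue is `c` -/
def Rd (x : ℚ) (c : ZMod 2) : Prop := ∃ z : ℤ_[2], (z : ℚ_[2]) = (x : ℚ_[2]) ∧ PadicInt.toZMod z = c

/-- `x` is integral at `2` -/
def Zi (x : ℚ) : Prop := ∃ z : ℤ_[2], (z : ℚ_[2]) = (x : ℚ_[2])

/-! ### Bernoulli sums -/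

/-- `M^(n-1) / n * sum_{0 <= a < M} g(a) B_n(a / M)` -/
noncomputable def BB (n M : ℕ) (g : ℤ → ℚ) : ℚ :=
  (M : ℚ) ^ (n - 1) / n * ∑ a ∈ range M, g a * (Polynomial.bernoulli n).eval ((a : ℚ) / M)

/-- weights: `chi_8` at level `8`, trivial at level `4` -/
def wt (c : ℕ) (a : ℤ) : ℤ := if c = 8 then ZMod.χ₈ (a : ZMod 8) else 1

/-- the Bernoulli sum over `a = 1 mod 4` with the character `(a / N)` and the weight of level `c` -/
noncomputable def XX (n c N : ℕ) : ℚ :=
  BB n (c * N) fun a => if a % 4 = 1 then ((wt c a * jacobiSym a N : ℤ) : ℚ) else 0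

/-- the signed prime `l^* = +-l = 1 mod 4` -/
def star (l : ℕ) : ℤ := if l % 4 = 3 then -(l : ℤ) else l

/-- the sign of `l^*` -/
def sgs (l : ℕ) : ℤ := if l % 4 = 3 then -1 else 1

/-- Euler factor at the odd prime `l` of the character `(. / N)` (times the weight) -/
def EE (n c l N : ℕ) : ℚ :=
  1 - (sgs l : ℚ) * (star l : ℚ) ^ (n - 1) * (wt c l : ℚ) * (jacobiSym (star l) N : ℚ)

/-- `l = 3 mod 4` -/
def nn (q : ℕ) : ZMod 2 := if q % 4 = 3 then 1 else 0

/-- `l = 3, 5 mod 8` -/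
def lam (q : ℕ) : ZMod 2 := if q % 8 = 3 ∨ q % 8 = 5 then 1 else 0

/-- `sy p q = 1` iff `(q / p) = -1` (same as `TLW.sy`) -/
def sy (p q : ℕ) : ZMod 2 := if jacobiSym (q : ℤ) p = -1 then 1 else 0

section
variable {ι : Type*}

/-- product of the primes with index in `D` -/
def NN (ℓ : ι → ℕ) (D : Finset ι) : ℕ := ∏ i ∈ D, ℓ i

end

/-! ### Determinants (any commutative ring; used for rings with `2 = 0`) -/

section
variable {ι : Type*} [Fintype ι] [DecidableEq ι] {A : Type*} [CommRing A]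

/-- The Laplacian of the subset `D` plus `diag(y)`, extended by the identity outside `D`. -/
def LD (R : ι → ι → A) (y : ι → A) (D : Finset ι) : Matrix ι ι A :=
  Matrix.of fun i j =>
    if i ∈ D ∧ j ∈ D then (if i = j then y i + ∑ k ∈ D.erase i, R i k else R i j)
    else if i = j then 1 else 0

/-- the digit of level 8: `det(Lambda + L_D)` -/
def F8 (R : ι → ι → ZMod 2) (l : ι → ZMod 2) (D : Finset ι) : ZMod 2 := (LD R l D).det

/-- the digit of level 4: the coefficient of `eps` in `det(eps Lambda + L_D)` -/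
def F4 (R : ι → ι → ZMod 2) (l : ι → ZMod 2) (D : Finset ι) : ZMod 2 :=
  TrivSqZeroExt.snd (LD (A := DualNumber (ZMod 2)) (fun i j => TrivSqZeroExt.inl (R i j))
    (fun i => TrivSqZeroExt.inr (l i)) D).det

/-- Laplacian of `R` -/
def Lap (R : ι → ι → ZMod 2) : Matrix ι ι (ZMod 2) :=
  Matrix.of fun i j => if i = j then ∑ k ∈ univ.erase i, R i k else R i j

end

/-! ### Real quadratic discriminants and 2-adic L-functions -/

/-- `D` is the discriminant of a real quadratic field -/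
def RealDisc (D : ℕ) : Prop :=
  1 < D ∧ ((D % 4 = 1 ∧ Squarefree D) ∨
    (D % 4 = 0 ∧ Squarefree (D / 4) ∧ (D / 4 % 4 = 2 ∨ D / 4 % 4 = 3)))

/-- The function `a ↦ chi_D(a) * chi_{-4}(a)^n` on odd residues modulo `4 D` (zero on even ones);
`chi_D(a)` is the Kronecker symbol `(D / a)`; this is the character `chi_D * omega^(-n)` of the
prime `2` with its Euler factor at `2` removed. -/
noncomputable def Phi (D n : ℕ) : ZMod (4 * D) → ℂ := fun a =>
  if a.val % 2 = 1 then ((jacobiSym (D : ℤ) a.val * (-1) ^ (n * (a.val / 2)) : ℤ) : ℂ) else 0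

/-- the L-function of `Phi D n` -/
noncomputable def LV (D n : ℕ) (s : ℂ) : ℂ :=
  if h : D = 0 then 0 else
    haveI : NeZero (4 * D) := ⟨mul_ne_zero four_ne_zero h⟩
    ZMod.LFunction (Phi D n) s

/-- `L` is the `2`-adic L-function of the real quadratic character `chi_D`: the continuous function
on the `2`-adic integers with `L(1 - n) = L(chi_D omega^(-n), 1 - n) * (Euler factor at 2)^(-1)` -/
def IsL2 (D : ℕ) (L : ℤ_[2] → ℚ_[2]) : Prop :=
  Continuous L ∧ ∀ n : ℕ, 2 ≤ n → ∃ r : ℚ, (r : ℂ) = LV D n (1 - n) ∧ L (1 - n) = (r : ℚ_[2])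

/-- the rational value `L(chi_D omega^(-n), 1-n)` without Euler factor is `-2 XD n D` -/
noncomputable def XD (n D : ℕ) : ℚ :=
  if D % 8 = 0 then XX n 8 (D / 8) else if D % 4 = 0 then XX n 4 (D / 4) else XX n 4 D

end Pool.Agent.TZB
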