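import Pool.Agent.TZB.EST
import Pool.Agent.TZB.DIS

set_option autoImplicit false

/-! ES2: difference quotients `(f(n) - f(1)) / (4 (n - 1))` of the estimates of EST; the trivial zero. -/

namespace Pool.Agent.TZB

open Finset

variable {ι : Type*} [DecidableEq ι]

private theorem Zi_half_of_zero {x : ℚ} (h : Rd x 0) : Zi (x / 2) := by
  obtain ⟨z, hz, hc⟩ := h
  have h1 : z ∈ RingHom.ker (PadicInt.toZMod (p := 2)) := hc
  rw [PadicInt.ker_toZMod, PadicInt.maximalIdeal_eq_span_p, Ideal.mem_span_singleton] at h1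
  obtain ⟨w, hw⟩ := h1
  refine ⟨w, ?_⟩
  have : (x : ℚ_[2]) = 2 * (w : ℚ_[2]) := by
    rw [← hz, hw, PadicInt.coe_mul, PadicInt.coe_natCast]
    norm_num
  push_cast
  rw [this]; ring

private theorem odd_pow_half (a : ℤ) (ha : a % 4 = 1) (k : ℕ) : Zi (((a : ℚ) ^ k - 1) / 2) := by
  have h1 : Odd (a ^ k) := by
    apply Odd.pow
    exact Int.odd_iff.2 (by omega)
  obtain ⟨c, hc⟩ := h1
  have : ((a : ℚ) ^ k - 1) / 2 = (c : ℚ) := by
    have : (a : ℚ) ^ k = 2 * c + 1 := by exact_mod_cast hc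
    rw [this]; ring
  rw [this]
  exact Zi.int c

private theorem bern_sum (m : ℕ) (hm0 : 0 < m) (n : ℕ) (hn : 1 ≤ n) (a : ℤ) :
    (m : ℚ) ^ (n - 1) / n * (Polynomial.bernoulli n).eval ((a : ℚ) / m) -
      ((a : ℚ) ^ n / (m * n) - (a : ℚ) ^ (n - 1) / 2) =
      ∑ k ∈ range (n - 1), (n.choose (k + 2) : ℚ) / n * bernoulli (k + 2) *
        (m : ℚ) ^ (k + 2 - 1) * (a : ℚ) ^ (n - (k + 2)) := by
  have hmq : (m : ℚ) ≠ 0 := by exact_mod_cast hm0.ne'
  have hnq : (n : ℚ) ≠ 0 := by exact_mod_cast (by omega : n ≠ 0)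
  have hev : (Polynomial.bernoulli n).eval ((a : ℚ) / m) =
      ∑ k ∈ range (n + 1), bernoulli k * (n.choose k : ℚ) * ((a : ℚ) / m) ^ (n - k) := by
    rw [Polynomial.bernoulli, Polynomial.eval_finsetSum]
    refine Finset.sum_congr rfl (fun k _ => ?_)
    rw [Polynomial.eval_monomial]
  have hsum : (m : ℚ) ^ (n - 1) / n * (Polynomial.bernoulli n).eval ((a : ℚ) / m) -
      ((a : ℚ) ^ n / (m * n) - (a : ℚ) ^ (n - 1) / 2) =
      ∑ k ∈ range (n - 1), (n.choose (k + 2) : ℚ) / n * bernoulli (k + 2) *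
        (m : ℚ) ^ (k + 2 - 1) * (a : ℚ) ^ (n - (k + 2)) := by
    rw [hev]
    obtain ⟨n', rfl⟩ : ∃ n', n = n' + 1 := ⟨n - 1, by omega⟩
    rw [Finset.sum_range_succ', Finset.sum_range_succ', mul_add, mul_add, Finset.mul_sum]
    simp only [Nat.add_sub_cancel]
    have e : ∀ k ∈ range n', (m : ℚ) ^ n' / ((n' + 1 : ℕ) : ℚ) *
        (bernoulli (k + 1 + 1) * ((n' + 1).choose (k + 1 + 1) : ℚ) *
          ((a : ℚ) / m) ^ (n' + 1 - (k + 1 + 1))) =
        ((n' + 1).choose (k + 2) : ℚ) / ((n' + 1 : ℕ) : ℚ) * bernoulli (k + 2) *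
        (m : ℚ) ^ (k + 2 - 1) * (a : ℚ) ^ (n' + 1 - (k + 2)) := by
      intro k hk
      have hk' : k < n' := Finset.mem_range.1 hk
      rw [div_pow]
      have e1 : (m : ℚ) ^ n' = (m : ℚ) ^ (k + 1) * (m : ℚ) ^ (n' + 1 - (k + 2)) := by
        rw [← pow_add]; congr 1; omega
      simp only [show k + 1 + 1 = k + 2 by omega, show k + 2 - 1 = k + 1 by omega]
      rw [e1]
      field_simp
    rw [Finset.sum_congr rfl e]
    have e2 : (m : ℚ) ^ n' / ((n' + 1 : ℕ) : ℚ) * (bernoulli (0 + 1) *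
        ((n' + 1).choose (0 + 1) : ℚ) * ((a : ℚ) / m) ^ n') = - ((a : ℚ) ^ n' / 2) := by
      have : bernoulli (0 + 1) = -1 / 2 := bernoulli_one
      rw [this]
      simp only [Nat.choose_one_right, zero_add]
      rw [div_pow]
      field_simp
    have e3 : (m : ℚ) ^ n' / ((n' + 1 : ℕ) : ℚ) * (bernoulli 0 *
        ((n' + 1).choose 0 : ℚ) * ((a : ℚ) / m) ^ (n' + 1 - 0)) =
        (a : ℚ) ^ (n' + 1) / (m * ((n' + 1 : ℕ) : ℚ)) := by
      simp only [bernoulli_zero, Nat.choose_zero_right, Nat.sub_zero, Nat.cast_one, one_mul]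
      rw [div_pow, pow_succ (m : ℚ)]
      field_simp
    rw [e2, e3]
    ring
  exact hsum

/-- `C(j+2, k+2) / ((j+2)(j+1)) = C(j, k) / ((k+2)(k+1))` -/
private theorem choose_two (j k : ℕ) :
    ((j + 2).choose (k + 2) : ℚ) * ((k + 2) * (k + 1)) = ((j + 2) * (j + 1)) * (j.choose k : ℚ) := by
  have h1 := Nat.add_one_mul_choose_eq (j + 1) (k + 1)
  have h2 := Nat.add_one_mul_choose_eq j k
  have h1' : ((j : ℚ) + 1 + 1) * ((j + 1).choose (k + 1) : ℚ) =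
      ((j + 2).choose (k + 2) : ℚ) * ((k : ℚ) + 1 + 1) := by exact_mod_cast h1
  have h2' : ((j : ℚ) + 1) * (j.choose k : ℚ) = ((j + 1).choose (k + 1) : ℚ) * ((k : ℚ) + 1) := by
    exact_mod_cast h2
  linear_combination (-(k : ℚ) - 1) * h1' - ((j : ℚ) + 2) * h2'

/-- `4^(i+1) / ((i+3)(i+2))` is integral at 2 -/
private theorem Zi_four (i : ℕ) : Zi ((4 : ℚ) ^ (i + 1) / (((i : ℚ) + 1 + 2) * ((i : ℚ) + 1 + 1))) := by
  have h1 := (Zi_pow_div (i + 2) (by omega)).mul (Zi.nat (2 ^ (i + 1)))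
  have h2 := (Zi_pow_div (i + 3) (by omega)).mul (Zi.nat (2 ^ i))
  have h3 := h1.sub h2
  convert h3 using 1
  have e1 : ((i : ℚ) + 1 + 2) ≠ 0 := by positivity
  have e2 : ((i : ℚ) + 1 + 1) ≠ 0 := by positivity
  have e3 : (((i + 2 : ℕ) : ℚ)) ≠ 0 := by positivity
  have e4 : (((i + 3 : ℕ) : ℚ)) ≠ 0 := by positivity
  simp only [show i + 2 - 1 = i + 1 by omega, show i + 3 - 1 = i + 2 by omega]
  have e5 : (4 : ℚ) ^ (i + 1) = 4 * (2 ^ i * 2 ^ i) := by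
    rw [← mul_pow, pow_succ]; norm_num; ring
  rw [e5]
  push_cast at e3 e4 ⊢
  field_simp
  ring

/-- `4^(i+2) / (2 (i+4)(i+3))` is integral at 2 -/
private theorem Zi_four' (i : ℕ) :
    Zi ((4 : ℚ) ^ (i + 2) / (2 * (((i : ℚ) + 2 + 2) * ((i : ℚ) + 2 + 1)))) := by
  have h1 := (Zi_pow_div (i + 3) (by omega)).mul (Zi.nat (2 ^ (i + 1)))
  have h2 := (Zi_pow_div (i + 4) (by omega)).mul (Zi.nat (2 ^ i))
  have h3 := h1.sub h2
  convert h3 using 1
  have e1 : ((i : ℚ) + 2 + 2) ≠ 0 := by positivity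
  have e2 : ((i : ℚ) + 2 + 1) ≠ 0 := by positivity
  have e3 : (((i + 3 : ℕ) : ℚ)) ≠ 0 := by positivity
  have e4 : (((i + 4 : ℕ) : ℚ)) ≠ 0 := by positivity
  simp only [show i + 3 - 1 = i + 2 by omega, show i + 4 - 1 = i + 3 by omega]
  have e5 : (4 : ℚ) ^ (i + 2) = 16 * (2 ^ i * 2 ^ i) := by
    rw [← mul_pow, pow_add]; norm_num; ring
  rw [e5]
  push_cast at e3 e4 ⊢
  field_simp
  ring

/-- second order expansion of `a^n` -/
theorem pow_second (j : ℕ) (a b : ℤ) (ha : a = 1 + 4 * b) :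
    Zi ((((a : ℚ) ^ (j + 2) - 1) / (4 * ((j : ℚ) + 2)) - b) / (4 * ((j : ℚ) + 1)) - (b : ℚ) ^ 2 / 2) := by
  have hj2 : ((j : ℚ) + 2) ≠ 0 := by positivity
  have hj1 : ((j : ℚ) + 1) ≠ 0 := by positivity
  have h1 : (a : ℚ) ^ (j + 2) = ∑ k ∈ range (j + 1), (4 * (b : ℚ)) ^ (k + 2) * ((j + 2).choose (k + 2) : ℚ) +
      (4 * b) * ((j : ℚ) + 2) + 1 := by
    have h2 : (a : ℚ) = 4 * b + 1 := by rw [ha]; push_cast; ring
    rw [h2, add_pow, Finset.sum_range_succ', Finset.sum_range_succ']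
    simp only [one_pow, mul_one, pow_zero, Nat.choose_zero_right, Nat.cast_one, zero_add, pow_one,
      Nat.choose_one_right]
    push_cast
    rfl
  have h2 : (((a : ℚ) ^ (j + 2) - 1) / (4 * ((j : ℚ) + 2)) - b) / (4 * ((j : ℚ) + 1)) =
      ∑ k ∈ range (j + 1), (j.choose k : ℚ) * (4 : ℚ) ^ k * (b : ℚ) ^ (k + 2) /
        (((k : ℚ) + 2) * ((k : ℚ) + 1)) := by
    have h3 : ∀ k ∈ range (j + 1), (j.choose k : ℚ) * (4 : ℚ) ^ k * (b : ℚ) ^ (k + 2) /
        (((k : ℚ) + 2) * ((k : ℚ) + 1)) = (4 * (b : ℚ)) ^ (k + 2) * ((j + 2).choose (k + 2) : ℚ) /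
        (4 * ((j : ℚ) + 2) * (4 * ((j : ℚ) + 1))) := by
      intro k _
      have e1 : ((k : ℚ) + 2) ≠ 0 := by positivity
      have e2 : ((k : ℚ) + 1) ≠ 0 := by positivity
      have h4 := choose_two j k
      rw [div_eq_div_iff (by positivity) (by positivity), mul_pow]
      rw [show (4 : ℚ) ^ (k + 2) = 16 * 4 ^ k by rw [pow_add]; norm_num; ring]
      linear_combination (-(16 : ℚ) * 4 ^ k * (b : ℚ) ^ (k + 2)) * h4
    rw [Finset.sum_congr rfl h3, ← Finset.sum_div, h1]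
    field_simp
    ring
  rw [h2, Finset.sum_range_succ']
  have h3 : (j.choose 0 : ℚ) * (4 : ℚ) ^ 0 * (b : ℚ) ^ (0 + 2) / ((((0 : ℕ) : ℚ) + 2) * (((0 : ℕ) : ℚ) + 1)) =
      (b : ℚ) ^ 2 / 2 := by
    simp
  rw [h3, add_sub_cancel_right]
  refine Zi.sum _ (fun k _ => ?_)
  have h4 := ((Zi.nat (j.choose (k + 1))).mul ((Zi.int b).pow (k + 1 + 2))).mul (Zi_four k)
  convert h4 using 1
  push_cast
  ring

/-- one term -/
theorem termD (n : ℕ) (hn : 2 ≤ n) (N : ℕ) (hN : N % 2 = 1) (a : ℤ) (ha : a % 4 = 1) :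
    Zi (((4 * N : ℚ) ^ (n - 1) / n * (Polynomial.bernoulli n).eval ((a : ℚ) / (4 * N)) -
      (Polynomial.bernoulli 1).eval ((a : ℚ) / (4 * N))) / (4 * ((n : ℚ) - 1)) -
      (-1 / (16 * N * n) + N / 12)) := by
  obtain ⟨j, rfl⟩ : ∃ j, n = j + 2 := ⟨n - 2, by omega⟩
  obtain ⟨b, hb⟩ : ∃ b : ℤ, a = 1 + 4 * b := ⟨a / 4, by omega⟩
  have hNq : (N : ℚ) ≠ 0 := by
    intro e; have : N = 0 := by exact_mod_cast e
    omega
  have hj2 : ((j : ℚ) + 2) ≠ 0 := by positivity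
  have hj1 : ((j : ℚ) + 1) ≠ 0 := by positivity
  have haq : (a : ℚ) = 1 + 4 * b := by rw [hb]; push_cast; ring
  have hs := bern_sum (4 * N) (by omega) (j + 2) (by omega) a
  -- the tail
  have hT : Zi ((∑ k ∈ range (j + 2 - 1), ((j + 2).choose (k + 2) : ℚ) / ((j + 2 : ℕ) : ℚ) * bernoulli (k + 2) *
        ((4 * N : ℕ) : ℚ) ^ (k + 2 - 1) * (a : ℚ) ^ (j + 2 - (k + 2))) / (4 * ((j : ℚ) + 1)) - N / 12) := by
    have h1 : (∑ k ∈ range (j + 2 - 1), ((j + 2).choose (k + 2) : ℚ) / ((j + 2 : ℕ) : ℚ) * bernoulli (k + 2) *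
        ((4 * N : ℕ) : ℚ) ^ (k + 2 - 1) * (a : ℚ) ^ (j + 2 - (k + 2))) / (4 * ((j : ℚ) + 1)) =
        ∑ k ∈ range (j + 1), (j.choose k : ℚ) * (4 : ℚ) ^ k * (N : ℚ) ^ (k + 1) * bernoulli (k + 2) *
          (a : ℚ) ^ (j - k) / (((k : ℚ) + 2) * ((k : ℚ) + 1)) := by
      rw [Finset.sum_div]
      refine Finset.sum_congr rfl (fun k _ => ?_)
      have e1 : ((k : ℚ) + 2) ≠ 0 := by positivity
      have e2 : ((k : ℚ) + 1) ≠ 0 := by positivity
      have h4 := choose_two j k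
      simp only [show k + 2 - 1 = k + 1 by omega, show j + 2 - (k + 2) = j - k by omega]
      push_cast
      rw [mul_pow, show (4 : ℚ) ^ (k + 1) = 4 * 4 ^ k by rw [pow_succ]; ring]
      rw [div_eq_div_iff (by positivity) (by positivity)]
      field_simp
      linear_combination (bernoulli (k + 2) * (a : ℚ) ^ (j - k)) * h4
    rw [h1, Finset.sum_range_succ']
    have hB2 : bernoulli (0 + 2) = 1 / 6 := by
      rw [zero_add, bernoulli_two]; norm_num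
    have h3 : (j.choose 0 : ℚ) * (4 : ℚ) ^ 0 * (N : ℚ) ^ (0 + 1) * bernoulli (0 + 2) *
          (a : ℚ) ^ (j - 0) / ((((0 : ℕ) : ℚ) + 2) * (((0 : ℕ) : ℚ) + 1)) = N * (a : ℚ) ^ j / 12 := by
      rw [hB2]
      simp
      ring
    have h5 : Zi ((N : ℚ) * (a : ℚ) ^ j / 12 - N / 12) := by
      obtain ⟨c, hc⟩ : ∃ c : ℤ, a ^ j = 1 + 4 * c := by
        have h6 : ∀ i : ℕ, a ^ i % 4 = 1 := by
          intro i
          induction i with
          | zero => simp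
          | succ i ih => rw [pow_succ, Int.mul_emod, ih, ha]; norm_num
        have h6' := h6 j
        exact ⟨a ^ j / 4, by omega⟩
      have hc' : (a : ℚ) ^ j = 1 + 4 * c := by exact_mod_cast hc
      have h6 := ((Zi.nat N).mul (Zi.int c)).mul (Zi.inv_odd (m := 3) (by norm_num))
      convert h6 using 1
      rw [hc']
      push_cast
      ring
    have h6 : Zi (∑ k ∈ range j, (j.choose (k + 1) : ℚ) * (4 : ℚ) ^ (k + 1) * (N : ℚ) ^ (k + 1 + 1) *
        bernoulli (k + 1 + 2) * (a : ℚ) ^ (j - (k + 1)) / (((((k + 1 : ℕ) : ℚ)) + 2) * ((((k + 1 : ℕ) : ℚ)) + 1))) := by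
      refine Zi.sum _ (fun k _ => ?_)
      rcases Nat.eq_zero_or_pos k with hk | hk
      · subst hk
        have hB3 : bernoulli (0 + 1 + 2) = 0 := by
          rw [show 0 + 1 + 2 = 3 by norm_num]
          exact bernoulli_eq_zero_of_odd (by decide) (by norm_num)
        rw [hB3]
        simpa using Zi.int 0
      · obtain ⟨i, rfl⟩ : ∃ i, k = i + 1 := ⟨k - 1, by omega⟩
        have h7 := ((((Zi.nat (j.choose (i + 1 + 1))).mul ((Zi.nat N).pow (i + 1 + 1 + 1))).mul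
          (Zi_bernoulli (i + 1 + 1 + 2))).mul ((Zi.int a).pow (j - (i + 1 + 1)))).mul (Zi_four' i)
        convert h7 using 1
        push_cast
        rw [show i + 1 + 1 = i + 2 by omega]
        field_simp
        ring
    rw [h3]
    have h7 := h6.add h5
    convert h7 using 1
    push_cast
    ring
  -- the main part
  have hA := (pow_second j a b hb).mul (Zi.inv_odd hN)
  have hR : Rd (((a : ℚ) ^ (j + 1) - 1) / (4 * ((j + 1 : ℕ) : ℚ)) - b) 0 := by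
    have h1 := (Rd_pow_sub (j + 1) (by omega) a b hb).sub (Rd.int b)
    rwa [CharTwo.add_self_eq_zero] at h1
  have hR2 := Zi_half_of_zero hR
  have hC : Zi (((b : ℚ) ^ 2 / N - b) / 2) := by
    obtain ⟨c, hc⟩ : ∃ c : ℤ, b ^ 2 - b = 2 * c := by
      have : Even (b ^ 2 - b) := by
        have : b ^ 2 - b = b * (b - 1) := by ring
        rw [this]
        exact Int.even_mul_pred_self b
      obtain ⟨c, hc⟩ := this
      exact ⟨c, by omega⟩
    obtain ⟨m, hm⟩ : ∃ m : ℕ, N = 2 * m + 1 := ⟨N / 2, by omega⟩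
    have hc' : (b : ℚ) ^ 2 - b = 2 * c := by exact_mod_cast hc
    have hm' : (N : ℚ) = 2 * m + 1 := by exact_mod_cast hm
    have h1 := (Zi.int c).sub (((Zi.int b).pow 2).mul ((Zi.nat m).mul (Zi.inv_odd hN)))
    convert h1 using 1
    field_simp
    linear_combination (N : ℚ) * hc' - (b : ℚ) ^ 2 * hm'
  have hfin := ((hA.sub hR2).add hC).add hT
  convert hfin using 1
  have hB1 : (Polynomial.bernoulli 1).eval ((a : ℚ) / (4 * N)) = (a : ℚ) / (4 * N) - 1 / 2 := by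
    simp [Polynomial.bernoulli_one]
  rw [← hs, hB1]
  simp only [show j + 2 - 1 = j + 1 by omega]
  push_cast
  generalize (Polynomial.bernoulli (j + 2)).eval ((a : ℚ) / (4 * (N : ℚ))) = X
  rw [haq]
  have e3 : ((j : ℚ) + 2 - 1) = j + 1 := by ring
  rw [e3]
  field_simp
  ring

/-- the product of the local factors -/
private def PP (ℓ : ι → ℕ) (S : Finset ι) (a : ℤ) : ℚ :=
  ∏ i ∈ S, ((if (ℓ i : ℤ) ∣ a then 0 else 1) - (jacobiSym a (ℓ i) : ℚ))

omit [DecidableEq ι] in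
private theorem PP_int (ℓ : ι → ℕ) (hℓ : ∀ i, (ℓ i).Prime ∧ ℓ i % 2 = 1) (S : Finset ι) (a : ℤ) :
    Zi (PP ℓ S a / 2 ^ S.card) := by
  have e : PP ℓ S a / 2 ^ S.card =
      ∏ i ∈ S, (((if (ℓ i : ℤ) ∣ a then 0 else 1) - (jacobiSym a (ℓ i) : ℚ)) / 2) := by
    unfold PP
    rw [Finset.prod_div_distrib, Finset.prod_const]
  rw [e]
  refine Zi.prod _ (fun i _ => ?_)
  have : Fact (ℓ i).Prime := ⟨(hℓ i).1⟩
  by_cases hd : (ℓ i : ℤ) ∣ a
  · have h0 : jacobiSym a (ℓ i) = 0 := by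
      rw [← jacobiSym.legendreSym.to_jacobiSym, legendreSym.eq_zero_iff]
      exact (ZMod.intCast_zmod_eq_zero_iff_dvd _ _).2 hd
    rw [if_pos hd, h0]
    simpa using Zi.int 0
  · rw [if_neg hd]
    have h0 : ((a : ℤ) : ZMod (ℓ i)) ≠ 0 := fun h => hd ((ZMod.intCast_zmod_eq_zero_iff_dvd _ _).1 h)
    rcases legendreSym.eq_one_or_neg_one (ℓ i) h0 with h | h
    · rw [← jacobiSym.legendreSym.to_jacobiSym, h]
      simpa using Zi.int 0
    · rw [← jacobiSym.legendreSym.to_jacobiSym, h]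
      have := Zi.int 1
      convert this using 1
      norm_num

omit [DecidableEq ι] in
private theorem PP_per (ℓ : ι → ℕ) (i : ι) (a : ℤ) :
    ((if (ℓ i : ℤ) ∣ a + (ℓ i : ℤ) then 0 else 1) - (jacobiSym (a + (ℓ i : ℤ)) (ℓ i) : ℚ)) =
    ((if (ℓ i : ℤ) ∣ a then 0 else 1) - (jacobiSym a (ℓ i) : ℚ)) := by
  have h1 : (ℓ i : ℤ) ∣ a + (ℓ i : ℤ) ↔ (ℓ i : ℤ) ∣ a := by
    constructor
    · intro h; simpa using dvd_sub h (dvd_refl (ℓ i : ℤ))
    · intro h; exact dvd_add h (dvd_refl _)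
  have h2 : jacobiSym (a + (ℓ i : ℤ)) (ℓ i) = jacobiSym a (ℓ i) := by
    rw [jacobiSym.mod_left (a + (ℓ i : ℤ)), jacobiSym.mod_left a, Int.add_emod_right]
  rw [h2]
  simp only [h1]

private theorem count (M : ℕ) (hM : 1 ≤ M) (h : ℤ → ℚ) (hh : ∀ a : ℤ, h (a + M) = h a) (ℓ : ι → ℕ)
    (hℓ : ∀ i, (ℓ i).Prime ∧ ℓ i % 2 = 1)
    (hinj : Function.Injective ℓ) (hco : ∀ i, Nat.Coprime (ℓ i) M) (S : Finset ι) :
    ∑ a ∈ range (M * NN ℓ S), h a * PP ℓ S a =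
      (∑ a ∈ range M, h a) * ∏ i ∈ S, ((ℓ i : ℚ) - 1) := by
  unfold PP
  rw [crt_sum M hM h hh ℓ (fun i => (hℓ i).1) hinj hco S
    (fun i a => ((if (ℓ i : ℤ) ∣ a then 0 else 1) - (jacobiSym a (ℓ i) : ℚ)))
    (fun i a => PP_per ℓ i a)]
  congr 1
  exact Finset.prod_congr rfl (fun i _ => sum_prime (ℓ i) (hℓ i).1 (hℓ i).2)

omit [DecidableEq ι] in
private theorem NN_odd (ℓ : ι → ℕ) (hℓ : ∀ i, (ℓ i).Prime ∧ ℓ i % 2 = 1) (S : Finset ι) :
    NN ℓ S % 2 = 1 := by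
  rw [← Nat.odd_iff]
  unfold NN
  exact Finset.prod_induction _ Odd (fun a b ha hb => ha.mul hb) (by decide)
    (fun i _ => Nat.odd_iff.2 (hℓ i).2)

omit [DecidableEq ι] in
private theorem cop4 (ℓ : ι → ℕ) (hℓ : ∀ i, (ℓ i).Prime ∧ ℓ i % 2 = 1) (k : ℕ) (i : ι) :
    Nat.Coprime (ℓ i) (2 ^ k) := by
  apply Nat.Coprime.pow_right
  rw [Nat.coprime_comm, Nat.coprime_two_left]
  exact Nat.odd_iff.2 (hℓ i).2

theorem estD (n : ℕ) (hn : 2 ≤ n) (ℓ : ι → ℕ) (hℓ : ∀ i, (ℓ i).Prime ∧ ℓ i % 2 = 1)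
    (hinj : Function.Injective ℓ) (S : Finset ι) :
    Zi (((BB n (4 * NN ℓ S) (fun a => if a % 4 = 1 then
        (wt 4 a : ℚ) * ∏ i ∈ S, ((if (ℓ i : ℤ) ∣ a then 0 else 1) - (jacobiSym a (ℓ i) : ℚ))
        else 0) - BB 1 (4 * NN ℓ S) (fun a => if a % 4 = 1 then
        (wt 4 a : ℚ) * ∏ i ∈ S, ((if (ℓ i : ℤ) ∣ a then 0 else 1) - (jacobiSym a (ℓ i) : ℚ))
        else 0)) / (4 * ((n : ℚ) - 1)) - (-1 / (16 * NN ℓ S * n) + NN ℓ S / 12) *
          ∏ i ∈ S, ((ℓ i : ℚ) - 1)) / 2 ^ S.card) := by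
  have hN := NN_odd ℓ hℓ S
  set N := NN ℓ S with hNdef
  set h : ℤ → ℚ := fun a => if a % 4 = 1 then 1 else 0 with hh
  have hper : ∀ a : ℤ, h (a + (4 : ℕ)) = h a := by
    intro a
    simp only [hh]
    have : (a + ((4 : ℕ) : ℤ)) % 4 = a % 4 := by omega
    rw [this]
  have hc := count 4 (by norm_num) h hper ℓ hℓ hinj (cop4 ℓ hℓ 2) S
  have hs : ∑ a ∈ range 4, h a = 1 := by
    simp only [hh, Finset.sum_range_succ, Finset.sum_range_zero]
    norm_num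
  rw [hs, one_mul, ← hNdef] at hc
  rw [← hc, Finset.mul_sum]
  unfold BB
  rw [Finset.mul_sum, Finset.mul_sum, ← Finset.sum_sub_distrib, Finset.sum_div, ← Finset.sum_sub_distrib,
    Finset.sum_div]
  refine Zi.sum _ (fun a _ => ?_)
  by_cases h4 : (a : ℤ) % 4 = 1
  · have hw : wt 4 (a : ℤ) = 1 := by simp [wt]
    simp only [hh, if_pos h4, hw]
    have := (termD n hn N hN (a : ℤ) h4).mul (PP_int ℓ hℓ S (a : ℤ))
    convert this using 1
    unfold PP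
    push_cast
    simp only [pow_zero]
    ring
  · simp only [hh, if_neg h4]
    simpa using Zi.int 0

/-- the trivial zero -/
theorem XX_one_zero (N : ℕ) (hN : N % 8 = 7) : XX 1 4 N = 0 := by
  have hNodd : Odd N := Nat.odd_iff.2 (by omega)
  have hN1 : 1 ≤ N := by omega
  set h : ℤ → ℚ := fun a => (jacobiSym a N : ℚ) with hh
  have hper : ∀ a : ℤ, h (a + N) = h a := by
    intro a
    simp only [hh]
    rw [jacobiSym.mod_left (a + (N : ℤ)), jacobiSym.mod_left a, Int.add_emod_right]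
  have h2 : jacobiSym 2 N = 1 := by
    rw [jacobiSym.at_two hNodd, ZMod.χ₈_nat_eq_if_mod_eight]
    simp [hN]
    omega
  have hm1 : jacobiSym (-1) N = -1 := by
    rw [jacobiSym.at_neg_one hNodd, ZMod.χ₄_nat_three_mod_four (by omega)]
  have hp := BB_prime 1 N 2 le_rfl hN1 (by norm_num) h hper
  have hd : BB 1 N (fun a => h (((2 : ℕ) : ℤ) * a)) = BB 1 N h := by
    apply BB_congr
    intro a _
    simp only [hh]
    rw [Nat.cast_ofNat, jacobiSym.mul_left, h2, one_mul]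
  rw [hd] at hp
  simp only [Nat.sub_self, pow_zero, one_mul, sub_self] at hp
  set g2 : ℤ → ℚ := fun a => if (((2 : ℕ) : ℤ)) ∣ a then 0 else h a with hg2
  have hper2 : ∀ a : ℤ, g2 (a + ((N * 2 : ℕ) : ℤ)) = g2 a := by
    intro a
    have e1 : h (a + ((N * 2 : ℕ) : ℤ)) = h a := by
      have : a + ((N * 2 : ℕ) : ℤ) = a + N + N := by push_cast; ring
      rw [this, hper, hper]
    have e2 : (((2 : ℕ) : ℤ)) ∣ a + ((N * 2 : ℕ) : ℤ) ↔ (((2 : ℕ) : ℤ)) ∣ a := by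
      push_cast
      omega
    simp only [hg2, e1, e2]
  have hl := BB_level 1 (N * 2) 2 le_rfl (by omega) (by norm_num) g2 hper2
  rw [hp] at hl
  set gA : ℤ → ℚ := fun a => if a % 4 = 1 then h a else 0 with hgA
  have hperA : ∀ a : ℤ, gA (a + ((N * 2 * 2 : ℕ) : ℤ)) = gA a := by
    intro a
    have e1 : h (a + ((N * 2 * 2 : ℕ) : ℤ)) = h a := by
      have : a + ((N * 2 * 2 : ℕ) : ℤ) = a + N + N + N + N := by push_cast; ring
      rw [this, hper, hper, hper, hper]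
    have e2 : (a + ((N * 2 * 2 : ℕ) : ℤ)) % 4 = a % 4 := by
      push_cast
      omega
    simp only [hgA, e1, e2]
  have hneg := BB_neg 1 (N * 2 * 2) le_rfl (by omega) gA hperA (by simp [hgA])
  have hsum : BB 1 (N * 2 * 2) g2 = BB 1 (N * 2 * 2) gA + (-1) * BB 1 (N * 2 * 2) (fun a => gA (-a)) := by
    rw [← BB_smul, ← BB_add]
    apply BB_congr
    intro a _
    have e3 : h (-(a : ℤ)) = - h a := by
      simp only [hh]
      rw [show -(a : ℤ) = (-1) * a by ring, jacobiSym.mul_left, hm1]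
      push_cast
      ring
    simp only [hg2, hgA, e3]
    have hcases : (a : ℤ) % 4 = 0 ∨ (a : ℤ) % 4 = 1 ∨ (a : ℤ) % 4 = 2 ∨ (a : ℤ) % 4 = 3 := by omega
    rcases hcases with c | c | c | c
    · rw [if_pos (by push_cast; omega), if_neg (by omega), if_neg (by omega)]; simp
    · rw [if_neg (by push_cast; omega), if_pos c, if_neg (by omega)]; simp
    · rw [if_pos (by push_cast; omega), if_neg (by omega), if_neg (by omega)]; simp
    · rw [if_neg (by push_cast; omega), if_neg (by omega), if_pos (by omega)]; simp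
  rw [hl, hneg] at hsum
  have hX : XX 1 4 N = BB 1 (N * 2 * 2) gA := by
    unfold XX
    rw [show 4 * N = N * 2 * 2 by ring]
    apply BB_congr
    intro a _
    simp only [hgA, hh, wt]
    norm_num
  rw [hX]
  linarith

end Pool.Agent.TZB
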