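import Pool.Agent.TZB.RD

set_option autoImplicit false

/-! EST: the estimates of the sums over `{a : (a / l) = -1 for all l}`. -/

namespace Pool.Agent.TZB

open Finset

variable {ι : Type*} [DecidableEq ι]

private theorem per_mod (g : ℤ → ℚ) (M : ℕ) (hg : ∀ a : ℤ, g (a + M) = g a) (a : ℕ) :
    g ((a % M : ℕ) : ℤ) = g a := by
  have hp : Function.Periodic g (M : ℤ) := hg
  have h1 := hp.int_mul (a / M : ℕ) ((a % M : ℕ) : ℤ)
  rw [← h1]
  congr 1
  have h2 := Nat.mod_add_div a M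
  calc ((a % M : ℕ) : ℤ) + ((a / M : ℕ) : ℤ) * M = ((a % M + M * (a / M) : ℕ) : ℤ) := by
        push_cast; ring
    _ = a := by rw [h2]

private theorem two_sum (M l : ℕ) (hM : 1 ≤ M) (hl : 1 ≤ l) (hco : Nat.Coprime M l) (g f : ℤ → ℚ)
    (hg : ∀ a : ℤ, g (a + M) = g a) (hf : ∀ a : ℤ, f (a + l) = f a) :
    ∑ a ∈ range (M * l), g a * f a = (∑ a ∈ range M, g a) * ∑ a ∈ range l, f a := by
  rw [Finset.sum_mul_sum, ← Finset.sum_product']
  refine Finset.sum_nbij' (fun a => (a % M, a % l))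
    (fun p => (Nat.chineseRemainder hco p.1 p.2 : ℕ)) ?_ ?_ ?_ ?_ ?_
  · intro a _
    rw [Finset.mem_product]
    exact ⟨Finset.mem_range.2 (Nat.mod_lt _ hM), Finset.mem_range.2 (Nat.mod_lt _ hl)⟩
  · intro p hp
    exact Finset.mem_range.2 (Nat.chineseRemainder_lt_mul hco p.1 p.2 (by omega) (by omega))
  · intro a ha
    have h1 := (Nat.chineseRemainder hco (a % M) (a % l)).2
    have h2 : ((Nat.chineseRemainder hco (a % M) (a % l) : ℕ)) ≡ a [MOD M * l] := by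
      rw [← Nat.modEq_and_modEq_iff_modEq_mul hco]
      exact ⟨h1.1.trans (Nat.mod_modEq _ _), h1.2.trans (Nat.mod_modEq _ _)⟩
    exact Nat.ModEq.eq_of_lt_of_lt h2
      (Nat.chineseRemainder_lt_mul hco _ _ (by omega) (by omega)) (Finset.mem_range.1 ha)
  · intro p hp
    rw [Finset.mem_product] at hp
    have h1 := (Nat.chineseRemainder hco p.1 p.2).2
    have e1 : ((Nat.chineseRemainder hco p.1 p.2 : ℕ)) % M = p.1 := by
      have := h1.1
      rw [Nat.ModEq, Nat.mod_eq_of_lt (Finset.mem_range.1 hp.1)] at this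
      exact this
    have e2 : ((Nat.chineseRemainder hco p.1 p.2 : ℕ)) % l = p.2 := by
      have := h1.2
      rw [Nat.ModEq, Nat.mod_eq_of_lt (Finset.mem_range.1 hp.2)] at this
      exact this
    exact Prod.ext e1 e2
  · intro a _
    simp only
    rw [per_mod g M hg a, per_mod f l hf a]

/-- counting by the Chinese remainder theorem -/
theorem crt_sum (M : ℕ) (hM : 1 ≤ M) (h : ℤ → ℚ) (hh : ∀ a : ℤ, h (a + M) = h a) (ℓ : ι → ℕ)
    (hℓ : ∀ i, (ℓ i).Prime) (hinj : Function.Injective ℓ) (hco : ∀ i, Nat.Coprime (ℓ i) M)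
    (S : Finset ι) (f : ι → ℤ → ℚ) (hf : ∀ i, ∀ a : ℤ, f i (a + ℓ i) = f i a) :
    ∑ a ∈ range (M * NN ℓ S), h a * ∏ i ∈ S, f i a =
      (∑ a ∈ range M, h a) * ∏ i ∈ S, ∑ a ∈ range (ℓ i), f i a := by
  induction S using Finset.induction_on with
  | empty => simp [NN]
  | insert i S hi ih =>
    have hNN : NN ℓ (insert i S) = ℓ i * NN ℓ S := by
      unfold NN; rw [Finset.prod_insert hi]
    have hpos : 1 ≤ NN ℓ S := by
      unfold NN; exact Finset.prod_pos (fun j _ => (hℓ j).pos)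
    have hcop : Nat.Coprime (M * NN ℓ S) (ℓ i) := by
      refine Nat.Coprime.mul_left (hco i).symm ?_
      unfold NN
      refine Nat.Coprime.prod_left (fun j hj => ?_)
      rw [Nat.coprime_primes (hℓ j) (hℓ i)]
      intro e
      exact hi (hinj e ▸ hj)
    have hper : ∀ a : ℤ, (fun a : ℤ => h a * ∏ j ∈ S, f j a) (a + (M * NN ℓ S : ℕ)) =
        (fun a : ℤ => h a * ∏ j ∈ S, f j a) a := by
      intro a
      simp only
      congr 1
      · have hp : Function.Periodic h (M : ℤ) := hh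
        have := hp.int_mul (NN ℓ S) a
        rw [← this]
        congr 1
        push_cast
        ring
      · refine Finset.prod_congr rfl (fun j hj => ?_)
        have hp : Function.Periodic (f j) (ℓ j : ℤ) := hf j
        obtain ⟨c, hc⟩ : ℓ j ∣ NN ℓ S := Finset.dvd_prod_of_mem _ hj
        have := hp.int_mul (M * c) a
        rw [← this]
        congr 1
        rw [hc]
        push_cast
        ring
    rw [hNN, Finset.prod_insert hi]
    have e1 : M * (ℓ i * NN ℓ S) = (M * NN ℓ S) * ℓ i := by ring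
    rw [e1]
    have key := two_sum (M * NN ℓ S) (ℓ i) (Nat.mul_pos hM hpos) (hℓ i).pos hcop
      (fun a : ℤ => h a * ∏ j ∈ S, f j a) (f i) hper (hf i)
    rw [show (∑ a ∈ range (M * NN ℓ S * ℓ i), h a * ∏ j ∈ insert i S, f j a) =
        ∑ a ∈ range (M * NN ℓ S * ℓ i), (fun a : ℤ => h a * ∏ j ∈ S, f j a) (a : ℤ) * f i a from
      Finset.sum_congr rfl (fun a _ => by
        simp only
        rw [Finset.prod_insert hi]; ring), key, ih]
    ring

/-- `sum_{a mod l} ([l not | a] - (a/l)) = l - 1` -/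
theorem sum_prime (l : ℕ) (hl : l.Prime) (h2 : l % 2 = 1) :
    ∑ a ∈ range l, ((if (l : ℤ) ∣ (a : ℤ) then 0 else 1) - (jacobiSym (a : ℤ) l : ℚ)) = l - 1 := by
  have : Fact l.Prime := ⟨hl⟩
  rw [Finset.sum_sub_distrib]
  have h1 : ∑ a ∈ range l, ((if (l : ℤ) ∣ (a : ℤ) then 0 else 1 : ℚ)) = l - 1 := by
    have : ∀ a ∈ range l, (if (l : ℤ) ∣ (a : ℤ) then 0 else 1 : ℚ) = 1 - if a = 0 then 1 else 0 := by
      intro a ha
      by_cases h0 : a = 0
      · subst h0; simp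
      · have : ¬ (l : ℤ) ∣ (a : ℤ) := by
          intro hd
          have hd' : l ∣ a := by exact_mod_cast hd
          exact absurd (Nat.le_of_dvd (Nat.pos_of_ne_zero h0) hd') (by
            have := Finset.mem_range.1 ha; omega)
        simp [this, h0]
    rw [Finset.sum_congr rfl this, Finset.sum_sub_distrib]
    simp [hl.pos]
  have h3 : ∑ a ∈ range l, (jacobiSym (a : ℤ) l : ℚ) = 0 := by
    have hchar : ringChar (ZMod l) ≠ 2 := by
      rw [ZMod.ringChar_zmod_n]; intro e; omega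
    have hs := quadraticChar_sum_zero hchar
    have : ∑ a ∈ range l, (jacobiSym (a : ℤ) l : ℤ) = ∑ a : ZMod l, quadraticChar (ZMod l) a := by
      refine Finset.sum_bij' (fun a _ => (a : ZMod l)) (fun z _ => z.val) ?_ ?_ ?_ ?_ ?_
      · intro a _; exact Finset.mem_univ _
      · intro z _; exact Finset.mem_range.2 (ZMod.val_lt z)
      · intro a ha; exact ZMod.val_cast_of_lt (Finset.mem_range.1 ha)
      · intro z _; exact ZMod.natCast_zmod_val z
      · intro a _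
        rw [← jacobiSym.legendreSym.to_jacobiSym, legendreSym]
        simp
    rw [hs] at this
    exact_mod_cast this
  rw [h1, h3, sub_zero]

/-- a term of the Bernoulli polynomial -/
private theorem tail_int (m : ℕ) (hm : m % 4 = 0) (hm0 : 0 < m) (n k : ℕ) (hk : 2 ≤ k) (hkn : k ≤ n)
    (a : ℤ) :
    Zi ((n.choose k : ℚ) / n * bernoulli k * (m : ℚ) ^ (k - 1) * (a : ℚ) ^ (n - k)) := by
  obtain ⟨q, rfl⟩ : ∃ q, m = 4 * q := ⟨m / 4, by omega⟩
  have hch : (n.choose k : ℚ) / n = ((n - 1).choose (k - 1) : ℚ) / k := by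
    obtain ⟨n', rfl⟩ : ∃ n', n = n' + 1 := ⟨n - 1, by omega⟩
    obtain ⟨k', rfl⟩ : ∃ k', k = k' + 1 := ⟨k - 1, by omega⟩
    have := Nat.add_one_mul_choose_eq n' k'
    have h2 : ((n' + 1 : ℕ) : ℚ) * (n'.choose k' : ℚ) = ((n' + 1).choose (k' + 1) : ℚ) *
      ((k' + 1 : ℕ) : ℚ) := by exact_mod_cast this
    have h3 : ((n' + 1 : ℕ) : ℚ) ≠ 0 := by positivity
    have h4 : ((k' + 1 : ℕ) : ℚ) ≠ 0 := by positivity
    simp only [Nat.add_sub_cancel]
    field_simp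
    linarith
  obtain ⟨j, rfl⟩ : ∃ j, k = j + 2 := ⟨k - 2, by omega⟩
  have e : (n.choose (j + 2) : ℚ) / n * bernoulli (j + 2) * ((4 * q : ℕ) : ℚ) ^ (j + 2 - 1) *
      (a : ℚ) ^ (n - (j + 2)) = (((n - 1).choose (j + 2 - 1) : ℕ) : ℚ) * (2 * bernoulli (j + 2)) *
      ((2 : ℚ) ^ (j + 2 - 1) / ((j + 2 : ℕ) : ℚ)) * (((2 ^ j * q ^ (j + 1) : ℕ) : ℚ)) *
      (a : ℚ) ^ (n - (j + 2)) := by
    rw [hch]
    have h4 : ((j + 2 : ℕ) : ℚ) ≠ 0 := by positivity
    simp only [show j + 2 - 1 = j + 1 by omega]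
    push_cast
    field_simp
    rw [show (4 * (q : ℚ)) ^ (j + 1) = 2 ^ (j + 1) * 2 ^ (j + 1) * (q : ℚ) ^ (j + 1) by
      rw [← mul_pow, ← mul_pow]; norm_num]
    ring
  rw [e]
  exact ((((Zi.nat _).mul (Zi_bernoulli _)).mul (Zi_pow_div _ (by omega))).mul (Zi.nat _)).mul
    ((Zi.int a).pow _)

private theorem bern_expand (m : ℕ) (hm : m % 4 = 0) (hm0 : 0 < m) (n : ℕ) (hn : 1 ≤ n) (a : ℤ) :
    Zi ((m : ℚ) ^ (n - 1) / n * (Polynomial.bernoulli n).eval ((a : ℚ) / m) -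
      ((a : ℚ) ^ n / (m * n) - (a : ℚ) ^ (n - 1) / 2)) := by
  have hmq : (m : ℚ) ≠ 0 := by exact_mod_cast hm0.ne'
  have hnq : (n : ℚ) ≠ 0 := by exact_mod_cast (by omega : n ≠ 0)
  have hev : (Polynomial.bernoulli n).eval ((a : ℚ) / m) =
      ∑ k ∈ range (n + 1), bernoulli k * (n.choose k : ℚ) * ((a : ℚ) / m) ^ (n - k) := by
    rw [Polynomial.bernoulli, Polynomial.eval_finsetSum]
    refine Finset.sum_congr rfl (fun k _ => ?_)
    rw [Polynomial.eval_monomial]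
  have hsum : (m : ℚ) ^ (n - 1) / n * (Polynomial.bernoulli n).eval ((a : ℚ) / m) -
      ((a : ℚ) ^ n / (m * n) - (a : ℚ) ^ (n - 1) / 2) =
      ∑ k ∈ range (n - 1), (n.choose (k + 2) : ℚ) / n * bernoulli (k + 2) *
        (m : ℚ) ^ (k + 2 - 1) * (a : ℚ) ^ (n - (k + 2)) := by
    rw [hev]
    obtain ⟨n', rfl⟩ : ∃ n', n = n' + 1 := ⟨n - 1, by omega⟩
    rw [Finset.sum_range_succ', Finset.sum_range_succ', mul_add, mul_add, Finset.mul_sum]
    simp only [Nat.add_sub_cancel]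
    have e : ∀ k ∈ range n', (m : ℚ) ^ n' / ((n' + 1 : ℕ) : ℚ) *
        (bernoulli (k + 1 + 1) * ((n' + 1).choose (k + 1 + 1) : ℚ) *
          ((a : ℚ) / m) ^ (n' + 1 - (k + 1 + 1))) =
        ((n' + 1).choose (k + 2) : ℚ) / ((n' + 1 : ℕ) : ℚ) * bernoulli (k + 2) *
        (m : ℚ) ^ (k + 2 - 1) * (a : ℚ) ^ (n' + 1 - (k + 2)) := by
      intro k hk
      have hk' : k < n' := Finset.mem_range.1 hk
      rw [div_pow]
      have e1 : (m : ℚ) ^ n' = (m : ℚ) ^ (k + 1) * (m : ℚ) ^ (n' + 1 - (k + 2)) := by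
        rw [← pow_add]; congr 1; omega
      simp only [show k + 1 + 1 = k + 2 by omega, show k + 2 - 1 = k + 1 by omega]
      rw [e1]
      field_simp
    rw [Finset.sum_congr rfl e]
    have e2 : (m : ℚ) ^ n' / ((n' + 1 : ℕ) : ℚ) * (bernoulli (0 + 1) *
        ((n' + 1).choose (0 + 1) : ℚ) * ((a : ℚ) / m) ^ n') = - ((a : ℚ) ^ n' / 2) := by
      have : bernoulli (0 + 1) = -1 / 2 := bernoulli_one
      rw [this]
      simp only [Nat.choose_one_right, zero_add]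
      rw [div_pow]
      field_simp
    have e3 : (m : ℚ) ^ n' / ((n' + 1 : ℕ) : ℚ) * (bernoulli 0 *
        ((n' + 1).choose 0 : ℚ) * ((a : ℚ) / m) ^ (n' + 1 - 0)) =
        (a : ℚ) ^ (n' + 1) / (m * ((n' + 1 : ℕ) : ℚ)) := by
      simp only [bernoulli_zero, Nat.choose_zero_right, Nat.sub_zero, Nat.cast_one, one_mul]
      rw [div_pow, pow_succ (m : ℚ)]
      field_simp
    rw [e2, e3]
    ring
  rw [hsum]
  refine Zi.sum _ (fun k hk => ?_)
  have hk' := Finset.mem_range.1 hk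
  exact tail_int m hm hm0 n (k + 2) (by omega) (by omega) a

private theorem Zi_half_of_zero {x : ℚ} (h : Rd x 0) : Zi (x / 2) := by
  obtain ⟨z, hz, hc⟩ := h
  have h1 : z ∈ RingHom.ker (PadicInt.toZMod (p := 2)) := hc
  rw [PadicInt.ker_toZMod, PadicInt.maximalIdeal_eq_span_p, Ideal.mem_span_singleton] at h1
  obtain ⟨w, hw⟩ := h1
  refine ⟨w, ?_⟩
  have : (x : ℚ_[2]) = 2 * (w : ℚ_[2]) := by
    rw [← hz, hw, PadicInt.coe_mul, PadicInt.coe_natCast]
    norm_num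
  push_cast
  rw [this]; ring

private theorem odd_pow_half (a : ℤ) (ha : a % 4 = 1) (k : ℕ) : Zi (((a : ℚ) ^ k - 1) / 2) := by
  have h1 : Odd (a ^ k) := by
    apply Odd.pow
    exact Int.odd_iff.2 (by omega)
  obtain ⟨c, hc⟩ := h1
  have : ((a : ℚ) ^ k - 1) / 2 = (c : ℚ) := by
    have : (a : ℚ) ^ k = 2 * c + 1 := by exact_mod_cast hc
    rw [this]; ring
  rw [this]
  exact Zi.int c

/-- one term at level 4 -/
theorem term4 (n : ℕ) (hn : 1 ≤ n) (N : ℕ) (hN : N % 2 = 1) (a : ℤ) (ha : a % 4 = 1) :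
    Zi ((4 * N : ℚ) ^ (n - 1) / n * (Polynomial.bernoulli n).eval ((a : ℚ) / (4 * N)) -
      (1 / (4 * N * n) - 1 / 2)) := by
  have h1 := bern_expand (4 * N) (by omega) (by omega) n hn a
  have hNq : (N : ℚ) ≠ 0 := by
    intro e; have : N = 0 := by exact_mod_cast e
    omega
  have hnq : (n : ℚ) ≠ 0 := by exact_mod_cast (by omega : n ≠ 0)
  obtain ⟨b, hb⟩ : ∃ b : ℤ, a = 1 + 4 * b := ⟨a / 4, by omega⟩
  have h2 := (Rd_pow_sub n hn a b hb).zi
  have h3 := h2.mul (Zi.inv_odd hN)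
  have h4 := odd_pow_half a ha (n - 1)
  have h5 := (h1.add h3).sub h4
  convert h5 using 1
  push_cast
  field_simp
  ring

/-- one term at level 8 -/
theorem term8 (n : ℕ) (hn : 1 ≤ n) (N : ℕ) (hN : N % 2 = 1) (a : ℤ) (ha : a % 4 = 1) :
    Zi ((8 * N : ℚ) ^ (n - 1) / n * (Polynomial.bernoulli n).eval ((a : ℚ) / (8 * N)) -
      (1 / (8 * N * n) - 1 / 2 + (if a % 8 = 5 then 1 / 2 else 0))) := by
  have h1 := bern_expand (8 * N) (by omega) (by omega) n hn a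
  have hNq : (N : ℚ) ≠ 0 := by
    intro e; have : N = 0 := by exact_mod_cast e
    omega
  have hnq : (n : ℚ) ≠ 0 := by exact_mod_cast (by omega : n ≠ 0)
  obtain ⟨b, hb⟩ : ∃ b : ℤ, a = 1 + 4 * b := ⟨a / 4, by omega⟩
  have hR1 : Rd (N : ℚ) 1 := by
    have := Rd.nat N
    rwa [(ZMod.natCast_eq_one_iff_odd).2 (Nat.odd_iff.2 hN)] at this
  have h2 := (Rd_pow_sub n hn a b hb).mul hR1.inv_odd
  rw [mul_one] at h2
  have h4 := odd_pow_half a ha (n - 1)
  by_cases h8 : a % 8 = 5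
  · have hb1 : (b : ZMod 2) = 1 := by
      have : (b : ZMod 2) = ((1 : ℤ) : ZMod 2) := by
        rw [ZMod.intCast_eq_intCast_iff]
        unfold Int.ModEq; omega
      rw [this]; simp
    rw [hb1] at h2
    have h6 := h2.sub (Rd.int 1)
    have h7 : Rd (((a : ℚ) ^ n - 1) / (4 * n) * (N : ℚ)⁻¹ - ((1 : ℤ) : ℚ)) 0 := by
      convert h6 using 1
      rw [Int.cast_one]; decide
    have h5 := (h1.add (Zi_half_of_zero h7)).sub h4
    convert h5 using 1
    rw [if_pos h8]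
    push_cast
    field_simp
    ring
  · have hb1 : (b : ZMod 2) = 0 := by
      have : (b : ZMod 2) = ((0 : ℤ) : ZMod 2) := by
        rw [ZMod.intCast_eq_intCast_iff]
        unfold Int.ModEq; omega
      rw [this]; simp
    rw [hb1] at h2
    have h5 := (h1.add (Zi_half_of_zero h2)).sub h4
    convert h5 using 1
    rw [if_neg h8]
    push_cast
    field_simp
    ring

/-- the product of the local factors -/
private def PP (ℓ : ι → ℕ) (S : Finset ι) (a : ℤ) : ℚ :=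
  ∏ i ∈ S, ((if (ℓ i : ℤ) ∣ a then 0 else 1) - (jacobiSym a (ℓ i) : ℚ))

omit [DecidableEq ι] in
private theorem PP_int (ℓ : ι → ℕ) (hℓ : ∀ i, (ℓ i).Prime ∧ ℓ i % 2 = 1) (S : Finset ι) (a : ℤ) :
    Zi (PP ℓ S a / 2 ^ S.card) := by
  have e : PP ℓ S a / 2 ^ S.card =
      ∏ i ∈ S, (((if (ℓ i : ℤ) ∣ a then 0 else 1) - (jacobiSym a (ℓ i) : ℚ)) / 2) := by
    unfold PP
    rw [Finset.prod_div_distrib, Finset.prod_const]
  rw [e]
  refine Zi.prod _ (fun i _ => ?_)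
  have : Fact (ℓ i).Prime := ⟨(hℓ i).1⟩
  by_cases hd : (ℓ i : ℤ) ∣ a
  · have h0 : jacobiSym a (ℓ i) = 0 := by
      rw [← jacobiSym.legendreSym.to_jacobiSym, legendreSym.eq_zero_iff]
      exact (ZMod.intCast_zmod_eq_zero_iff_dvd _ _).2 hd
    rw [if_pos hd, h0]
    simpa using Zi.int 0
  · rw [if_neg hd]
    have h0 : ((a : ℤ) : ZMod (ℓ i)) ≠ 0 := fun h => hd ((ZMod.intCast_zmod_eq_zero_iff_dvd _ _).1 h)
    rcases legendreSym.eq_one_or_neg_one (ℓ i) h0 with h | h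
    · rw [← jacobiSym.legendreSym.to_jacobiSym, h]
      simpa using Zi.int 0
    · rw [← jacobiSym.legendreSym.to_jacobiSym, h]
      have := Zi.int 1
      convert this using 1
      norm_num

omit [DecidableEq ι] in
private theorem PP_per (ℓ : ι → ℕ) (i : ι) (a : ℤ) :
    ((if (ℓ i : ℤ) ∣ a + (ℓ i : ℤ) then 0 else 1) - (jacobiSym (a + (ℓ i : ℤ)) (ℓ i) : ℚ)) =
    ((if (ℓ i : ℤ) ∣ a then 0 else 1) - (jacobiSym a (ℓ i) : ℚ)) := by
  have h1 : (ℓ i : ℤ) ∣ a + (ℓ i : ℤ) ↔ (ℓ i : ℤ) ∣ a := by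
    constructor
    · intro h; simpa using dvd_sub h (dvd_refl (ℓ i : ℤ))
    · intro h; exact dvd_add h (dvd_refl _)
  have h2 : jacobiSym (a + (ℓ i : ℤ)) (ℓ i) = jacobiSym a (ℓ i) := by
    rw [jacobiSym.mod_left (a + (ℓ i : ℤ)), jacobiSym.mod_left a, Int.add_emod_right]
  rw [h2]
  simp only [h1]

private theorem count (M : ℕ) (hM : 1 ≤ M) (h : ℤ → ℚ) (hh : ∀ a : ℤ, h (a + M) = h a) (ℓ : ι → ℕ)
    (hℓ : ∀ i, (ℓ i).Prime ∧ ℓ i % 2 = 1)
    (hinj : Function.Injective ℓ) (hco : ∀ i, Nat.Coprime (ℓ i) M) (S : Finset ι) :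
    ∑ a ∈ range (M * NN ℓ S), h a * PP ℓ S a =
      (∑ a ∈ range M, h a) * ∏ i ∈ S, ((ℓ i : ℚ) - 1) := by
  unfold PP
  rw [crt_sum M hM h hh ℓ (fun i => (hℓ i).1) hinj hco S
    (fun i a => ((if (ℓ i : ℤ) ∣ a then 0 else 1) - (jacobiSym a (ℓ i) : ℚ)))
    (fun i a => PP_per ℓ i a)]
  congr 1
  exact Finset.prod_congr rfl (fun i _ => sum_prime (ℓ i) (hℓ i).1 (hℓ i).2)

omit [DecidableEq ι] in
private theorem NN_odd (ℓ : ι → ℕ) (hℓ : ∀ i, (ℓ i).Prime ∧ ℓ i % 2 = 1) (S : Finset ι) :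
    NN ℓ S % 2 = 1 := by
  rw [← Nat.odd_iff]
  unfold NN
  exact Finset.prod_induction _ Odd (fun a b ha hb => ha.mul hb) (by decide)
    (fun i _ => Nat.odd_iff.2 (hℓ i).2)

omit [DecidableEq ι] in
private theorem cop4 (ℓ : ι → ℕ) (hℓ : ∀ i, (ℓ i).Prime ∧ ℓ i % 2 = 1) (k : ℕ) (i : ι) :
    Nat.Coprime (ℓ i) (2 ^ k) := by
  apply Nat.Coprime.pow_right
  rw [Nat.coprime_comm, Nat.coprime_two_left]
  exact Nat.odd_iff.2 (hℓ i).2

theorem est4 (n : ℕ) (hn : 1 ≤ n) (ℓ : ι → ℕ) (hℓ : ∀ i, (ℓ i).Prime ∧ ℓ i % 2 = 1)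
    (hinj : Function.Injective ℓ) (S : Finset ι) :
    Zi ((BB n (4 * NN ℓ S) (fun a => if a % 4 = 1 then
        (wt 4 a : ℚ) * ∏ i ∈ S, ((if (ℓ i : ℤ) ∣ a then 0 else 1) - (jacobiSym a (ℓ i) : ℚ))
        else 0) - (1 / (4 * NN ℓ S * n) - 1 / 2) * ∏ i ∈ S, ((ℓ i : ℚ) - 1)) / 2 ^ S.card) := by
  have hN := NN_odd ℓ hℓ S
  set N := NN ℓ S with hNdef
  set h : ℤ → ℚ := fun a => if a % 4 = 1 then 1 else 0 with hh
  have hper : ∀ a : ℤ, h (a + (4 : ℕ)) = h a := by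
    intro a
    simp only [hh]
    have : (a + ((4 : ℕ) : ℤ)) % 4 = a % 4 := by omega
    rw [this]
  have hc := count 4 (by norm_num) h hper ℓ hℓ hinj (cop4 ℓ hℓ 2) S
  have hs : ∑ a ∈ range 4, h a = 1 := by
    simp only [hh, Finset.sum_range_succ, Finset.sum_range_zero]
    norm_num
  rw [hs, one_mul, ← hNdef] at hc
  rw [← hc, Finset.mul_sum]
  unfold BB
  rw [Finset.mul_sum, ← Finset.sum_sub_distrib, Finset.sum_div]
  refine Zi.sum _ (fun a _ => ?_)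
  by_cases h4 : (a : ℤ) % 4 = 1
  · have hw : wt 4 (a : ℤ) = 1 := by simp [wt]
    simp only [hh, if_pos h4, hw]
    have := (term4 n hn N hN (a : ℤ) h4).mul (PP_int ℓ hℓ S (a : ℤ))
    convert this using 1
    unfold PP
    push_cast
    ring
  · simp only [hh, if_neg h4]
    simpa using Zi.int 0

theorem est8 (n : ℕ) (hn : 1 ≤ n) (ℓ : ι → ℕ) (hℓ : ∀ i, (ℓ i).Prime ∧ ℓ i % 2 = 1)
    (hinj : Function.Injective ℓ) (S : Finset ι) :
    Zi ((BB n (8 * NN ℓ S) (fun a => if a % 4 = 1 then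
        (wt 8 a : ℚ) * ∏ i ∈ S, ((if (ℓ i : ℤ) ∣ a then 0 else 1) - (jacobiSym a (ℓ i) : ℚ))
        else 0) + 1 / 2 * ∏ i ∈ S, ((ℓ i : ℚ) - 1)) / 2 ^ S.card) := by
  have hN := NN_odd ℓ hℓ S
  set N := NN ℓ S with hNdef
  set h : ℤ → ℚ := fun a => if a % 8 = 1 then (1 / (8 * N * n) - 1 / 2) else
    if a % 8 = 5 then -(1 / (8 * N * n)) else 0 with hh
  have hper : ∀ a : ℤ, h (a + (8 : ℕ)) = h a := by
    intro a
    simp only [hh]
    have : (a + ((8 : ℕ) : ℤ)) % 8 = a % 8 := by omega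
    rw [this]
  have hc := count 8 (by norm_num) h hper ℓ hℓ hinj (cop4 ℓ hℓ 3) S
  have hs : ∑ a ∈ range 8, h a = -(1 / 2) := by
    simp [hh, Finset.sum_range_succ]
    ring
  rw [hs, ← hNdef] at hc
  have hc' : 1 / 2 * ∏ i ∈ S, ((ℓ i : ℚ) - 1) = - ∑ a ∈ range (8 * N), h a * PP ℓ S a := by
    rw [hc]; ring
  rw [hc']
  unfold BB
  rw [Finset.mul_sum, ← sub_eq_add_neg, ← Finset.sum_sub_distrib, Finset.sum_div]
  refine Zi.sum _ (fun a _ => ?_)
  have hw : ∀ b : ℤ, b % 8 = (a : ℤ) % 8 → wt 8 (a : ℤ) = ZMod.χ₈ (b : ZMod 8) := by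
    intro b hb
    have : ((a : ℤ) : ZMod 8) = (b : ZMod 8) := by
      rw [ZMod.intCast_eq_intCast_iff]; exact hb.symm
    unfold wt
    rw [if_pos rfl, this]
  by_cases h4 : (a : ℤ) % 4 = 1
  · have hT := (term8 n hn N hN (a : ℤ) h4).mul (PP_int ℓ hℓ S (a : ℤ))
    by_cases h5 : (a : ℤ) % 8 = 5
    · have hw5 : wt 8 (a : ℤ) = -1 := by
        rw [hw 5 (by omega)]; decide
      have h1 : ¬ (a : ℤ) % 8 = 1 := by omega
      simp only [hh, if_pos h4, hw5, if_pos h5, if_neg h1]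
      rw [if_pos h5] at hT
      convert hT.neg using 1
      unfold PP
      push_cast
      ring
    · have h1 : (a : ℤ) % 8 = 1 := by omega
      have hw1 : wt 8 (a : ℤ) = 1 := by
        rw [hw 1 (by omega)]; decide
      simp only [hh, if_pos h4, hw1, if_pos h1]
      rw [if_neg h5] at hT
      convert hT using 1
      unfold PP
      push_cast
      ring
  · have h1 : ¬ (a : ℤ) % 8 = 1 := by omega
    have h5 : ¬ (a : ℤ) % 8 = 5 := by omega
    simp only [hh, if_neg h4, if_neg h1, if_neg h5]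
    simpa using Zi.int 0

end Pool.Agent.TZB
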