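import Pool.Agent.TZB.DIS

set_option autoImplicit false

/-! EUL: Euler factors of the imprimitive sums; the key identity. -/

namespace Pool.Agent.TZB

open Finset

variable {ι : Type*} [DecidableEq ι]

private theorem wt_mul (c : ℕ) (a b : ℤ) : wt c (a * b) = wt c a * wt c b := by
  unfold wt
  split_ifs with h
  · push_cast; rw [map_mul]
  · rw [one_mul]

private theorem wt_neg (c : ℕ) (a : ℤ) : wt c (-a) = wt c a := by
  unfold wt
  split_ifs with h
  · push_cast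
    generalize ((a : ℤ) : ZMod 8) = x
    revert x; decide
  · rfl

private theorem wt_add (c m : ℕ) (a : ℤ) (hm : c ∣ m) : wt c (a + m) = wt c a := by
  unfold wt
  split_ifs with h
  · subst h
    congr 1
    push_cast
    rw [(ZMod.natCast_eq_zero_iff m 8).2 hm, add_zero]
  · rfl

private theorem jac_add (N m : ℕ) (a : ℤ) (hm : N ∣ m) : jacobiSym (a + m) N = jacobiSym a N := by
  apply jacobiSym.mod_left'
  obtain ⟨k, rfl⟩ := hm
  push_cast
  rw [Int.add_mul_emod_self_left]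

/-- the imprimitive function -/
private noncomputable def GG (c N : ℕ) (ℓ : ι → ℕ) (S : Finset ι) (a : ℤ) : ℚ :=
  if a % 4 = 1 ∧ ∀ i ∈ S, ¬ (ℓ i : ℤ) ∣ a then ((wt c a * jacobiSym a N : ℤ) : ℚ) else 0

private theorem GG_per (c : ℕ) (hc : c = 4 ∨ c = 8) (N : ℕ) (ℓ : ι → ℕ) (S : Finset ι) (a : ℤ) :
    GG c N ℓ S (a + (c * (N * NN ℓ S) : ℕ)) = GG c N ℓ S a := by
  have h4 : (4 : ℤ) ∣ ((c * (N * NN ℓ S) : ℕ) : ℤ) := by
    have : 4 ∣ c * (N * NN ℓ S) := Dvd.dvd.mul_right (by rcases hc with h | h <;> rw [h] <;> norm_num) _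
    exact_mod_cast this
  have hi : ∀ i ∈ S, ((ℓ i : ℤ) ∣ a + ((c * (N * NN ℓ S) : ℕ) : ℤ) ↔ (ℓ i : ℤ) ∣ a) := by
    intro i hi
    have h1 : (ℓ i : ℤ) ∣ ((c * (N * NN ℓ S) : ℕ) : ℤ) := by
      have h2 : ℓ i ∣ NN ℓ S := Finset.dvd_prod_of_mem ℓ hi
      exact_mod_cast (h2.mul_left N).mul_left c
    exact (Int.dvd_add_left h1)
  have hm : (a + ((c * (N * NN ℓ S) : ℕ) : ℤ)) % 4 = a % 4 := by
    obtain ⟨k, hk⟩ := h4
    rw [hk]; omega
  have hiff : ((a + ((c * (N * NN ℓ S) : ℕ) : ℤ)) % 4 = 1 ∧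
      ∀ i ∈ S, ¬ (ℓ i : ℤ) ∣ (a + ((c * (N * NN ℓ S) : ℕ) : ℤ))) ↔
      (a % 4 = 1 ∧ ∀ i ∈ S, ¬ (ℓ i : ℤ) ∣ a) := by
    rw [hm]
    constructor
    · rintro ⟨h, h'⟩; exact ⟨h, fun i hiS hd => h' i hiS ((hi i hiS).2 hd)⟩
    · rintro ⟨h, h'⟩; exact ⟨h, fun i hiS hd => h' i hiS ((hi i hiS).1 hd)⟩
  unfold GG
  rw [if_congr hiff rfl rfl, wt_add c _ a (Dvd.intro _ rfl),
    jac_add N _ a ((Dvd.intro _ rfl : N ∣ N * NN ℓ S).mul_left c)]

private theorem GG_zero (c N : ℕ) (ℓ : ι → ℕ) (S : Finset ι) : GG c N ℓ S 0 = 0 := by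
  unfold GG
  rw [if_neg]
  rintro ⟨h, _⟩
  norm_num at h

private theorem sq_neg_one (N : ℕ) : jacobiSym (-1) N * jacobiSym (-1) N = 1 := by
  rw [← jacobiSym.mul_left]
  norm_num

private theorem dvd_mul_iff (p l : ℕ) (hp : p.Prime) (hl : l.Prime) (hne : p ≠ l) (a : ℤ) :
    (p : ℤ) ∣ (l : ℤ) * a ↔ (p : ℤ) ∣ a := by
  have hpi : Prime (p : ℤ) := Nat.prime_iff_prime_int.1 hp
  constructor
  · intro h
    rcases hpi.dvd_or_dvd h with h | h
    · exact absurd ((Nat.prime_dvd_prime_iff_eq hp hl).1 (Int.natCast_dvd_natCast.1 h)) hne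
    · exact h
  · exact fun h => h.mul_left _

/-- imprimitive sums -/
theorem imp (n c : ℕ) (hn : 1 ≤ n) (hc : c = 4 ∨ c = 8) (N : ℕ) (hN : N % 2 = 1) (ℓ : ι → ℕ)
    (hℓ : ∀ i, (ℓ i).Prime ∧ ℓ i % 2 = 1) (hinj : Function.Injective ℓ) (S : Finset ι)
    (hS : ∀ i ∈ S, ¬ ℓ i ∣ N) :
    BB n (c * (N * NN ℓ S)) (fun a => if a % 4 = 1 ∧ ∀ i ∈ S, ¬ (ℓ i : ℤ) ∣ a then
      ((wt c a * jacobiSym a N : ℤ) : ℚ) else 0) = XX n c N * ∏ i ∈ S, EE n c (ℓ i) N := by
  change BB n (c * (N * NN ℓ S)) (GG c N ℓ S) = _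
  induction S using Finset.induction_on with
  | empty =>
    have e1 : c * (N * NN ℓ ∅) = c * N := by simp [NN]
    rw [e1, Finset.prod_empty, mul_one, XX]
    refine BB_congr _ _ _ _ fun a _ => ?_
    simp [GG]
  | insert i S hi ih =>
    have ih' := ih fun j hj => hS j (Finset.mem_insert_of_mem hj)
    have hl := (hℓ i).1
    have hc0 : 1 ≤ c := by rcases hc with h | h <;> omega
    have hNN : 1 ≤ NN ℓ S := Finset.prod_pos fun j _ => (hℓ j).1.pos
    have hM : 1 ≤ c * (N * NN ℓ S) := by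
      have : 1 ≤ N := by omega
      exact Nat.mul_pos hc0 (Nat.mul_pos this hNN)
    have e1 : c * (N * NN ℓ (insert i S)) = c * (N * NN ℓ S) * ℓ i := by
      rw [NN, Finset.prod_insert hi, NN]; ring
    have e2 : BB n (c * (N * NN ℓ (insert i S))) (GG c N ℓ (insert i S)) =
        BB n (c * (N * NN ℓ S) * ℓ i) (fun a => if (ℓ i : ℤ) ∣ a then 0 else GG c N ℓ S a) := by
      rw [e1]
      refine BB_congr _ _ _ _ fun a _ => ?_
      unfold GG
      by_cases hd : (ℓ i : ℤ) ∣ (a : ℤ)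
      · rw [if_pos hd, if_neg]
        rintro ⟨_, h⟩
        exact h i (Finset.mem_insert_self i S) hd
      · rw [if_neg hd]
        refine if_congr ?_ rfl rfl
        constructor
        · rintro ⟨h, h'⟩; exact ⟨h, fun j hj => h' j (Finset.mem_insert_of_mem hj)⟩
        · rintro ⟨h, h'⟩
          refine ⟨h, fun j hj => ?_⟩
          rcases Finset.mem_insert.1 hj with rfl | hj
          · exact hd
          · exact h' j hj
    rw [e2, BB_prime n _ (ℓ i) hn hM hl.one_lt.le (GG c N ℓ S) (GG_per c hc N ℓ S)]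
    -- the contribution of the multiples of the prime
    have hdv : ∀ a : ℤ, ∀ j ∈ S, ((ℓ j : ℤ) ∣ (ℓ i : ℤ) * a ↔ (ℓ j : ℤ) ∣ a) := by
      intro a j hj
      refine dvd_mul_iff (ℓ j) (ℓ i) (hℓ j).1 hl ?_ a
      intro h
      exact hi (hinj h ▸ hj)
    have e3 : BB n (c * (N * NN ℓ S)) (fun a => GG c N ℓ S ((ℓ i : ℤ) * a)) =
        ((wt c (ℓ i) : ℤ) : ℚ) * (jacobiSym (star (ℓ i)) N : ℚ) *
          (if ℓ i % 4 = 3 then (-1 : ℚ) ^ n else 1) * BB n (c * (N * NN ℓ S)) (GG c N ℓ S) := by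
      by_cases h3 : ℓ i % 4 = 3
      · rw [if_pos h3]
        have e4 : ∀ a : ℤ, GG c N ℓ S ((ℓ i : ℤ) * a) =
            ((wt c (ℓ i) : ℤ) : ℚ) * (jacobiSym (star (ℓ i)) N : ℚ) * GG c N ℓ S (-a) := by
          intro a
          unfold GG
          have hiff : (((ℓ i : ℤ) * a) % 4 = 1 ∧ ∀ j ∈ S, ¬ (ℓ j : ℤ) ∣ (ℓ i : ℤ) * a) ↔
              ((-a) % 4 = 1 ∧ ∀ j ∈ S, ¬ (ℓ j : ℤ) ∣ -a) := by
            have h5 : ((ℓ i : ℤ) * a) % 4 = 1 ↔ (-a) % 4 = 1 := by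
              have h6 : (ℓ i : ℤ) % 4 = 3 := by exact_mod_cast h3
              rw [Int.mul_emod, h6]
              omega
            rw [h5]
            refine and_congr_right fun _ => forall₂_congr fun j hj => ?_
            rw [hdv a j hj, dvd_neg]
          rw [if_congr hiff rfl rfl]
          by_cases h : ((-a) % 4 = 1 ∧ ∀ j ∈ S, ¬ (ℓ j : ℤ) ∣ -a)
          · rw [if_pos h, if_pos h, wt_mul, jacobiSym.mul_left]
            have h7 : jacobiSym (star (ℓ i)) N = jacobiSym (-1) N * jacobiSym (ℓ i) N := by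
              rw [star, if_pos h3, ← jacobiSym.mul_left]
              congr 1; ring
            have h8 : jacobiSym (-a) N = jacobiSym (-1) N * jacobiSym a N := by
              rw [← jacobiSym.mul_left]
              congr 1; ring
            have h9 := sq_neg_one N
            rw [h7, h8, wt_neg]
            have h10 : wt c (ℓ i) * wt c a * (jacobiSym (ℓ i) N * jacobiSym a N) =
                wt c (ℓ i) * (jacobiSym (-1) N * jacobiSym (ℓ i) N) *
                (wt c a * (jacobiSym (-1) N * jacobiSym a N)) := by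
              linear_combination (-(wt c (ℓ i) * jacobiSym (ℓ i) N * wt c a * jacobiSym a N)) * h9
            rw [h10]
            push_cast
            ring
          · rw [if_neg h, if_neg h, mul_zero]
        have e5 : BB n (c * (N * NN ℓ S)) (fun a => GG c N ℓ S ((ℓ i : ℤ) * a)) =
            BB n (c * (N * NN ℓ S)) (fun a => ((wt c (ℓ i) : ℤ) : ℚ) *
              (jacobiSym (star (ℓ i)) N : ℚ) * GG c N ℓ S (-a)) :=
          BB_congr _ _ _ _ fun a _ => e4 a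
        rw [e5, BB_smul n _ (((wt c (ℓ i) : ℤ) : ℚ) * (jacobiSym (star (ℓ i)) N : ℚ))
          (fun a => GG c N ℓ S (-a)), BB_neg n _ hn hM _ (GG_per c hc N ℓ S) (GG_zero c N ℓ S)]
        ring
      · rw [if_neg h3, mul_one]
        have h1 : ℓ i % 4 = 1 := by have := (hℓ i).2; omega
        have e4 : ∀ a : ℤ, GG c N ℓ S ((ℓ i : ℤ) * a) =
            ((wt c (ℓ i) : ℤ) : ℚ) * (jacobiSym (star (ℓ i)) N : ℚ) * GG c N ℓ S a := by
          intro a
          unfold GG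
          have hiff : (((ℓ i : ℤ) * a) % 4 = 1 ∧ ∀ j ∈ S, ¬ (ℓ j : ℤ) ∣ (ℓ i : ℤ) * a) ↔
              (a % 4 = 1 ∧ ∀ j ∈ S, ¬ (ℓ j : ℤ) ∣ a) := by
            have h5 : ((ℓ i : ℤ) * a) % 4 = 1 ↔ a % 4 = 1 := by
              have h6 : (ℓ i : ℤ) % 4 = 1 := by exact_mod_cast h1
              rw [Int.mul_emod, h6]
              omega
            rw [h5]
            refine and_congr_right fun _ => forall₂_congr fun j hj => ?_
            rw [hdv a j hj]
          rw [if_congr hiff rfl rfl]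
          by_cases h : (a % 4 = 1 ∧ ∀ j ∈ S, ¬ (ℓ j : ℤ) ∣ a)
          · rw [if_pos h, if_pos h, wt_mul, jacobiSym.mul_left, star, if_neg h3]
            push_cast
            ring
          · rw [if_neg h, if_neg h, mul_zero]
        have e5 : BB n (c * (N * NN ℓ S)) (fun a => GG c N ℓ S ((ℓ i : ℤ) * a)) =
            BB n (c * (N * NN ℓ S)) (fun a => ((wt c (ℓ i) : ℤ) : ℚ) *
              (jacobiSym (star (ℓ i)) N : ℚ) * GG c N ℓ S a) :=
          BB_congr _ _ _ _ fun a _ => e4 a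
        rw [e5, BB_smul]
    rw [e3, ih', Finset.prod_insert hi]
    have e6 : EE n c (ℓ i) N = 1 - (ℓ i : ℚ) ^ (n - 1) * (((wt c (ℓ i) : ℤ) : ℚ) *
        (jacobiSym (star (ℓ i)) N : ℚ) * (if ℓ i % 4 = 3 then (-1 : ℚ) ^ n else 1)) := by
      rw [EE]
      by_cases h3 : ℓ i % 4 = 3
      · obtain ⟨m, rfl⟩ : ∃ m, n = m + 1 := ⟨n - 1, by omega⟩
        simp only [sgs, star, if_pos h3, Nat.add_sub_cancel]
        push_cast
        rw [neg_pow (ℓ i : ℚ) m, pow_succ]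
        ring
      · simp only [sgs, star, if_neg h3]
        push_cast
        ring
    rw [e6]
    ring

private theorem jac_NN' (a : ℤ) (ℓ : ι → ℕ) (hℓ : ∀ i, (ℓ i).Prime ∧ ℓ i % 2 = 1) (D : Finset ι) :
    jacobiSym a (NN ℓ D) = ∏ j ∈ D, jacobiSym a (ℓ j) := by
  unfold NN
  induction D using Finset.induction_on with
  | empty => simp
  | insert b D hb ih =>
    rw [prod_insert hb, prod_insert hb, jacobiSym.mul_right' _ (hℓ b).1.ne_zero
      (Finset.prod_ne_zero_iff.2 fun j _ => (hℓ j).1.ne_zero), ih]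

private theorem NN_odd' (ℓ : ι → ℕ) (hℓ : ∀ i, (ℓ i).Prime ∧ ℓ i % 2 = 1) (D : Finset ι) :
    NN ℓ D % 2 = 1 := by
  unfold NN
  induction D using Finset.induction_on with
  | empty => simp
  | insert a D ha ih => rw [prod_insert ha, Nat.mul_mod, ih, (hℓ a).2]

/-- the key identity -/
theorem key (n c : ℕ) (hn : 1 ≤ n) (hc : c = 4 ∨ c = 8) (ℓ : ι → ℕ)
    (hℓ : ∀ i, (ℓ i).Prime ∧ ℓ i % 2 = 1) (hinj : Function.Injective ℓ) (S : Finset ι) :
    ∑ D ∈ S.powerset, (-1 : ℚ) ^ D.card * (XX n c (NN ℓ D) * ∏ i ∈ S \ D, EE n c (ℓ i) (NN ℓ D)) =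
      BB n (c * NN ℓ S) (fun a => if a % 4 = 1 then
        (wt c a : ℚ) * ∏ i ∈ S, ((if (ℓ i : ℤ) ∣ a then 0 else 1) - (jacobiSym a (ℓ i) : ℚ))
        else 0) := by
  have e1 : ∀ a : ℤ, (if a % 4 = 1 then
        (wt c a : ℚ) * ∏ i ∈ S, ((if (ℓ i : ℤ) ∣ a then 0 else 1) - (jacobiSym a (ℓ i) : ℚ))
        else 0) = ∑ D ∈ S.powerset, (-1 : ℚ) ^ D.card * GG c (NN ℓ D) ℓ (S \ D) a := by
    intro a
    by_cases ha : a % 4 = 1
    · rw [if_pos ha]
      have e2 : ∏ i ∈ S, ((if (ℓ i : ℤ) ∣ a then 0 else 1) - (jacobiSym a (ℓ i) : ℚ)) =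
          ∑ D ∈ S.powerset, (∏ i ∈ D, (-(jacobiSym a (ℓ i) : ℚ))) *
            ∏ i ∈ S \ D, (if (ℓ i : ℤ) ∣ a then (0 : ℚ) else 1) := by
        rw [← Finset.prod_add]
        refine Finset.prod_congr rfl fun i _ => by ring
      rw [e2, Finset.mul_sum]
      refine Finset.sum_congr rfl fun D _ => ?_
      have e3 : ∏ i ∈ D, (-(jacobiSym a (ℓ i) : ℚ)) = (-1 : ℚ) ^ D.card * (jacobiSym a (NN ℓ D) : ℚ) := by
        rw [jac_NN' a ℓ hℓ D, Finset.prod_neg]
        push_cast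
        rfl
      rw [e3]
      unfold GG
      by_cases h : ∀ i ∈ S \ D, ¬ (ℓ i : ℤ) ∣ a
      · rw [if_pos ⟨ha, h⟩]
        have e4 : ∏ i ∈ S \ D, (if (ℓ i : ℤ) ∣ a then (0 : ℚ) else 1) = 1 :=
          Finset.prod_eq_one fun i hi => if_neg (h i hi)
        rw [e4]
        push_cast
        ring
      · rw [if_neg (fun h' => h h'.2)]
        push Not at h
        obtain ⟨i, hi, hd⟩ := h
        have e4 : ∏ i ∈ S \ D, (if (ℓ i : ℤ) ∣ a then (0 : ℚ) else 1) = 0 :=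
          Finset.prod_eq_zero hi (if_pos hd)
        rw [e4, mul_zero, mul_zero, mul_zero]
    · rw [if_neg ha]
      refine (Finset.sum_eq_zero fun D _ => ?_).symm
      unfold GG
      rw [if_neg (fun h => ha h.1), mul_zero]
  rw [BB_congr _ _ _ (fun a => ∑ D ∈ S.powerset, (-1 : ℚ) ^ D.card * GG c (NN ℓ D) ℓ (S \ D) a)
    (fun a _ => e1 a), BB_sum n _ S.powerset
      (fun D a => (-1 : ℚ) ^ D.card * GG c (NN ℓ D) ℓ (S \ D) a)]
  refine Finset.sum_congr rfl fun D hD => ?_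
  rw [Finset.mem_powerset] at hD
  rw [BB_smul]
  congr 1
  have hlev : c * NN ℓ S = c * (NN ℓ D * NN ℓ (S \ D)) := by
    congr 1
    rw [NN, NN, NN, mul_comm, Finset.prod_sdiff hD]
  have := imp n c hn hc (NN ℓ D) (NN_odd' ℓ hℓ D) ℓ hℓ hinj (S \ D) ?_
  · rw [hlev, ← this]
    rfl
  · intro i hi hdvd
    rw [NN, (hℓ i).1.prime.dvd_finsetProd_iff] at hdvd
    obtain ⟨j, hj, hd⟩ := hdvd
    have := (Nat.prime_dvd_prime_iff_eq (hℓ i).1 (hℓ j).1).1 hd
    rw [hinj this] at hi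
    exact (Finset.mem_sdiff.1 hi).2 hj

end Pool.Agent.TZB
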