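import Pool.Agent.TZB.RD

set_option autoImplicit false

/-! EXI: 2-adic interpolation. -/

namespace Pool.Agent.TZB

open Finset Filter Topology PadicInt

private theorem bsm : IsBoundedSMul ℤ_[2] ℚ_[2] := by
  refine IsBoundedSMul.of_norm_smul_le fun r x => ?_
  rw [Algebra.smul_def, norm_mul]
  exact le_of_eq rfl

private theorem tend0 (c : ℕ → ℚ) (h : ∀ k, Zi (2 * c k / 2 ^ k)) :
    Tendsto (fun k => ((c k : ℚ) : ℚ_[2])) atTop (𝓝 0) := by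
  refine squeeze_zero_norm (a := fun k : ℕ => (2 : ℝ) * (1 / 2) ^ k) (fun k => ?_) ?_
  · obtain ⟨z, hz⟩ := h k
    have e : ((c k : ℚ) : ℚ_[2]) = ((2 : ℚ_[2]) ^ k / 2) * (z : ℚ_[2]) := by
      rw [hz]
      push_cast
      field_simp
    have h2 : ‖(2 : ℚ_[2])‖ = 1 / 2 := by
      have := Padic.norm_p (p := 2)
      push_cast at this
      rw [this]; norm_num
    rw [e, norm_mul, norm_div, norm_pow, h2]
    have hz1 : ‖(z : ℚ_[2])‖ ≤ 1 := z.2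
    have h3 : (0 : ℝ) ≤ (1 / 2) ^ k / (1 / 2) := by positivity
    calc (1 / 2 : ℝ) ^ k / (1 / 2) * ‖(z : ℚ_[2])‖ ≤ (1 / 2 : ℝ) ^ k / (1 / 2) * 1 := by gcongr
      _ = 2 * (1 / 2) ^ k := by ring
  · have := (tendsto_pow_atTop_nhds_zero_of_lt_one (r := (1 / 2 : ℝ)) (by norm_num) (by norm_num)).const_mul 2
    simpa using this

private noncomputable def c1 (a : ℕ) (k : ℕ) : ℚ := ((a : ℚ) - 1) ^ (k + 1) / ((k + 1 : ℕ) : ℚ)
private noncomputable def c2 (a : ℕ) (k : ℕ) : ℚ := ((a : ℚ) - 1) ^ k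
private noncomputable def c3 (M a : ℕ) (k : ℕ) : ℚ :=
  bernoulli (k + 1) / ((k + 1 : ℕ) : ℚ) * ((4 * M : ℕ) : ℚ) ^ k * ((a : ℚ)⁻¹) ^ k

private theorem zi1 (a : ℕ) (ha : a % 4 = 1) (k : ℕ) : Zi (2 * c1 a k / 2 ^ k) := by
  obtain ⟨b, rfl⟩ : ∃ b, a = 4 * b + 1 := ⟨a / 4, by omega⟩
  have e : 2 * c1 (4 * b + 1) k / 2 ^ k = ((8 * b ^ (k + 1) : ℕ) : ℚ) * (2 ^ (k + 1 - 1) / ((k + 1 : ℕ) : ℚ)) := by
    rw [c1]
    have h4 : ((k : ℚ) + 1) ≠ 0 := by positivity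
    rw [show k + 1 - 1 = k by omega]
    push_cast
    rw [add_sub_cancel_right, mul_pow]
    have : (4 : ℚ) ^ (k + 1) = 4 * (2 ^ k * 2 ^ k) := by
      rw [← mul_pow, pow_succ]; norm_num; ring
    rw [this]
    field_simp
    ring
  rw [e]
  exact (Zi.nat _).mul (Zi_pow_div _ (by omega))

private theorem zi2 (a : ℕ) (ha : a % 4 = 1) (k : ℕ) : Zi (2 * c2 a k / 2 ^ k) := by
  obtain ⟨b, rfl⟩ : ∃ b, a = 4 * b + 1 := ⟨a / 4, by omega⟩
  have e : 2 * c2 (4 * b + 1) k / 2 ^ k = ((2 * 2 ^ k * b ^ k : ℕ) : ℚ) := by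
    rw [c2]
    push_cast
    rw [add_sub_cancel_right, mul_pow]
    have : (4 : ℚ) ^ k = 2 ^ k * 2 ^ k := by
      rw [← mul_pow]; norm_num
    rw [this]
    field_simp
  rw [e]
  exact Zi.nat _

private theorem zi3 (M a : ℕ) (ha : a % 4 = 1) (k : ℕ) : Zi (2 * c3 M a k / 2 ^ k) := by
  have e : 2 * c3 M a k / 2 ^ k = (2 * bernoulli (k + 1)) * (2 ^ (k + 1 - 1) / ((k + 1 : ℕ) : ℚ)) *
      ((M ^ k : ℕ) : ℚ) * ((a : ℚ)⁻¹) ^ k := by
    rw [c3, show k + 1 - 1 = k by omega]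
    push_cast
    rw [mul_pow]
    have : (4 : ℚ) ^ k = 2 ^ k * 2 ^ k := by
      rw [← mul_pow]; norm_num
    rw [this]
    field_simp
  rw [e]
  exact (((Zi_bernoulli _).mul (Zi_pow_div _ (by omega))).mul (Zi.nat _)).mul
    ((Zi.inv_odd (by omega)).pow _)

private theorem sum1 (a n : ℕ) :
    ∑ i ∈ range (n + 1), (n.choose i : ℚ) * c1 a i = ((a : ℚ) ^ (n + 1) - 1) / ((n + 1 : ℕ) : ℚ) := by
  have h : (a : ℚ) ^ (n + 1) = ∑ i ∈ range (n + 2), ((a : ℚ) - 1) ^ i * ((n + 1).choose i : ℚ) := by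
    have := add_pow ((a : ℚ) - 1) 1 (n + 1)
    simpa using this
  rw [h, Finset.sum_range_succ' _ (n + 1), pow_zero, Nat.choose_zero_right, Nat.cast_one, mul_one,
    add_sub_cancel_right, Finset.sum_div]
  refine Finset.sum_congr rfl fun i _ => ?_
  have h2 := Nat.add_one_mul_choose_eq n i
  have h3 : ((n + 1 : ℕ) : ℚ) * (n.choose i : ℚ) = ((n + 1).choose (i + 1) : ℚ) * ((i + 1 : ℕ) : ℚ) := by
    exact_mod_cast h2
  have h4 : ((n + 1 : ℕ) : ℚ) ≠ 0 := by positivity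
  have h5 : ((i + 1 : ℕ) : ℚ) ≠ 0 := by positivity
  have h6 : (n.choose i : ℚ) = ((n + 1).choose (i + 1) : ℚ) * ((i + 1 : ℕ) : ℚ) / ((n + 1 : ℕ) : ℚ) := by
    rw [eq_div_iff h4, ← h3]; ring
  rw [c1, h6]
  field_simp

private theorem sum2 (a n : ℕ) :
    ∑ i ∈ range (n + 1), (n.choose i : ℚ) * c2 a i = (a : ℚ) ^ n := by
  have := add_pow ((a : ℚ) - 1) 1 n
  simp only [sub_add_cancel, one_pow, mul_one] at this
  rw [this]
  refine Finset.sum_congr rfl fun i _ => ?_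
  rw [c2]; ring

private theorem bern_eq (M : ℕ) (hM : 1 ≤ M) (a : ℕ) (ha : a % 4 = 1) (n : ℕ) :
    ((4 * M : ℕ) : ℚ) ^ n / ((n + 1 : ℕ) : ℚ) *
        (Polynomial.bernoulli (n + 1)).eval ((a : ℚ) / ((4 * M : ℕ) : ℚ)) =
      1 / (((4 * M : ℕ) : ℚ) * ((n + 1 : ℕ) : ℚ)) +
      (1 / ((4 * M : ℕ) : ℚ) * (∑ i ∈ range (n + 1), (n.choose i : ℚ) * c1 a i) +
      (∑ i ∈ range (n + 1), (n.choose i : ℚ) * c2 a i) *
        (∑ i ∈ range (n + 1), (n.choose i : ℚ) * c3 M a i)) := by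
  have hm : ((4 * M : ℕ) : ℚ) ≠ 0 := by
    have : 0 < 4 * M := by omega
    positivity
  have haq : (a : ℚ) ≠ 0 := by
    have : 0 < a := by omega
    positivity
  have hn : ((n + 1 : ℕ) : ℚ) ≠ 0 := by positivity
  rw [sum1, sum2]
  have hev : (Polynomial.bernoulli (n + 1)).eval ((a : ℚ) / ((4 * M : ℕ) : ℚ)) =
      ∑ k ∈ range (n + 2), bernoulli k * ((n + 1).choose k : ℚ) * ((a : ℚ) / ((4 * M : ℕ) : ℚ)) ^ (n + 1 - k) := by
    rw [Polynomial.bernoulli, Polynomial.eval_finsetSum]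
    refine Finset.sum_congr rfl (fun k _ => ?_)
    rw [Polynomial.eval_monomial]
  rw [hev, Finset.sum_range_succ', mul_add]
  have e0 : ((4 * M : ℕ) : ℚ) ^ n / ((n + 1 : ℕ) : ℚ) *
      (bernoulli 0 * ((n + 1).choose 0 : ℚ) * ((a : ℚ) / ((4 * M : ℕ) : ℚ)) ^ (n + 1 - 0)) =
      (a : ℚ) ^ (n + 1) / (((4 * M : ℕ) : ℚ) * ((n + 1 : ℕ) : ℚ)) := by
    simp only [bernoulli_zero, Nat.choose_zero_right, Nat.sub_zero, Nat.cast_one, one_mul]
    rw [div_pow, pow_succ ((4 * M : ℕ) : ℚ)]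
    field_simp
  rw [e0]
  have e1 : ((4 * M : ℕ) : ℚ) ^ n / ((n + 1 : ℕ) : ℚ) * (∑ k ∈ range (n + 1),
      bernoulli (k + 1) * ((n + 1).choose (k + 1) : ℚ) *
        ((a : ℚ) / ((4 * M : ℕ) : ℚ)) ^ (n + 1 - (k + 1))) =
      (a : ℚ) ^ n * ∑ i ∈ range (n + 1), (n.choose i : ℚ) * c3 M a i := by
    rw [Finset.mul_sum, Finset.mul_sum]
    refine Finset.sum_congr rfl fun k hk => ?_
    have hk' : k < n + 1 := Finset.mem_range.1 hk
    have h2 := Nat.add_one_mul_choose_eq n k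
    have h3 : ((n + 1 : ℕ) : ℚ) * (n.choose k : ℚ) = ((n + 1).choose (k + 1) : ℚ) * ((k + 1 : ℕ) : ℚ) := by
      exact_mod_cast h2
    have h5 : ((k + 1 : ℕ) : ℚ) ≠ 0 := by positivity
    have h6 : ((n + 1).choose (k + 1) : ℚ) = ((n + 1 : ℕ) : ℚ) * (n.choose k : ℚ) / ((k + 1 : ℕ) : ℚ) := by
      rw [eq_div_iff h5, ← h3]
    have h7 : n + 1 - (k + 1) = n - k := by omega
    have h8 : ((4 * M : ℕ) : ℚ) ^ n = ((4 * M : ℕ) : ℚ) ^ k * ((4 * M : ℕ) : ℚ) ^ (n - k) := by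
      rw [← pow_add]; congr 1; omega
    have h9 : (a : ℚ) ^ n = (a : ℚ) ^ k * (a : ℚ) ^ (n - k) := by
      rw [← pow_add]; congr 1; omega
    rw [h6, h7, h8, h9, c3, div_pow, inv_pow]
    field_simp
  rw [e1]
  field_simp
  ring

/-- Interpolation of Bernoulli sums of total mass zero. -/
theorem interp (M : ℕ) (hM : 1 ≤ M) (g : ℤ → ℤ) (hg : ∀ a, g a ≠ 0 → a % 4 = 1)
    (h0 : ∑ a ∈ range (4 * M), g a = 0) :
    ∃ f : ℤ_[2] → ℚ_[2], Continuous f ∧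
      ∀ n : ℕ, 1 ≤ n → f n = (BB n (4 * M) (fun a => (g a : ℚ)) : ℚ) := by
  have := bsm
  set S : Finset ℕ := (range (4 * M)).filter fun a => a % 4 = 1 with hS
  let m (c : ℕ → ℚ) : C(ℤ_[2], ℚ_[2]) := mahlerSeries (fun k => ((c k : ℚ) : ℚ_[2]))
  refine ⟨fun s => ∑ a ∈ S, ((g a : ℤ) : ℚ_[2]) *
    (1 / ((4 * M : ℕ) : ℚ_[2]) * m (c1 a) (s - 1) + m (c2 a) (s - 1) * m (c3 M a) (s - 1)), ?_, ?_⟩
  · have hs : Continuous fun s : ℤ_[2] => s - 1 := continuous_id.sub continuous_const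
    have hc : ∀ c : ℕ → ℚ, Continuous fun s : ℤ_[2] => m c (s - 1) := fun c =>
      (m c).continuous.comp hs
    exact continuous_finsetSum _ fun a _ => Continuous.mul continuous_const
      ((Continuous.mul continuous_const (hc _)).add ((hc _).mul (hc _)))
  · intro n hn
    obtain ⟨n, rfl⟩ : ∃ n', n = n' + 1 := ⟨n - 1, by omega⟩
    have hsub : (((n + 1 : ℕ) : ℤ_[2]) - 1) = ((n : ℕ) : ℤ_[2]) := by push_cast; ring
    have hm : ∀ c : ℕ → ℚ, (∀ k, Zi (2 * c k / 2 ^ k)) →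
        m c (((n + 1 : ℕ) : ℤ_[2]) - 1) = ((∑ i ∈ range (n + 1), (n.choose i : ℚ) * c i : ℚ) : ℚ_[2]) := by
      intro c hc
      rw [hsub]
      have h7 : m c ((n : ℕ) : ℤ_[2]) = _ := mahlerSeries_apply_nat (p := 2) (tend0 c hc) (le_refl n)
      rw [h7]
      push_cast
      refine Finset.sum_congr rfl fun i _ => ?_
      rw [nsmul_eq_mul]
    have key : BB (n + 1) (4 * M) (fun a => (g a : ℚ)) = ∑ a ∈ S, (g a : ℚ) *
        (1 / ((4 * M : ℕ) : ℚ) * (∑ i ∈ range (n + 1), (n.choose i : ℚ) * c1 a i) +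
        (∑ i ∈ range (n + 1), (n.choose i : ℚ) * c2 a i) *
        (∑ i ∈ range (n + 1), (n.choose i : ℚ) * c3 M a i)) := by
      have hsum : ∀ F : ℕ → ℚ, ∑ a ∈ range (4 * M), (g a : ℚ) * F a = ∑ a ∈ S, (g a : ℚ) * F a := by
        intro F
        rw [hS, Finset.sum_filter_of_ne]
        intro a _ hne
        have : g a ≠ 0 := by
          intro h; apply hne; rw [h]; simp
        have := hg a this
        omega
      have hz : ∑ a ∈ S, (g a : ℚ) = 0 := by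
        have h1 := hsum (fun _ => 1)
        simp only [mul_one] at h1
        rw [← h1]
        exact_mod_cast h0
      rw [BB, Nat.add_sub_cancel, Finset.mul_sum]
      have e1 : ∀ a ∈ range (4 * M), ((4 * M : ℕ) : ℚ) ^ n / ((n + 1 : ℕ) : ℚ) * ((g a : ℚ) *
          (Polynomial.bernoulli (n + 1)).eval ((a : ℚ) / ((4 * M : ℕ) : ℚ))) =
          (g a : ℚ) * (((4 * M : ℕ) : ℚ) ^ n / ((n + 1 : ℕ) : ℚ) *
          (Polynomial.bernoulli (n + 1)).eval ((a : ℚ) / ((4 * M : ℕ) : ℚ))) := by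
        intro a _; ring
      rw [Finset.sum_congr rfl e1, hsum]
      have e2 : ∀ a ∈ S, (g a : ℚ) * (((4 * M : ℕ) : ℚ) ^ n / ((n + 1 : ℕ) : ℚ) *
          (Polynomial.bernoulli (n + 1)).eval ((a : ℚ) / ((4 * M : ℕ) : ℚ))) =
          (g a : ℚ) * (1 / (((4 * M : ℕ) : ℚ) * ((n + 1 : ℕ) : ℚ))) +
          (g a : ℚ) * (1 / ((4 * M : ℕ) : ℚ) * (∑ i ∈ range (n + 1), (n.choose i : ℚ) * c1 a i) +
          (∑ i ∈ range (n + 1), (n.choose i : ℚ) * c2 a i) *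
          (∑ i ∈ range (n + 1), (n.choose i : ℚ) * c3 M a i)) := by
        intro a ha
        have ha' : a % 4 = 1 := (Finset.mem_filter.1 ha).2
        rw [bern_eq M hM a ha' n]
        ring
      rw [Finset.sum_congr rfl e2, Finset.sum_add_distrib, ← Finset.sum_mul, hz, zero_mul, zero_add]
    rw [key]
    push_cast
    refine Finset.sum_congr rfl fun a ha => ?_
    have ha' : a % 4 = 1 := (Finset.mem_filter.1 ha).2
    have h1 := hm _ (zi1 a ha')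
    have h2 := hm _ (zi2 a ha')
    have h3 := hm _ (zi3 M a ha')
    push_cast at h1 h2 h3
    simp only [h1, h2, h3]

end Pool.Agent.TZB
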