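import Pool.Agent.TZB.DIS

set_option autoImplicit false

/-! LFN: values of the complex L-functions. -/

namespace Pool.Agent.TZB

open Finset

private theorem sum_zmod {β : Type*} [AddCommMonoid β] (M : ℕ) [NeZero M] (f : ℕ → β) :
    ∑ j : ZMod M, f j.val = ∑ a ∈ range M, f a := by
  refine Finset.sum_nbij' (fun j => j.val) (fun a => (a : ZMod M)) ?_ ?_ ?_ ?_ ?_
  · intro j _
    exact mem_range.2 (ZMod.val_lt j)
  · intro a _
    exact mem_univ _
  · intro j _
    exact ZMod.natCast_zmod_val j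
  · intro a ha
    exact ZMod.val_cast_of_lt (mem_range.1 ha)
  · intro j _
    rfl

/-- the L-function of a function on `ZMod M` at `1 - n` -/
theorem LF_BB (M n : ℕ) [NeZero M] (hn : 2 ≤ n) (g : ℤ → ℚ) (hg : ∀ a : ℤ, g (a + M) = g a) :
    ZMod.LFunction (fun a : ZMod M => ((g a.val : ℚ) : ℂ)) (1 - n) = ((-(BB n M g) : ℚ) : ℂ) := by
  obtain ⟨k, rfl⟩ : ∃ k, n = k + 1 := ⟨n - 1, by omega⟩
  have hk : k ≠ 0 := by omega
  have hM0 : (0 : ℝ) < M := Nat.cast_pos.2 (NeZero.pos M)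
  have e1 : (1 - ((k + 1 : ℕ) : ℂ)) = -(k : ℂ) := by push_cast; ring
  rw [e1, ZMod.LFunction]
  have e2 : ∀ j : ZMod M, HurwitzZeta.hurwitzZeta (ZMod.toAddCircle j) (-(k : ℂ)) =
      (((-1 / (k + 1) * (Polynomial.bernoulli (k + 1)).eval ((j.val : ℚ) / M)) : ℚ) : ℂ) := by
    intro j
    have hj : ((j.val : ℝ) / M) ∈ Set.Icc (0 : ℝ) 1 :=
      ⟨by positivity, (div_le_one hM0).2 (Nat.cast_le.2 (ZMod.val_lt j).le)⟩
    have hx : ((((j.val : ℝ) / M : ℝ)) : ℂ) = algebraMap ℚ ℂ ((j.val : ℚ) / M) := by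
      rw [map_div₀, map_natCast, map_natCast, Complex.ofReal_div, Complex.ofReal_natCast,
        Complex.ofReal_natCast]
    rw [ZMod.toAddCircle_apply, HurwitzZeta.hurwitzZeta_neg_nat hk hj, hx, Polynomial.eval_map,
      Polynomial.eval₂_at_apply]
    simp
  have e3 : (M : ℂ) ^ (-(-(k : ℂ))) = (((M : ℚ) ^ k : ℚ) : ℂ) := by
    rw [neg_neg, Complex.cpow_natCast]
    push_cast
    rfl
  rw [e3]
  simp only [e2]
  have e4 := sum_zmod M (fun a : ℕ => ((g a : ℚ) : ℂ) *
    (((-1 / (k + 1) * (Polynomial.bernoulli (k + 1)).eval ((a : ℚ) / M)) : ℚ) : ℂ))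
  rw [e4]
  unfold BB
  rw [show k + 1 - 1 = k by omega]
  have e5 : ∑ a ∈ range M, ((g a : ℚ) : ℂ) *
      (((-1 / (k + 1) * (Polynomial.bernoulli (k + 1)).eval ((a : ℚ) / M)) : ℚ) : ℂ) =
      ((∑ a ∈ range M, g a * (-1 / (k + 1) *
        (Polynomial.bernoulli (k + 1)).eval ((a : ℚ) / M)) : ℚ) : ℂ) := by
    push_cast
    rfl
  rw [e5, ← Rat.cast_mul]
  congr 1
  rw [mul_sum, mul_sum, ← sum_neg_distrib]
  refine sum_congr rfl fun a _ => ?_
  push_cast
  ring

/-- reciprocity in the form used here -/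
private theorem recip (N a : ℕ) (hN : N % 2 = 1) (ha : a % 2 = 1) :
    jacobiSym (N : ℤ) a = if a % 4 = 1 then jacobiSym (a : ℤ) N else jacobiSym (-(a : ℤ)) N := by
  have hNo : Odd N := Nat.odd_iff.2 hN
  have hao : Odd a := Nat.odd_iff.2 ha
  split_ifs with h
  · exact jacobiSym.quadratic_reciprocity_one_mod_four' hNo h
  · have h3 : a % 4 = 3 := by omega
    rw [jacobiSym.neg _ hNo]
    rcases (by omega : N % 4 = 1 ∨ N % 4 = 3) with h1 | h1
    · rw [ZMod.χ₄_nat_one_mod_four h1, one_mul]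
      exact jacobiSym.quadratic_reciprocity_one_mod_four h1 hao
    · rw [ZMod.χ₄_nat_three_mod_four h1, neg_one_mul]
      exact jacobiSym.quadratic_reciprocity_three_mod_four h1 h3

/-- the function of `XX` -/
private def gX (c N : ℕ) : ℤ → ℚ :=
  fun a => if a % 4 = 1 then ((wt c a * jacobiSym a N : ℤ) : ℚ) else 0

private theorem wt_add (c : ℕ) (hc : c = 4 ∨ c = 8) (N : ℕ) (a : ℤ) :
    wt c (a + (c * N : ℕ)) = wt c a := by
  unfold wt
  rcases hc with rfl | rfl
  · simp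
  · simp only [if_true]
    have : (((a + (8 * N : ℕ) : ℤ)) : ZMod 8) = (a : ZMod 8) := by
      push_cast
      have : (8 : ZMod 8) = 0 := by decide
      rw [this]
      ring
    rw [this]

private theorem wt_neg (c : ℕ) (a : ℤ) : wt c (-a) = wt c a := by
  unfold wt
  split_ifs
  · push_cast
    have : ∀ x : ZMod 8, ZMod.χ₈ (-x) = ZMod.χ₈ x := by decide
    rw [this]
  · rfl

private theorem gX_add (c : ℕ) (hc : c = 4 ∨ c = 8) (N : ℕ) (a : ℤ) :
    gX c N (a + (c * N : ℕ)) = gX c N a := by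
  unfold gX
  have h1 : (a + (c * N : ℕ)) % 4 = a % 4 := by
    rcases hc with rfl | rfl
    · push_cast; omega
    · push_cast; omega
  have h2 : jacobiSym (a + (c * N : ℕ)) N = jacobiSym a N := by
    rw [jacobiSym.mod_left (a + (c * N : ℕ)) N, jacobiSym.mod_left a N]
    congr 1
    push_cast
    exact Int.add_mul_emod_self_right a c N
  rw [h1, wt_add c hc, h2]

private theorem BB_two (c : ℕ) (hc : c = 4 ∨ c = 8) (N n : ℕ) (hN : 1 ≤ N) (hn : 1 ≤ n) :
    BB n (c * N) (fun a => gX c N a + (-1) ^ n * gX c N (-a)) = 2 * XX n c N := by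
  have hM : 1 ≤ c * N := by
    rcases hc with rfl | rfl <;> omega
  rw [BB_add n (c * N) (gX c N) (fun a => (-1) ^ n * gX c N (-a)),
    BB_smul n (c * N) ((-1) ^ n) (fun a => gX c N (-a)),
    BB_neg n (c * N) hn hM (gX c N) (gX_add c hc N) (by unfold gX; simp)]
  have : ((-1 : ℚ)) ^ n * ((-1) ^ n * BB n (c * N) (gX c N)) = BB n (c * N) (gX c N) := by
    rw [← mul_assoc, ← mul_pow]
    norm_num
  rw [this]
  unfold XX gX
  ring

/-- the values of `Phi` in terms of `gX` -/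
private theorem phi_gX (c : ℕ) (N n D a : ℕ) (hN : N % 2 = 1)
    (hD : a % 2 = 1 → jacobiSym (D : ℤ) a = wt c a * jacobiSym (N : ℤ) a) :
    (if a % 2 = 1 then ((jacobiSym (D : ℤ) a * (-1) ^ (n * (a / 2)) : ℤ) : ℚ) else 0) =
      gX c N a + (-1) ^ n * gX c N (-a) := by
  unfold gX
  by_cases ha : a % 2 = 1
  · rw [if_pos ha, hD ha, recip N a hN ha]
    rcases (by omega : a % 4 = 1 ∨ a % 4 = 3) with h | h
    · have e1 : ((a : ℤ) % 4 = 1) := by omega
      have e2 : ¬ ((-(a : ℤ)) % 4 = 1) := by omega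
      have e3 : Even (n * (a / 2)) := by
        have : a / 2 % 2 = 0 := by omega
        exact (Nat.even_iff.2 this).mul_left n
      rw [if_pos h, if_pos e1, if_neg e2, e3.neg_one_pow]
      push_cast
      ring
    · have e1 : ¬ ((a : ℤ) % 4 = 1) := by omega
      have e2 : ((-(a : ℤ)) % 4 = 1) := by omega
      have e4 : ¬ (a % 4 = 1) := by omega
      have e3 : ((-1 : ℤ)) ^ (n * (a / 2)) = (-1) ^ n := by
        have h3 : Odd (a / 2) := Nat.odd_iff.2 (by omega)
        rw [mul_comm, pow_mul, h3.neg_one_pow]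
      rw [if_neg e4, if_neg e1, if_pos e2, wt_neg, e3]
      push_cast
      ring
  · have e1 : ¬ ((a : ℤ) % 4 = 1) := by omega
    have e2 : ¬ ((-(a : ℤ)) % 4 = 1) := by omega
    rw [if_neg ha, if_neg e1, if_neg e2]
    simp

private theorem LV_aux (c : ℕ) (hc : c = 4 ∨ c = 8) (N D n k : ℕ) (hN : N % 2 = 1) (hk : 1 ≤ k)
    (hDk : 4 * D = c * N * k) (hn : 2 ≤ n)
    (hD : ∀ a : ℕ, a % 2 = 1 → jacobiSym (D : ℤ) a = wt c a * jacobiSym (N : ℤ) a) :
    LV D n (1 - n) = ((-2 * XX n c N : ℚ) : ℂ) := by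
  have hN1 : 1 ≤ N := by omega
  have hcN : 1 ≤ c * N := by rcases hc with rfl | rfl <;> omega
  have hD0 : D ≠ 0 := by
    rintro rfl
    have : 1 ≤ c * N * k := Nat.mul_pos hcN hk
    omega
  have : NeZero (4 * D) := ⟨mul_ne_zero four_ne_zero hD0⟩
  set g : ℤ → ℚ := fun a => gX c N a + (-1) ^ n * gX c N (-a) with hg
  have hper : ∀ a : ℤ, g (a + (c * N : ℕ)) = g a := by
    intro a
    simp only [hg]
    have h2 := gX_add c hc N (-(a + (c * N : ℕ)))
    rw [show -(a + ((c * N : ℕ) : ℤ)) + ((c * N : ℕ) : ℤ) = -a by ring] at h2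
    rw [gX_add c hc N a, h2]
  have hper' : ∀ a : ℤ, g (a + (4 * D : ℕ)) = g a := by
    intro a
    rw [hDk]
    have : ∀ j : ℕ, g (a + ((c * N * j : ℕ) : ℤ)) = g a := by
      intro j
      induction j with
      | zero => simp
      | succ j ih =>
        have e : a + ((c * N * (j + 1) : ℕ) : ℤ) =
            a + ((c * N * j : ℕ) : ℤ) + ((c * N : ℕ) : ℤ) := by
          push_cast; ring
        rw [e, hper, ih]
    exact this k
  have hPhi : Phi D n = fun a : ZMod (4 * D) => ((g a.val : ℚ) : ℂ) := by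
    funext a
    unfold Phi
    have h1 := phi_gX c N n D a.val hN (hD a.val)
    simp only [hg]
    rw [← h1]
    split_ifs
    · push_cast; rfl
    · simp
  have hBB : BB n (4 * D) g = 2 * XX n c N := by
    rw [hDk, BB_level n (c * N) k (by omega) hcN hk g hper]
    exact BB_two c hc N n hN1 (by omega)
  unfold LV
  rw [dif_neg hD0, hPhi, LF_BB (4 * D) n hn g hper', hBB]
  congr 1
  ring

/-- values of `LV` -/
theorem LV_val (D n : ℕ) (hD : RealDisc D) (hn : 2 ≤ n) :
    LV D n (1 - n) = ((-2 * XD n D : ℚ) : ℂ) := by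
  obtain ⟨h1, h | h⟩ := hD
  · obtain ⟨h4, -⟩ := h
    have e : XD n D = XX n 4 D := by
      unfold XD
      rw [if_neg (by omega), if_neg (by omega)]
    rw [e]
    refine LV_aux 4 (Or.inl rfl) D D n 1 (by omega) le_rfl (by ring) hn ?_
    intro a _
    simp [wt]
  · obtain ⟨h4, -, h5⟩ := h
    rcases h5 with h5 | h5
    · -- `D = 8 N`
      have h8 : D % 8 = 0 := by omega
      have e : XD n D = XX n 8 (D / 8) := by
        unfold XD
        rw [if_pos h8]
      rw [e]
      refine LV_aux 8 (Or.inr rfl) (D / 8) D n 4 (by omega) (by norm_num) (by omega) hn ?_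
      intro a ha
      have hao : Odd a := Nat.odd_iff.2 ha
      have hD8 : (D : ℤ) = 4 * (2 * ((D / 8 : ℕ) : ℤ)) := by omega
      rw [hD8, jacobiSym.mul_left, jacobiSym.mul_left, jacobiSym.at_four hao,
        jacobiSym.at_two hao, one_mul]
      simp [wt]
    · have h8 : ¬ (D % 8 = 0) := by omega
      have e : XD n D = XX n 4 (D / 4) := by
        unfold XD
        rw [if_neg h8, if_pos h4]
      rw [e]
      refine LV_aux 4 (Or.inl rfl) (D / 4) D n 4 (by omega) (by norm_num) (by omega) hn ?_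
      intro a ha
      have hao : Odd a := Nat.odd_iff.2 ha
      have hD4 : (D : ℤ) = 4 * ((D / 4 : ℕ) : ℤ) := by omega
      rw [hD4, jacobiSym.mul_left, jacobiSym.at_four hao, one_mul]
      simp [wt]

end Pool.Agent.TZB
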