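import Pool.Agent.TZB.REC
import Pool.Agent.TZB.LFN
import Pool.Agent.TZB.EXI

set_option autoImplicit false

/-! ONE: one discriminant: existence, uniqueness, constant absolute value. -/

namespace Pool.Agent.TZB

open Finset

/-- a periodic function which changes its sign under the multiplication by a unit has mass zero -/
theorem mass_zero_of_unit (K : ℕ) (hK : 0 < K) (g : ℤ → ℤ) (hper : ∀ a b : ℤ, a % K = b % K → g a = g b)
    (u : ℕ) (hu : u.Coprime K) (h : ∀ a, g (u * a) = - g a) : ∑ a ∈ range K, g a = 0 := by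
  have : NeZero K := ⟨hK.ne'⟩
  have h1 : ∑ a ∈ range K, g a = ∑ x : ZMod K, g (x.val : ℤ) := by
    refine Finset.sum_bij' (fun a _ => (a : ZMod K)) (fun x _ => x.val) ?_ ?_ ?_ ?_ ?_
    · intro a _
      exact mem_univ _
    · intro x _
      exact mem_range.mpr (ZMod.val_lt x)
    · intro a ha
      exact ZMod.val_cast_of_lt (mem_range.mp ha)
    · intro x _
      exact ZMod.natCast_zmod_val x
    · intro a ha
      rw [ZMod.val_cast_of_lt (mem_range.mp ha)]
  have h2 : ∑ x : ZMod K, g (x.val : ℤ) = - ∑ x : ZMod K, g (x.val : ℤ) := by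
    rw [← Finset.sum_neg_distrib]
    refine (Fintype.sum_equiv (Units.mulLeft (ZMod.unitOfCoprime u hu)) _ _ fun x => ?_).symm
    rw [← h]
    apply hper
    have h3 : ((((u : ℤ) * (x.val : ℤ) : ℤ)) : ZMod K) =
        (((((Units.mulLeft (ZMod.unitOfCoprime u hu)) x).val : ℤ)) : ZMod K) := by
      push_cast
      rw [ZMod.natCast_zmod_val, ZMod.natCast_zmod_val]
      rfl
    exact (ZMod.intCast_eq_intCast_iff' _ _ _).mp h3
  rw [h1]
  linarith

/-- there is a nonresidue which is `1` modulo `4` -/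
theorem exists_unit (N : ℕ) (hN : 1 < N) (hodd : N % 2 = 1) (hsq : Squarefree N) :
    ∃ u : ℕ, u % 4 = 1 ∧ jacobiSym u N = -1 := by
  set p := N.minFac with hp
  have hpp : p.Prime := Nat.minFac_prime (by omega)
  have : Fact p.Prime := ⟨hpp⟩
  obtain ⟨m, hm⟩ := Nat.minFac_dvd N
  rw [← hp] at hm
  have hp2 : p ≠ 2 := by
    intro h
    rw [h] at hm
    omega
  have hcop : p.Coprime m := by
    rw [hm] at hsq
    exact (Nat.squarefree_mul_iff.mp hsq).1
  have hmodd : m % 2 = 1 := by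
    by_contra hcon
    have : m % 2 = 0 := by omega
    rw [hm, Nat.mul_mod, this, mul_zero] at hodd
    omega
  have hcop4 : p.Coprime (4 * m) := by
    apply Nat.Coprime.mul_right _ hcop
    have : p.Coprime 2 := (Nat.coprime_primes hpp Nat.prime_two).mpr hp2
    exact Nat.Coprime.pow_right 2 this
  obtain ⟨x, hx⟩ := FiniteField.exists_nonsquare (F := ZMod p) (by rwa [ZMod.ringChar_zmod_n])
  obtain ⟨u, hu1, hu2⟩ := Nat.chineseRemainder hcop4 x.val 1
  refine ⟨u, ?_, ?_⟩
  · have h1 : u ≡ 1 [MOD 4] := hu2.of_mul_right m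
    exact h1
  · haveI : NeZero p := ⟨hpp.ne_zero⟩
    have : NeZero m := ⟨by rintro rfl; omega⟩
    rw [hm, jacobiSym.mul_right, ← jacobiSym.legendreSym.to_jacobiSym]
    have h1 : legendreSym p u = -1 := by
      rw [legendreSym.eq_neg_one_iff]
      have h2 : (((u : ℤ)) : ZMod p) = x := by
        have h3 := (ZMod.natCast_eq_natCast_iff _ _ _).mpr hu1
        rw [ZMod.natCast_zmod_val] at h3
        rw [← h3]
        push_cast
        rfl
      rw [h2]
      exact hx
    have h2 : jacobiSym u m = 1 := by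
      have h3 : u ≡ 1 [MOD m] := hu2.of_mul_left 4
      have h4 : ((u : ℤ)) % m = (1 : ℤ) % m := by
        have := h3
        unfold Nat.ModEq at this
        exact_mod_cast this
      rw [jacobiSym.mod_left' h4, jacobiSym.one_left]
    rw [h1, h2]
    norm_num

/-- the function of `XX` -/
noncomputable def gX (c N : ℕ) (a : ℤ) : ℤ := if a % 4 = 1 then wt c a * jacobiSym a N else 0

theorem XX_eq (n c N : ℕ) : XX n c N = BB n (c * N) (fun a => (gX c N a : ℚ)) := by
  unfold XX gX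
  congr 1
  funext a
  split_ifs <;> simp

theorem gX_per4 (N : ℕ) (a b : ℤ) (h : a % ((4 * N : ℕ) : ℤ) = b % ((4 * N : ℕ) : ℤ)) :
    gX 4 N a = gX 4 N b := by
  have h4 : a % 4 = b % 4 := by
    have h1 : a ≡ b [ZMOD ((4 * N : ℕ) : ℤ)] := h
    push_cast at h1
    exact h1.of_mul_right N
  have hN : a % N = b % N := by
    have h1 : a ≡ b [ZMOD ((4 * N : ℕ) : ℤ)] := h
    push_cast at h1
    exact h1.of_mul_left 4
  unfold gX wt
  rw [h4, jacobiSym.mod_left' hN]
  simp

theorem gX_per8 (N : ℕ) (a b : ℤ) (h : a % ((8 * N : ℕ) : ℤ) = b % ((8 * N : ℕ) : ℤ)) :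
    gX 8 N a = gX 8 N b := by
  have h8 : a ≡ b [ZMOD 8] := by
    have h1 : a ≡ b [ZMOD ((8 * N : ℕ) : ℤ)] := h
    push_cast at h1
    exact h1.of_mul_right N
  have h4 : a % 4 = b % 4 := by
    have h1 : a ≡ b [ZMOD (4 * 2)] := h8
    exact h1.of_mul_right 2
  have hN : a % N = b % N := by
    have h1 : a ≡ b [ZMOD ((8 * N : ℕ) : ℤ)] := h
    push_cast at h1
    exact h1.of_mul_left 8
  have hchi : (a : ZMod 8) = (b : ZMod 8) := (ZMod.intCast_eq_intCast_iff _ _ _).mpr h8
  unfold gX wt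
  rw [h4, jacobiSym.mod_left' hN, hchi]

theorem mass4 (N : ℕ) (hN : 1 < N) (hodd : N % 2 = 1) (hsq : Squarefree N) :
    ∑ a ∈ range (4 * N), gX 4 N a = 0 := by
  obtain ⟨u, hu1, hu2⟩ := exists_unit N hN hodd hsq
  refine mass_zero_of_unit (4 * N) (by omega) (gX 4 N) (gX_per4 N) u ?_ ?_
  · apply Nat.Coprime.mul_right
    · have : u.Coprime 2 := by
        rw [Nat.coprime_two_right, Nat.odd_iff]
        omega
      exact Nat.Coprime.pow_right 2 this
    · have h1 : jacobiSym u N ≠ 0 := by rw [hu2]; norm_num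
      have : NeZero N := ⟨by omega⟩
      rw [Ne, jacobiSym.eq_zero_iff_not_coprime, not_not] at h1
      simpa [Int.gcd, Nat.Coprime] using h1
  · intro a
    have h1 : ((u : ℤ) * a) % 4 = a % 4 := by
      have : (u : ℤ) % 4 = 1 := by exact_mod_cast hu1
      rw [Int.mul_emod, this, one_mul, Int.emod_emod_of_dvd _ (dvd_refl 4)]
    unfold gX wt
    rw [h1, jacobiSym.mul_left, hu2, if_neg (show ¬ (4 = 8) by norm_num),
      if_neg (show ¬ (4 = 8) by norm_num)]
    split_ifs <;> simp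

theorem mass8 (N : ℕ) (hN : 0 < N) (hodd : N % 2 = 1) :
    ∑ a ∈ range (8 * N), gX 8 N a = 0 := by
  have hcop : Nat.Coprime 8 N := by
    have : Nat.Coprime 2 N := by
      rw [Nat.coprime_two_left, Nat.odd_iff]
      exact hodd
    exact Nat.Coprime.pow_left 3 this
  obtain ⟨u, hu1, hu2⟩ := Nat.chineseRemainder hcop 5 1
  have h8 : u % 8 = 5 := hu1
  refine mass_zero_of_unit (8 * N) (by omega) (gX 8 N) (gX_per8 N) u ?_ ?_
  · apply Nat.Coprime.mul_right
    · have : u.Coprime 2 := by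
        rw [Nat.coprime_two_right, Nat.odd_iff]
        omega
      exact Nat.Coprime.pow_right 3 this
    · have h1 : u ≡ 1 [MOD N] := hu2
      exact (Nat.ModEq.gcd_eq h1).trans (Nat.gcd_one_left N)
  · intro a
    have h1 : ((u : ℤ) * a) % 4 = a % 4 := by
      have : (u : ℤ) % 4 = 1 := by omega
      rw [Int.mul_emod, this, one_mul, Int.emod_emod_of_dvd _ (dvd_refl 4)]
    have h2 : jacobiSym ((u : ℤ) * a) N = jacobiSym a N := by
      rw [jacobiSym.mul_left]
      have h4 : ((u : ℤ)) % N = (1 : ℤ) % N := by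
        have := hu2
        unfold Nat.ModEq at this
        exact_mod_cast this
      rw [jacobiSym.mod_left' h4, jacobiSym.one_left, one_mul]
    have h3 : ZMod.χ₈ ((((u : ℤ) * a : ℤ)) : ZMod 8) = - ZMod.χ₈ ((a : ℤ) : ZMod 8) := by
      have h5 : (((u : ℤ)) : ZMod 8) = ((5 : ℤ) : ZMod 8) := by
        rw [ZMod.intCast_eq_intCast_iff']
        omega
      push_cast at h5 ⊢
      rw [h5]
      generalize ((a : ℤ) : ZMod 8) = y
      revert y
      decide
    unfold gX wt
    rw [h1, h2]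
    simp only [if_true]
    rw [h3]
    split_ifs <;> simp

/-- existence and uniqueness of the 2-adic L-function -/
theorem exists_L2 (D : ℕ) (hD : RealDisc D) : ∃ L, IsL2 D L := by
  obtain ⟨f, hf, hfv⟩ : ∃ f : ℤ_[2] → ℚ_[2], Continuous f ∧
      ∀ n : ℕ, 1 ≤ n → f n = ((XD n D : ℚ) : ℚ_[2]) := by
    obtain ⟨hD1, hD2⟩ := hD
    by_cases h8 : D % 8 = 0
    · have hN : 0 < D / 8 := by omega
      have hodd : D / 8 % 2 = 1 := by
        rcases hD2 with ⟨h, _⟩ | ⟨_, hsq, h⟩
        · omega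
        · rcases h with h | h
          · omega
          · omega
      obtain ⟨f, hf, hfv⟩ := interp (2 * (D / 8)) (by omega) (gX 8 (D / 8)) (by
        intro a ha
        unfold gX at ha
        by_contra hcon
        exact ha (if_neg hcon)) (by
        rw [show 4 * (2 * (D / 8)) = 8 * (D / 8) by ring]
        exact mass8 _ hN hodd)
      refine ⟨f, hf, fun n hn => ?_⟩
      rw [hfv n hn, XD, if_pos h8, XX_eq, show 4 * (2 * (D / 8)) = 8 * (D / 8) by ring]
    · by_cases h4 : D % 4 = 0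
      · have hh : Squarefree (D / 4) ∧ D / 4 % 4 = 3 := by
          rcases hD2 with ⟨h, _⟩ | ⟨_, hsq, h⟩
          · omega
          · refine ⟨hsq, ?_⟩
            rcases h with h | h
            · omega
            · exact h
        obtain ⟨f, hf, hfv⟩ := interp (D / 4) (by omega) (gX 4 (D / 4)) (by
          intro a ha
          unfold gX at ha
          by_contra hcon
          exact ha (if_neg hcon)) (mass4 _ (by omega) (by omega) hh.1)
        refine ⟨f, hf, fun n hn => ?_⟩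
        rw [hfv n hn, XD, if_neg h8, if_pos h4, XX_eq]
      · have hh : D % 4 = 1 ∧ Squarefree D := by
          rcases hD2 with h | ⟨h, _⟩
          · exact h
          · omega
        obtain ⟨f, hf, hfv⟩ := interp D (by omega) (gX 4 D) (by
          intro a ha
          unfold gX at ha
          by_contra hcon
          exact ha (if_neg hcon)) (mass4 _ hD1 (by omega) hh.2)
        refine ⟨f, hf, fun n hn => ?_⟩
        rw [hfv n hn, XD, if_neg h8, if_neg h4, XX_eq]
  refine ⟨fun s => -2 * f (1 - s), ?_, ?_⟩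
  · exact continuous_const.mul (hf.comp (continuous_const.sub continuous_id))
  · intro n hn
    refine ⟨-2 * XD n D, (LV_val D n hD hn).symm, ?_⟩
    show -2 * f (1 - (1 - (n : ℤ_[2]))) = _
    rw [sub_sub_cancel, hfv n (by omega)]
    push_cast
    rfl

/-- a closed set which contains the integers `1 - n`, `n ≥ 2`, is everything -/
theorem closed_all (E : Set ℤ_[2]) (hE : IsClosed E) (h : ∀ n : ℕ, 2 ≤ n → (1 - (n : ℤ_[2])) ∈ E)
    (s : ℤ_[2]) : s ∈ E := by
  have hE' : IsClosed ((fun s : ℤ_[2] => 1 - s) ⁻¹' E) :=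
    hE.preimage (continuous_const.sub continuous_id)
  have h1 : ∀ m : ℕ, (m : ℤ_[2]) ∈ ((fun s : ℤ_[2] => 1 - s) ⁻¹' E) := by
    intro m
    have h2 : Filter.Tendsto (fun k : ℕ => (m : ℤ_[2]) + 2 ^ k) Filter.atTop
        (nhds ((m : ℤ_[2]) + 0)) := by
      apply Filter.Tendsto.const_add
      apply tendsto_pow_atTop_nhds_zero_of_norm_lt_one
      rw [show (2 : ℤ_[2]) = ((2 : ℕ) : ℤ_[2]) by norm_num, PadicInt.norm_p]
      norm_num
    rw [add_zero] at h2
    refine hE'.mem_of_tendsto h2 ?_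
    filter_upwards [Filter.eventually_ge_atTop 1] with k hk
    have h3 := h (m + 2 ^ k) (by
      have : 2 ^ 1 ≤ 2 ^ k := Nat.pow_le_pow_right (by norm_num) hk
      omega)
    show 1 - ((m : ℤ_[2]) + 2 ^ k) ∈ E
    push_cast at h3
    exact h3
  have h2 : ((fun s : ℤ_[2] => 1 - s) ⁻¹' E) = Set.univ := by
    rw [← hE'.closure_eq]
    apply Set.eq_univ_of_univ_subset
    rw [← (PadicInt.denseRange_natCast (p := 2)).closure_range]
    apply closure_mono
    rintro _ ⟨m, rfl⟩
    exact h1 m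
  have h3 : (1 - s) ∈ ((fun s : ℤ_[2] => 1 - s) ⁻¹' E) := by rw [h2]; exact Set.mem_univ _
  have h4 : 1 - (1 - s) ∈ E := h3
  rwa [sub_sub_cancel] at h4

theorem unique_L2 (D : ℕ) (L L' : ℤ_[2] → ℚ_[2]) (h : IsL2 D L) (h' : IsL2 D L') : L = L' := by
  funext s
  refine closed_all {s | L s = L' s} (isClosed_eq h.1 h'.1) ?_ s
  intro n hn
  obtain ⟨r, hr1, hr2⟩ := h.2 n hn
  obtain ⟨r', hr1', hr2'⟩ := h'.2 n hn
  have hrr : r = r' := by
    have : (r : ℂ) = (r' : ℂ) := hr1.trans hr1'.symm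
    exact_mod_cast this
  show L (1 - (n : ℤ_[2])) = L' (1 - (n : ℤ_[2]))
  rw [hr2, hr2', hrr]

/-- constant absolute value from the values at `1 - n` -/
theorem norm_const (D t : ℕ) (hD : RealDisc D) (L : ℤ_[2] → ℚ_[2]) (hL : IsL2 D L)
    (h : ∀ n : ℕ, 2 ≤ n → ‖((XD n D : ℚ) : ℚ_[2])‖ = 2 * (1 / 2 : ℝ) ^ t) (s : ℤ_[2]) :
    ‖L s‖ = (1 / 2 : ℝ) ^ t := by
  refine closed_all {s | ‖L s‖ = (1 / 2 : ℝ) ^ t} (isClosed_eq hL.1.norm continuous_const) ?_ s
  intro n hn
  obtain ⟨r, hr1, hr2⟩ := hL.2 n hn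
  have hr : r = -2 * XD n D := by
    have h1 : (r : ℂ) = ((-2 * XD n D : ℚ) : ℂ) := hr1.trans (LV_val D n hD hn)
    exact_mod_cast h1
  show ‖L (1 - (n : ℤ_[2]))‖ = (1 / 2 : ℝ) ^ t
  rw [hr2, hr]
  push_cast
  rw [norm_mul, h n hn, norm_neg]
  have h2 : ‖(2 : ℚ_[2])‖ = 1 / 2 := by
    have := Padic.norm_p (p := 2)
    push_cast at this
    rw [this]
    norm_num
  rw [h2]
  ring

end Pool.Agent.TZB
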