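import Pool.Agent.TZB.REC
import Pool.Agent.TZB.ES2
import Pool.Agent.TZB.CM2

set_option autoImplicit false

/-! RC2: the digits of `(XX n - XX 1) / (4 (n - 1))`. -/

namespace Pool.Agent.TZB

open Finset

variable {ι : Type*} [Fintype ι] [DecidableEq ι]

omit [Fintype ι] in
/-- recursion of the second elementary symmetric expression -/
private theorem e2_insert (l s : ι → ZMod 2) (S : Finset ι) (a : ι) (ha : a ∉ S) :
    ∑ T ∈ (insert a S).powersetCard 2, (∏ i ∈ T, l i) * ∏ k ∈ insert a S \ T, s k =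
      s a * (∑ T ∈ S.powersetCard 2, (∏ i ∈ T, l i) * ∏ k ∈ S \ T, s k) +
        l a * ∑ i ∈ S, l i * ∏ j ∈ S.erase i, s j := by
  rw [Finset.powersetCard_succ_insert ha 1, sum_union, sum_image, Finset.powersetCard_one, sum_map,
    mul_sum, mul_sum]
  · congr 1
    · refine sum_congr rfl fun T hT => ?_
      have haT : a ∉ T := fun h => ha ((mem_powersetCard.1 hT).1 h)
      rw [insert_sdiff_of_notMem _ haT, prod_insert (fun h => ha (mem_sdiff.1 h).1)]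
      ring
    · refine sum_congr rfl fun i hi => ?_
      have hai : a ≠ i := fun h => ha (h ▸ hi)
      have h1 : insert a S \ insert a {i} = S.erase i := by
        ext j
        simp only [mem_sdiff, mem_insert, mem_singleton, mem_erase]
        constructor
        · rintro ⟨h1 | h1, h2⟩
          · exact absurd (Or.inl h1) h2
          · exact ⟨fun h => h2 (Or.inr h), h1⟩
        · rintro ⟨h1, h2⟩
          refine ⟨Or.inr h2, ?_⟩
          rintro (h3 | h3)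
          · exact ha (h3 ▸ h2)
          · exact h1 h3
      simp only [Function.Embedding.coeFn_mk]
      rw [h1, prod_insert (by simpa using hai), prod_singleton]
      ring
  · intro T hT T' hT' h
    have h1 : a ∉ T := fun h => ha ((mem_powersetCard.1 hT).1 h)
    have h2 : a ∉ T' := fun h => ha ((mem_powersetCard.1 hT').1 h)
    rw [← erase_insert h1, ← erase_insert h2, h]
  · rw [disjoint_left]
    intro T hT hT'
    obtain ⟨T', -, rfl⟩ := mem_image.1 hT'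
    exact ha ((mem_powersetCard.1 hT).1 (mem_insert_self a T'))

/-- second order expansion -/
private theorem U_rd (S : Finset ι) (A B : ℚ) (hA : A ≠ 0) (hB : B ≠ 0) (x y z k k' w : ι → ℚ)
    (s l : ι → ZMod 2) (hx : ∀ i, Rd (x i) (s i)) (hy : ∀ i, Rd (y i) (s i))
    (hz : ∀ i, Rd (z i) (s i)) (hxy : ∀ i, x i - y i = A * k i) (hxz : ∀ i, x i - z i = B * k' i)
    (hk : ∀ i, Rd (k' i) (l i)) (hkk : ∀ i, Rd ((k i + k' i) / 2) 0)
    (hzy : ∀ i, z i - y i = 2 * w i) (hw : ∀ i, Rd (w i) (l i)) :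
    Rd (((∏ i ∈ S, x i - ∏ i ∈ S, y i) / A + (∏ i ∈ S, x i - ∏ i ∈ S, z i) / B) / 2)
      (∑ T ∈ S.powersetCard 2, (∏ i ∈ T, l i) * ∏ k ∈ S \ T, s k) := by
  induction S using Finset.induction_on with
  | empty =>
    have h := Rd.int 0
    have h0 : (∅ : Finset ι).powersetCard 2 = ∅ := by
      rw [Finset.powersetCard_eq_empty]
      simp
    rw [h0]
    simpa using h
  | insert a S ha ih =>
    have h1 : ((∏ i ∈ insert a S, x i - ∏ i ∈ insert a S, y i) / A +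
        (∏ i ∈ insert a S, x i - ∏ i ∈ insert a S, z i) / B) / 2 =
        x a * (((∏ i ∈ S, x i - ∏ i ∈ S, y i) / A + (∏ i ∈ S, x i - ∏ i ∈ S, z i) / B) / 2) +
        (k a + k' a) / 2 * ∏ i ∈ S, y i + k' a * ((∏ i ∈ S, z i - ∏ i ∈ S, y i) / 2) := by
      rw [prod_insert ha, prod_insert ha, prod_insert ha]
      have e1 := hxy a
      have e2 := hxz a
      field_simp
      linear_combination (B * ∏ i ∈ S, y i) * e1 + (A * ∏ i ∈ S, z i) * e2
    have h2 := Rd_prod_sub S 2 two_ne_zero z y w s l hzy hz hy hw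
    have h3 := (((hx a).mul ih).add ((hkk a).mul (Rd.prod S fun i _ => hy i))).add ((hk a).mul h2)
    rw [h1, e2_insert l s S a ha]
    rw [zero_mul, add_zero] at h3
    exact h3

/-- `beta(n) + q beta(n - 1) = 0 mod 4` -/
private theorem beta_sum (j : ℕ) (a b : ℤ) (ha : a = 1 + 4 * b) :
    Zi ((((a : ℚ) ^ (j + 2) - 1) / (4 * ((j : ℚ) + 2)) +
      a * (((a : ℚ) ^ (j + 1) - 1) / (4 * ((j : ℚ) + 1)))) / 4) := by
  have hj2 : ((j : ℚ) + 2) ≠ 0 := by positivity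
  have hj1 : ((j : ℚ) + 1) ≠ 0 := by positivity
  have haq : (a : ℚ) = 1 + 4 * b := by rw [ha]; push_cast; ring
  obtain ⟨z1, hz1, e1⟩ : ∃ z1 : ℚ, Zi z1 ∧ ((a : ℚ) ^ (j + 2) - 1) / (4 * ((j : ℚ) + 2)) =
      b + 2 * ((j : ℚ) + 1) * b ^ 2 + 4 * ((j : ℚ) + 1) * z1 := by
    refine ⟨_, pow_second j a b ha, ?_⟩
    field_simp
    ring
  obtain ⟨z2, hz2, e2⟩ : ∃ z2 : ℚ, Zi z2 ∧ ((a : ℚ) ^ (j + 1) - 1) / (4 * ((j : ℚ) + 1)) =
      b + 2 * (j : ℚ) * b ^ 2 + 4 * (j : ℚ) * z2 := by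
    rcases Nat.eq_zero_or_pos j with h | h
    · subst h
      refine ⟨0, by simpa using Zi.int 0, ?_⟩
      rw [haq]
      push_cast
      ring
    · obtain ⟨i, rfl⟩ : ∃ i, j = i + 1 := ⟨j - 1, by omega⟩
      refine ⟨_, pow_second i a b ha, ?_⟩
      have e3 : (((i + 1 : ℕ) : ℚ) + 1) = (i : ℚ) + 2 := by push_cast; ring
      have e4 : ((i + 1 : ℕ) : ℚ) = (i : ℚ) + 1 := by push_cast; ring
      have e5 : ((i : ℚ) + 1) ≠ 0 := by positivity
      have e6 : ((i : ℚ) + 2) ≠ 0 := by positivity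
      rw [e3, e4]
      field_simp
      ring
  obtain ⟨c, hc⟩ : ∃ c : ℤ, b ^ 2 + b = 2 * c := by
    have h1 : Even (b ^ 2 + b) := by
      have : b ^ 2 + b = b * (b + 1) := by ring
      rw [this]
      exact Int.even_mul_succ_self b
    obtain ⟨c, hc⟩ := h1
    exact ⟨c, by omega⟩
  have hc' : (b : ℚ) ^ 2 + b = 2 * c := by exact_mod_cast hc
  rw [e1, e2]
  have h1 := (((Zi.nat (j + 1)).mul hz1).add (((Zi.int a).mul (Zi.nat j)).mul hz2)).add
    ((Zi.int c).add (Zi.int (j * b ^ 2 + b ^ 2 + 2 * j * b ^ 3)))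
  convert h1 using 1
  push_cast
  rw [haq]
  linear_combination (1 / 2 : ℚ) * hc'

/-- the Euler factors -/
private theorem EE_form (n : ℕ) (ℓ : ι → ℕ) (hℓ : ∀ i, (ℓ i).Prime ∧ ℓ i % 2 = 1)
    (hinj : Function.Injective ℓ) (D : Finset ι) (i : ι) (hi : i ∉ D) :
    EE n 4 (ℓ i) (NN ℓ D) =
      1 - (rsg (nn (ℓ i) + ∑ j ∈ D, sy (ℓ i) (ℓ j)) : ℚ) * (star (ℓ i) : ℚ) ^ (n - 1) := by
  have h3 : jacobiSym (star (ℓ i)) (NN ℓ D) = rsg (∑ j ∈ D, sy (ℓ i) (ℓ j)) := by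
    rw [jac_NN _ ℓ hℓ, rsg_sum]
    refine prod_congr rfl fun j hj => ?_
    rw [jac_star _ _ (hℓ i).2 (hℓ j).2, rsg_sy _ _ (hℓ i).1 (hℓ j).1]
    intro h
    exact hi ((hinj h) ▸ hj)
  have h4 : wt 4 (ℓ i) = 1 := by simp [wt]
  unfold EE
  rw [h3, h4, rsg_nn, rsg_add]
  push_cast
  ring

private theorem rsg_odd (s : ZMod 2) : Rd (rsg s : ℚ) 1 :=
  Rd_odd _ (by unfold rsg; split_ifs <;> norm_num)

/-- `L(0)` of the trivial character -/
private theorem XX_one_one : XX 1 4 1 = -1 / 4 := by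
  unfold XX BB
  simp [Finset.sum_range_succ, wt, Polynomial.bernoulli_one]
  norm_num

theorem main5 (n : ℕ) (hn : 2 ≤ n) (ℓ : ι → ℕ) (hℓ : ∀ i, (ℓ i).Prime ∧ ℓ i % 2 = 1)
    (hinj : Function.Injective ℓ) (S : Finset ι) (hS : S.Nonempty) :
    Rd (4 * ((XX n 4 (NN ℓ S) - XX 1 4 (NN ℓ S)) / (4 * ((n : ℚ) - 1))) / 2 ^ S.card)
      (F5 (fun i j => sy (ℓ i) (ℓ j)) (fun i => lam (ℓ i)) S) := by
  obtain ⟨j, rfl⟩ : ∃ j, n = j + 2 := ⟨n - 2, by omega⟩
  have hj2 : ((j : ℚ) + 2) ≠ 0 := by positivity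
  have hj1 : ((j : ℚ) + 1) ≠ 0 := by positivity
  have hcast : ((j + 2 : ℕ) : ℚ) = (j : ℚ) + 2 := by push_cast; ring
  have hcast1 : ((j + 2 : ℕ) : ℚ) - 1 = (j : ℚ) + 1 := by push_cast; ring
  rw [hcast1]
  -- the empty set
  obtain ⟨z0, hz0, hX0⟩ : ∃ z0 : ℚ, Zi z0 ∧ (XX (j + 2) 4 1 - XX 1 4 1) / (4 * ((j : ℚ) + 1)) =
      -1 / (16 * ((j : ℚ) + 2)) + 1 / 12 + z0 := by
    have hest := estD (j + 2) hn ℓ hℓ hinj ∅
    have hkey := key (j + 2) 4 (by omega) (Or.inl rfl) ℓ hℓ hinj ∅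
    have hkey1 := key 1 4 le_rfl (Or.inl rfl) ℓ hℓ hinj ∅
    rw [← hkey, ← hkey1] at hest
    simp only [powerset_empty, sum_singleton, card_empty, pow_zero, Finset.sdiff_self, prod_empty,
      mul_one, one_mul, div_one] at hest
    have h1 : NN ℓ ∅ = 1 := by simp [NN]
    rw [h1, hcast1, hcast] at hest
    refine ⟨_, hest, ?_⟩
    push_cast
    ring
  -- the local data
  have hEE : ∀ m : ℕ, 1 ≤ m → ∀ i, Rd (EE m 4 (ℓ i) 1 / 2) (nn (ℓ i)) := by
    intro m hm i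
    have h6 := Rd_EE m 4 hm (Or.inl rfl) ℓ hℓ hinj ∅ i (notMem_empty i)
    rw [if_neg (by norm_num), sum_empty, add_zero, add_zero] at h6
    simpa [NN] using h6
  have hEf : ∀ m : ℕ, ∀ i, EE m 4 (ℓ i) 1 = 1 - (sgs (ℓ i) : ℚ) * (star (ℓ i) : ℚ) ^ (m - 1) := by
    intro m i
    unfold EE
    simp [wt]
  have hy : ∀ i, Rd (((ℓ i : ℚ) - 1) / ℓ i / 2) (nn (ℓ i)) := by
    intro i
    have h1 := (Rd_ell (ℓ i) (hℓ i).2).mul (Rd_odd (ℓ i : ℤ) (by have := (hℓ i).2; omega)).inv_odd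
    rw [mul_one] at h1
    have h2 : ((ℓ i : ℚ) - 1) / ℓ i / 2 = ((ℓ i : ℚ) - 1) / 2 * (((ℓ i : ℤ) : ℚ))⁻¹ := by
      push_cast
      ring
    rw [h2]
    exact h1
  have hl0 : ∀ i, (ℓ i : ℚ) ≠ 0 := fun i => by exact_mod_cast (hℓ i).1.ne_zero
  have hlinv : ∀ i, Rd ((ℓ i : ℚ)⁻¹) 1 := by
    intro i
    have h1 := (Rd_odd (ℓ i : ℤ) (by have := (hℓ i).2; omega)).inv_odd
    push_cast at h1
    exact h1
  have hst : ∀ i, ((star (ℓ i) : ℤ) : ℚ) = (sgs (ℓ i) : ℚ) * ℓ i := by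
    intro i
    rw [star_eq]; push_cast; ring
  have hsg : ∀ i, (sgs (ℓ i) : ℚ) * (sgs (ℓ i) : ℚ) = 1 := fun i => by exact_mod_cast sgs_sq (ℓ i)
  -- `U`
  have hU : ∀ S : Finset ι, Rd (((∏ i ∈ S, (EE (j + 2) 4 (ℓ i) 1 / 2) -
      ∏ i ∈ S, (((ℓ i : ℚ) - 1) / ℓ i / 2)) / (2 * ((j : ℚ) + 2)) +
      (∏ i ∈ S, (EE (j + 2) 4 (ℓ i) 1 / 2) - ∏ i ∈ S, (EE 1 4 (ℓ i) 1 / 2)) / (2 * ((j : ℚ) + 1))) / 2)
      (∑ T ∈ S.powersetCard 2, (∏ i ∈ T, lam (ℓ i)) * ∏ k ∈ S \ T, nn (ℓ k)) := by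
    intro S
    choose b hb hb2 using fun i => star_mod (ℓ i) (hℓ i).2
    refine U_rd S (2 * ((j : ℚ) + 2)) (2 * ((j : ℚ) + 1)) (by positivity) (by positivity)
      (fun i => EE (j + 2) 4 (ℓ i) 1 / 2) (fun i => ((ℓ i : ℚ) - 1) / ℓ i / 2)
      (fun i => EE 1 4 (ℓ i) 1 / 2)
      (fun i => -((ℓ i : ℚ)⁻¹ * (((star (ℓ i) : ℚ) ^ (j + 2) - 1) / (4 * ((j : ℚ) + 2)))))
      (fun i => -((sgs (ℓ i) : ℚ) * (((star (ℓ i) : ℚ) ^ (j + 1) - 1) / (4 * ((j : ℚ) + 1)))))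
      (fun i => -((b i : ℚ) * (ℓ i : ℚ)⁻¹)) _ _ (hEE (j + 2) (by omega)) hy (hEE 1 le_rfl)
      ?_ ?_ ?_ ?_ ?_ ?_
    · intro i
      have h1 := hl0 i
      have h2 := hsg i
      simp only [hEf, show j + 2 - 1 = j + 1 by omega]
      rw [pow_succ (star (ℓ i) : ℚ) (j + 1)]
      generalize (star (ℓ i) : ℚ) ^ (j + 1) = v
      rw [hst i]
      field_simp
      ring
    · intro i
      simp only [hEf, show j + 2 - 1 = j + 1 by omega, Nat.sub_self, pow_zero]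
      field_simp
      ring
    · intro i
      have h1 := Rd_pow_sub (j + 1) (by omega) (star (ℓ i)) (b i) (hb i)
      rw [hb2] at h1
      have h2 : Rd (sgs (ℓ i) : ℚ) 1 := Rd_odd _ (by unfold sgs; split_ifs <;> norm_num)
      have h3 := (h2.mul h1).neg
      rw [one_mul] at h3
      push_cast at h3
      exact h3
    · intro i
      have h1 := Rd.two_mul (((hlinv i).zi.mul (beta_sum j (star (ℓ i)) (b i) (hb i))).neg)
      convert h1 using 1
      have h2 := hl0 i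
      have h3 : (sgs (ℓ i) : ℚ) = (ℓ i : ℚ)⁻¹ * star (ℓ i) := by
        rw [hst i]
        field_simp
      rw [h3]
      ring
    · intro i
      have h2 := hl0 i
      have h4 := hst i
      have h5 : ((star (ℓ i) : ℤ) : ℚ) = 1 + 4 * b i := by
        rw [hb i]; push_cast; ring
      rw [h5] at h4
      simp only [hEf, Nat.sub_self, pow_zero]
      field_simp
      linear_combination h4
    · intro i
      have h1 := ((Rd.int (b i)).mul (hlinv i)).neg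
      rw [mul_one, hb2] at h1
      exact h1
  induction S using Finset.strongInduction with
  | H S ih =>
    have hkey := key (j + 2) 4 (by omega) (Or.inl rfl) ℓ hℓ hinj S
    have hkey1 := key 1 4 le_rfl (Or.inl rfl) ℓ hℓ hinj S
    have hest := estD (j + 2) hn ℓ hℓ hinj S
    rw [← hkey, ← hkey1, hcast1, hcast] at hest
    clear hkey hkey1
    have hB : Rd (∑ D ∈ S.powerset.erase ∅, (-1 : ℚ) ^ D.card *
        (4 * ((XX (j + 2) 4 (NN ℓ D) - XX 1 4 (NN ℓ D)) / (4 * ((j : ℚ) + 1))) / 2 ^ D.card *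
          ∏ i ∈ S \ D, (EE (j + 2) 4 (ℓ i) (NN ℓ D) / 2) +
        XX 1 4 (NN ℓ D) / 2 ^ (D.card - 1) *
          ((∏ i ∈ S \ D, (EE (j + 2) 4 (ℓ i) (NN ℓ D) / 2) -
            ∏ i ∈ S \ D, (EE 1 4 (ℓ i) (NN ℓ D) / 2)) / (2 * ((j : ℚ) + 1)))))
        (∑ D ∈ S.powerset.erase ∅,
          (F5 (fun i j => sy (ℓ i) (ℓ j)) (fun i => lam (ℓ i)) D *
            ∏ i ∈ S \ D, (nn (ℓ i) + ∑ j ∈ D, sy (ℓ i) (ℓ j)) +
          F4 (fun i j => sy (ℓ i) (ℓ j)) (fun i => lam (ℓ i)) D *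
            ∑ i ∈ S \ D, lam (ℓ i) * ∏ k ∈ (S \ D).erase i, (nn (ℓ k) + ∑ j ∈ D, sy (ℓ k) (ℓ j)))) := by
      rw [F5_rec]
      have h1 : ∑ D ∈ S.powerset.erase ∅, (-1 : ℚ) ^ D.card *
          (4 * ((XX (j + 2) 4 (NN ℓ D) - XX 1 4 (NN ℓ D)) / (4 * ((j : ℚ) + 1))) / 2 ^ D.card *
            ∏ i ∈ S \ D, (EE (j + 2) 4 (ℓ i) (NN ℓ D) / 2) +
          XX 1 4 (NN ℓ D) / 2 ^ (D.card - 1) *
            ((∏ i ∈ S \ D, (EE (j + 2) 4 (ℓ i) (NN ℓ D) / 2) -
              ∏ i ∈ S \ D, (EE 1 4 (ℓ i) (NN ℓ D) / 2)) / (2 * ((j : ℚ) + 1)))) =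
          (∑ D ∈ S.powerset.erase ∅, (-1 : ℚ) ^ D.card * (XX (j + 2) 4 (NN ℓ D) *
            ∏ i ∈ S \ D, EE (j + 2) 4 (ℓ i) (NN ℓ D)) -
          ∑ D ∈ S.powerset.erase ∅, (-1 : ℚ) ^ D.card * (XX 1 4 (NN ℓ D) *
            ∏ i ∈ S \ D, EE 1 4 (ℓ i) (NN ℓ D))) / (((j : ℚ) + 1) * 2 ^ S.card) := by
        rw [← sum_sub_distrib, sum_div]
        refine sum_congr rfl fun D hD => ?_
        have hD2 := mem_powerset.1 (mem_of_mem_erase hD)
        have hD3 : 1 ≤ D.card := (nonempty_iff_ne_empty.2 (ne_of_mem_erase hD)).card_pos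
        rw [prod_div_distrib, prod_const, prod_div_distrib, prod_const]
        have h4 : (2 : ℚ) ^ S.card = 2 ^ D.card * 2 ^ (S \ D).card := by
          rw [← pow_add, add_comm, card_sdiff_add_card_eq_card hD2]
        obtain ⟨d, hd⟩ : ∃ d, D.card = d + 1 := ⟨D.card - 1, by omega⟩
        rw [h4, hd, Nat.add_sub_cancel, pow_succ (2 : ℚ) d]
        field_simp
        ring
      have h2 : ∀ m : ℕ, ∑ D ∈ S.powerset.erase ∅, (-1 : ℚ) ^ D.card * (XX m 4 (NN ℓ D) *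
            ∏ i ∈ S \ D, EE m 4 (ℓ i) (NN ℓ D)) =
          ∑ D ∈ S.powerset, (-1 : ℚ) ^ D.card * (XX m 4 (NN ℓ D) *
            ∏ i ∈ S \ D, EE m 4 (ℓ i) (NN ℓ D)) - XX m 4 1 * ∏ i ∈ S, EE m 4 (ℓ i) 1 := by
        intro m
        rw [← add_sum_erase S.powerset _ (empty_mem_powerset S)]
        simp [NN]
      rw [h1, h2, h2]
      have h3 : (∑ D ∈ S.powerset, (-1 : ℚ) ^ D.card * (XX (j + 2) 4 (NN ℓ D) *
            ∏ i ∈ S \ D, EE (j + 2) 4 (ℓ i) (NN ℓ D)) - XX (j + 2) 4 1 * ∏ i ∈ S, EE (j + 2) 4 (ℓ i) 1 -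
            (∑ D ∈ S.powerset, (-1 : ℚ) ^ D.card * (XX 1 4 (NN ℓ D) *
            ∏ i ∈ S \ D, EE 1 4 (ℓ i) (NN ℓ D)) - XX 1 4 1 * ∏ i ∈ S, EE 1 4 (ℓ i) 1)) /
            (((j : ℚ) + 1) * 2 ^ S.card) =
          2 * (2 * (((∑ D ∈ S.powerset, (-1 : ℚ) ^ D.card * (XX (j + 2) 4 (NN ℓ D) *
            ∏ i ∈ S \ D, EE (j + 2) 4 (ℓ i) (NN ℓ D)) -
            ∑ D ∈ S.powerset, (-1 : ℚ) ^ D.card * (XX 1 4 (NN ℓ D) *
            ∏ i ∈ S \ D, EE 1 4 (ℓ i) (NN ℓ D))) / (4 * ((j : ℚ) + 1)) -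
              (-1 / (16 * NN ℓ S * ((j : ℚ) + 2)) + NN ℓ S / 12) * ∏ i ∈ S, ((ℓ i : ℚ) - 1)) / 2 ^ S.card))
          - 2 * (2 * (z0 * ∏ i ∈ S, (EE (j + 2) 4 (ℓ i) 1 / 2)))
          + ((∏ i ∈ S, (EE (j + 2) 4 (ℓ i) 1 / 2) -
            ∏ i ∈ S, (((ℓ i : ℚ) - 1) / ℓ i / 2)) / (2 * ((j : ℚ) + 2)) +
            (∏ i ∈ S, (EE (j + 2) 4 (ℓ i) 1 / 2) - ∏ i ∈ S, (EE 1 4 (ℓ i) 1 / 2)) / (2 * ((j : ℚ) + 1))) / 2
          + (NN ℓ S * ∏ i ∈ S, (((ℓ i : ℚ) - 1) / 2) - ∏ i ∈ S, (EE (j + 2) 4 (ℓ i) 1 / 2)) *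
            ((3 : ℤ) : ℚ)⁻¹ := by
        have hN : ((NN ℓ S : ℕ) : ℚ) = ∏ i ∈ S, (ℓ i : ℚ) := by unfold NN; push_cast; rfl
        have hN0 : (∏ i ∈ S, (ℓ i : ℚ)) ≠ 0 :=
          prod_ne_zero_iff.2 fun i _ => by exact_mod_cast (hℓ i).1.ne_zero
        have hX : XX (j + 2) 4 1 = -1 / 4 + (4 * ((j : ℚ) + 1)) *
            (-1 / (16 * ((j : ℚ) + 2)) + 1 / 12 + z0) := by
          rw [← hX0, XX_one_one]
          field_simp
          ring
        rw [hX, XX_one_one, hN]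
        simp only [prod_div_distrib, prod_const]
        push_cast
        field_simp
        ring
      rw [h3]
      have h7 : Zi (∏ i ∈ S, (EE (j + 2) 4 (ℓ i) 1 / 2)) :=
        Zi.prod S fun i _ => (hEE (j + 2) (by omega) i).zi
      have hNr : Rd ((NN ℓ S : ℕ) : ℚ) 1 := by
        have h := Rd_odd ((NN ℓ S : ℕ) : ℤ) (by have := NN_odd ℓ hℓ S; omega)
        push_cast at h
        exact h
      have h8 := ((hNr.mul (Rd.prod S fun i _ => Rd_ell (ℓ i) (hℓ i).2)).sub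
        (Rd.prod S fun i _ => hEE (j + 2) (by omega) i)).mul (Rd_odd 3 (by norm_num)).inv_odd
      rw [one_mul, CharTwo.add_self_eq_zero, zero_mul] at h8
      have h9 := (((Rd.two_mul ((Zi.int 2).mul hest)).sub
        (Rd.two_mul ((Zi.int 2).mul (hz0.mul h7)))).add (hU S)).add h8
      simp only [add_zero, zero_add] at h9
      push_cast at h9 ⊢
      exact h9
    have hSm : S ∈ S.powerset.erase ∅ := mem_erase.2 ⟨nonempty_iff_ne_empty.1 hS, mem_powerset_self S⟩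
    have hR := Rd_step (S.powerset.erase ∅) S hSm _ _ hB (by
      intro D hD hne
      have hDS := Finset.ssubset_iff_subset_ne.2 ⟨mem_powerset.1 (mem_of_mem_erase hD), hne⟩
      have hDn := nonempty_iff_ne_empty.2 (ne_of_mem_erase hD)
      refine Rd_pm ?_ _
      refine ((ih D hDS hDn).mul ?_).add ((main4 1 le_rfl ℓ hℓ hinj D hDn).mul ?_)
      · refine Rd.prod _ fun i hi => ?_
        have h6 := Rd_EE (j + 2) 4 (by omega) (Or.inl rfl) ℓ hℓ hinj D i (mem_sdiff.1 hi).2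
        rw [if_neg (by norm_num), add_zero] at h6
        exact h6
      · -- first order expansion; restrict to the indices outside `D`
        have h6 := Rd_prod_sub (S \ D) (2 * ((j : ℚ) + 1)) (by positivity)
          (fun i => if i ∈ D then 1 else EE (j + 2) 4 (ℓ i) (NN ℓ D) / 2)
          (fun i => if i ∈ D then 1 else EE 1 4 (ℓ i) (NN ℓ D) / 2)
          (fun i => if i ∈ D then 0 else -((rsg (nn (ℓ i) + ∑ j ∈ D, sy (ℓ i) (ℓ j)) : ℚ) *
            (((star (ℓ i) : ℚ) ^ (j + 1) - 1) / (4 * ((j : ℚ) + 1)))))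
          (fun i => if i ∈ D then 1 else (nn (ℓ i) + ∑ j ∈ D, sy (ℓ i) (ℓ j)))
          (fun i => if i ∈ D then 0 else lam (ℓ i)) ?_ ?_ ?_ ?_
        · convert h6 using 1
          · congr 2
            · exact prod_congr rfl fun i hi => by rw [if_neg (mem_sdiff.1 hi).2]
            · exact prod_congr rfl fun i hi => by rw [if_neg (mem_sdiff.1 hi).2]
          · refine sum_congr rfl fun i hi => ?_
            rw [if_neg (mem_sdiff.1 hi).2]
            congr 1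
            exact prod_congr rfl fun k hk => by
              rw [if_neg (mem_sdiff.1 (mem_of_mem_erase hk)).2]
        · intro i
          by_cases hi : i ∈ D
          · simp only [if_pos hi]; ring
          · simp only [if_neg hi]
            rw [EE_form _ ℓ hℓ hinj D i hi, EE_form _ ℓ hℓ hinj D i hi]
            simp only [show j + 2 - 1 = j + 1 by omega, Nat.sub_self, pow_zero]
            field_simp
            ring
        · intro i
          by_cases hi : i ∈ D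
          · simp only [if_pos hi]; exact Rd_one
          · simp only [if_neg hi]
            have h6 := Rd_EE (j + 2) 4 (by omega) (Or.inl rfl) ℓ hℓ hinj D i hi
            rw [if_neg (by norm_num), add_zero] at h6
            exact h6
        · intro i
          by_cases hi : i ∈ D
          · simp only [if_pos hi]; exact Rd_one
          · simp only [if_neg hi]
            have h6 := Rd_EE 1 4 le_rfl (Or.inl rfl) ℓ hℓ hinj D i hi
            rw [if_neg (by norm_num), add_zero] at h6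
            exact h6
        · intro i
          by_cases hi : i ∈ D
          · simp only [if_pos hi]
            have h := Rd.int 0
            simpa using h
          · simp only [if_neg hi]
            obtain ⟨b, hb, hb2⟩ := star_mod (ℓ i) (hℓ i).2
            have h1 := Rd_pow_sub (j + 1) (by omega) (star (ℓ i)) b hb
            rw [hb2] at h1
            have h3 := ((rsg_odd (nn (ℓ i) + ∑ j ∈ D, sy (ℓ i) (ℓ j))).mul h1).neg
            rw [one_mul] at h3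
            push_cast at h3
            exact h3)
    simp only [Finset.sdiff_self, prod_empty, mul_one, sub_self, zero_div, mul_zero, add_zero,
      sum_empty] at hR
    exact Rd_pm' _ hR

end Pool.Agent.TZB
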