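import Pool.Agent.TZB.Defs

set_option autoImplicit false

/-! RD: closure properties of `Rd`, `Zi`; divisibility facts. -/

namespace Pool.Agent.TZB

open Finset

theorem Zi_iff (x : ℚ) : Zi x ↔ ∃ c, Rd x c := by
  constructor
  · rintro ⟨z, hz⟩; exact ⟨_, z, hz, rfl⟩
  · rintro ⟨c, z, hz, _⟩; exact ⟨z, hz⟩

theorem Rd.zi {x : ℚ} {c : ZMod 2} (h : Rd x c) : Zi x := by
  obtain ⟨z, hz, _⟩ := h; exact ⟨z, hz⟩

theorem Rd.unique {x : ℚ} {c d : ZMod 2} (h : Rd x c) (h' : Rd x d) : c = d := by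
  obtain ⟨z, hz, hc⟩ := h
  obtain ⟨w, hw, hd⟩ := h'
  have : z = w := by
    apply Subtype.ext
    exact hz.trans hw.symm
  rw [← hc, ← hd, this]

theorem Rd.add {x y : ℚ} {c d : ZMod 2} (h : Rd x c) (h' : Rd y d) : Rd (x + y) (c + d) := by
  obtain ⟨z, hz, hc⟩ := h
  obtain ⟨w, hw, hd⟩ := h'
  refine ⟨z + w, ?_, by rw [map_add, hc, hd]⟩
  push_cast
  rw [hz, hw]

theorem Rd.neg {x : ℚ} {c : ZMod 2} (h : Rd x c) : Rd (-x) c := by
  obtain ⟨z, hz, hc⟩ := h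
  refine ⟨-z, ?_, by rw [map_neg, hc, CharTwo.neg_eq]⟩
  push_cast
  rw [hz]

theorem Rd.sub {x y : ℚ} {c d : ZMod 2} (h : Rd x c) (h' : Rd y d) : Rd (x - y) (c + d) := by
  rw [sub_eq_add_neg]; exact h.add h'.neg

theorem Rd.mul {x y : ℚ} {c d : ZMod 2} (h : Rd x c) (h' : Rd y d) : Rd (x * y) (c * d) := by
  obtain ⟨z, hz, hc⟩ := h
  obtain ⟨w, hw, hd⟩ := h'
  refine ⟨z * w, ?_, by rw [map_mul, hc, hd]⟩
  push_cast
  rw [hz, hw]

theorem Rd.int (a : ℤ) : Rd (a : ℚ) (a : ZMod 2) := by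
  refine ⟨(a : ℤ_[2]), ?_, by rw [map_intCast]⟩
  push_cast
  rfl

theorem Rd.nat (a : ℕ) : Rd (a : ℚ) (a : ZMod 2) := by
  have := Rd.int (a : ℤ)
  push_cast at this
  exact this

theorem Rd.pow {x : ℚ} {c : ZMod 2} (h : Rd x c) (n : ℕ) : Rd (x ^ n) (c ^ n) := by
  induction n with
  | zero => rw [pow_zero, pow_zero]; have := Rd.nat 1; simpa using this
  | succ n ih => rw [pow_succ, pow_succ]; exact ih.mul h

theorem Rd.sum {κ : Type*} (s : Finset κ) {f : κ → ℚ} {c : κ → ZMod 2} (h : ∀ i ∈ s, Rd (f i) (c i)) :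
    Rd (∑ i ∈ s, f i) (∑ i ∈ s, c i) := by
  classical
  induction s using Finset.induction_on with
  | empty => have := Rd.nat 0; simpa using this
  | insert i s hi ih =>
    rw [Finset.sum_insert hi, Finset.sum_insert hi]
    exact (h i (mem_insert_self _ _)).add (ih fun j hj => h j (mem_insert_of_mem hj))

theorem Rd.prod {κ : Type*} (s : Finset κ) {f : κ → ℚ} {c : κ → ZMod 2}
    (h : ∀ i ∈ s, Rd (f i) (c i)) : Rd (∏ i ∈ s, f i) (∏ i ∈ s, c i) := by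
  classical
  induction s using Finset.induction_on with
  | empty => have := Rd.nat 1; simpa using this
  | insert i s hi ih =>
    rw [Finset.prod_insert hi, Finset.prod_insert hi]
    exact (h i (mem_insert_self _ _)).mul (ih fun j hj => h j (mem_insert_of_mem hj))

theorem Rd.two_mul {x : ℚ} (h : Zi x) : Rd (2 * x) 0 := by
  obtain ⟨c, hc⟩ := (Zi_iff x).1 h
  have := (Rd.nat 2).mul hc
  have e : ((2 : ℕ) : ZMod 2) = 0 := by decide
  rw [e, zero_mul] at this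
  exact_mod_cast this

theorem Rd.congr {x y : ℚ} {c : ZMod 2} (h : Rd x c) (h' : Zi ((y - x) / 2)) : Rd y c := by
  have := h.add (Rd.two_mul h')
  rw [add_zero] at this
  have e : x + 2 * ((y - x) / 2) = y := by ring
  rwa [e] at this

theorem isUnit_of_toZMod {z : ℤ_[2]} (h : PadicInt.toZMod z = 1) : IsUnit z := by
  by_contra hu
  have h1 : z ∈ IsLocalRing.maximalIdeal ℤ_[2] := (IsLocalRing.mem_maximalIdeal _).2 hu
  rw [← PadicInt.ker_toZMod, RingHom.mem_ker, h] at h1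
  exact one_ne_zero h1

/-- odd integers are units -/
theorem Rd.inv_odd {x : ℚ} (h : Rd x 1) : Rd x⁻¹ 1 := by
  obtain ⟨z, hz, hc⟩ := h
  obtain ⟨u, hu⟩ := isUnit_of_toZMod hc
  refine ⟨(u⁻¹ : ℤ_[2]ˣ), ?_, ?_⟩
  · push_cast
    rw [← hz, ← hu]
    have h1 : ((u : ℤ_[2]) : ℚ_[2]) * (((u⁻¹ : ℤ_[2]ˣ) : ℤ_[2]) : ℚ_[2]) = 1 := by
      rw [← PadicInt.coe_mul, Units.mul_inv, PadicInt.coe_one]
    exact eq_inv_of_mul_eq_one_right h1
  · have h1 : PadicInt.toZMod ((u : ℤ_[2]) * ((u⁻¹ : ℤ_[2]ˣ) : ℤ_[2])) = 1 := by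
      rw [Units.mul_inv, map_one]
    rw [map_mul, hu, hc, one_mul] at h1
    exact h1

theorem Rd.norm_one {x : ℚ} (h : Rd x 1) : ‖(x : ℚ_[2])‖ = 1 := by
  obtain ⟨z, hz, hc⟩ := h
  rw [← hz, ← PadicInt.norm_def]
  exact PadicInt.isUnit_iff.1 (isUnit_of_toZMod hc)

theorem Zi.add {x y : ℚ} (h : Zi x) (h' : Zi y) : Zi (x + y) := by
  obtain ⟨c, hc⟩ := (Zi_iff x).1 h
  obtain ⟨d, hd⟩ := (Zi_iff y).1 h'
  exact (hc.add hd).zi

theorem Zi.neg {x : ℚ} (h : Zi x) : Zi (-x) := by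
  obtain ⟨c, hc⟩ := (Zi_iff x).1 h
  exact hc.neg.zi

theorem Zi.sub {x y : ℚ} (h : Zi x) (h' : Zi y) : Zi (x - y) := by
  rw [sub_eq_add_neg]; exact h.add h'.neg

theorem Zi.mul {x y : ℚ} (h : Zi x) (h' : Zi y) : Zi (x * y) := by
  obtain ⟨c, hc⟩ := (Zi_iff x).1 h
  obtain ⟨d, hd⟩ := (Zi_iff y).1 h'
  exact (hc.mul hd).zi

theorem Zi.pow {x : ℚ} (h : Zi x) (n : ℕ) : Zi (x ^ n) := by
  obtain ⟨c, hc⟩ := (Zi_iff x).1 h
  exact (hc.pow n).zi

theorem Zi.int (a : ℤ) : Zi (a : ℚ) := (Rd.int a).zi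

theorem Zi.nat (a : ℕ) : Zi (a : ℚ) := (Rd.nat a).zi

theorem Zi.sum {κ : Type*} (s : Finset κ) {f : κ → ℚ} (h : ∀ i ∈ s, Zi (f i)) :
    Zi (∑ i ∈ s, f i) := by
  classical
  induction s using Finset.induction_on with
  | empty => have := Zi.nat 0; simpa using this
  | insert i s hi ih =>
    rw [Finset.sum_insert hi]
    exact (h i (mem_insert_self _ _)).add (ih fun j hj => h j (mem_insert_of_mem hj))

theorem Zi.prod {κ : Type*} (s : Finset κ) {f : κ → ℚ} (h : ∀ i ∈ s, Zi (f i)) :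
    Zi (∏ i ∈ s, f i) := by
  classical
  induction s using Finset.induction_on with
  | empty => have := Zi.nat 1; simpa using this
  | insert i s hi ih =>
    rw [Finset.prod_insert hi]
    exact (h i (mem_insert_self _ _)).mul (ih fun j hj => h j (mem_insert_of_mem hj))

theorem Zi.inv_odd {m : ℕ} (h : m % 2 = 1) : Zi ((m : ℚ)⁻¹) := by
  have h1 := Rd.nat m
  have e : ((m : ℕ) : ZMod 2) = 1 := by
    rw [← Nat.div_add_mod m 2, h]
    push_cast
    have : (2 : ZMod 2) = 0 := by decide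
    rw [this]; ring
  rw [e] at h1
  exact h1.inv_odd.zi

/-- `2^(k-1) / k` is integral at 2 -/
theorem Zi_pow_div (k : ℕ) (hk : 1 ≤ k) : Zi ((2 : ℚ) ^ (k - 1) / k) := by
  obtain ⟨v, m, hm, rfl⟩ := Nat.exists_eq_two_pow_mul_odd (by omega : k ≠ 0)
  have hv : v ≤ 2 ^ v * m - 1 := by
    have h1 : v < 2 ^ v := Nat.lt_two_pow_self
    have h2 : 1 ≤ m := hm.pos
    have h3 : 2 ^ v ≤ 2 ^ v * m := Nat.le_mul_of_pos_right _ h2
    omega
  have e : (2 : ℚ) ^ (2 ^ v * m - 1) / ((2 ^ v * m : ℕ) : ℚ) =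
      (2 : ℚ) ^ (2 ^ v * m - 1 - v) * ((m : ℚ))⁻¹ := by
    have h1 : (2 : ℚ) ^ (2 ^ v * m - 1) = 2 ^ (2 ^ v * m - 1 - v) * 2 ^ v := by
      rw [← pow_add]; congr 1; omega
    rw [h1]
    push_cast
    have h2 : (m : ℚ) ≠ 0 := by
      have := hm.pos
      positivity
    field_simp
  rw [e]
  refine Zi.mul ?_ (Zi.inv_odd (Nat.odd_iff.1 hm))
  have := (Zi.nat 2).pow (2 ^ v * m - 1 - v)
  exact_mod_cast this

/-- `(a^n - 1) / (4 n)` is integral with the residue of `(a - 1) / 4`, for `a = 1 mod 4` -/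
theorem Rd_pow_sub (n : ℕ) (hn : 1 ≤ n) (a b : ℤ) (ha : a = 1 + 4 * b) :
    Rd (((a : ℚ) ^ n - 1) / (4 * n)) (b : ZMod 2) := by
  obtain ⟨k, rfl⟩ : ∃ k, n = k + 1 := ⟨n - 1, by omega⟩
  have hk0 : ((k + 1 : ℕ) : ℚ) ≠ 0 := by positivity
  have e : ((a : ℚ) ^ (k + 1) - 1) / (4 * ((k + 1 : ℕ) : ℚ)) =
      ∑ j ∈ range (k + 1), ((k.choose j : ℕ) : ℚ) * (b : ℚ) ^ (j + 1) * (4 ^ j / ((j + 1 : ℕ) : ℚ)) := by
    rw [ha]
    push_cast
    rw [add_comm (1 : ℚ), add_pow, Finset.sum_range_succ']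
    simp only [one_pow, mul_one, pow_zero, Nat.choose_zero_right, Nat.cast_one]
    rw [add_sub_cancel_right, Finset.sum_div]
    refine Finset.sum_congr rfl fun j _ => ?_
    have h1 : ((k + 1).choose (j + 1) : ℚ) = ((k + 1 : ℕ) : ℚ) * (k.choose j : ℚ) / ((j + 1 : ℕ) : ℚ) := by
      have h2 := Nat.add_one_mul_choose_eq k j
      have h3 : ((k + 1 : ℕ) : ℚ) * (k.choose j : ℚ) = ((k + 1).choose (j + 1) : ℚ) * ((j + 1 : ℕ) : ℚ) := by
        exact_mod_cast h2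
      rw [h3]
      field_simp
    rw [h1]
    push_cast
    have h4 : ((k : ℚ) + 1) ≠ 0 := by positivity
    have h5 : ((j : ℚ) + 1) ≠ 0 := by positivity
    field_simp
    ring
  rw [e, Finset.sum_range_succ']
  have h0 : Rd (((k.choose 0 : ℕ) : ℚ) * (b : ℚ) ^ (0 + 1) * (4 ^ 0 / ((0 + 1 : ℕ) : ℚ))) (b : ZMod 2) := by
    have := Rd.int b
    simpa using this
  have h1 : Rd (∑ j ∈ range k, ((k.choose (j + 1) : ℕ) : ℚ) * (b : ℚ) ^ (j + 1 + 1) *
      (4 ^ (j + 1) / ((j + 1 + 1 : ℕ) : ℚ))) (∑ _j ∈ range k, 0) := by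
    refine Rd.sum _ fun j _ => ?_
    have h2 : ((k.choose (j + 1) : ℕ) : ℚ) * (b : ℚ) ^ (j + 1 + 1) *
        (4 ^ (j + 1) / ((j + 1 + 1 : ℕ) : ℚ)) = 2 * (((k.choose (j + 1) : ℕ) : ℚ) *
          (b : ℚ) ^ (j + 1 + 1) * (((2 : ℕ) : ℚ) ^ j * (2 ^ (j + 1 + 1 - 1) / ((j + 1 + 1 : ℕ) : ℚ)))) := by
      have h3 : (4 : ℚ) ^ (j + 1) = 2 * (2 ^ j * 2 ^ (j + 1)) := by
        have : (4 : ℚ) = 2 * 2 := by norm_num
        rw [this, mul_pow, pow_succ]
        ring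
      rw [h3, Nat.add_sub_cancel]
      push_cast
      ring
    rw [h2]
    exact Rd.two_mul ((((Zi.nat _).mul ((Zi.int b).pow _))).mul
      (((Zi.nat 2).pow j).mul (Zi_pow_div (j + 1 + 1) (by omega))))
  have h9 := h1.add h0
  have e9 : (∑ _j ∈ range k, (0 : ZMod 2)) + (b : ZMod 2) = (b : ZMod 2) := by
    rw [Finset.sum_const_zero, zero_add]
  exact e9 ▸ h9

/-- `2 B_k` is integral at 2 -/
theorem Zi_bernoulli (k : ℕ) : Zi (2 * bernoulli k) := by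
  induction k using Nat.strong_induction_on with
  | _ k ih =>
    have h := sum_range_pow 2 k
    have e1 : ∑ j ∈ range 2, (j : ℚ) ^ k = if k = 0 then 2 else 1 := by
      rw [Finset.sum_range_succ, Finset.sum_range_one]
      split_ifs with hk
      · subst hk; norm_num
      · rw [Nat.cast_zero, zero_pow hk]; norm_num
    rw [e1, Finset.sum_range_succ] at h
    have e2 : bernoulli k * ((k + 1).choose k : ℚ) * ((2 : ℕ) : ℚ) ^ (k + 1 - k) / (k + 1) =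
        2 * bernoulli k := by
      rw [Nat.choose_succ_self_right, Nat.add_sub_cancel_left]
      push_cast
      have : (k : ℚ) + 1 ≠ 0 := by positivity
      field_simp
    rw [e2] at h
    have h3 : 2 * bernoulli k = (if k = 0 then (2 : ℚ) else 1) -
        ∑ x ∈ range k, bernoulli x * ((k + 1).choose x : ℚ) * ((2 : ℕ) : ℚ) ^ (k + 1 - x) / (k + 1) := by
      rw [h]; ring
    rw [h3]
    refine Zi.sub ?_ (Zi.sum _ fun i hi => ?_)
    · split_ifs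
      · have := Zi.nat 2; exact_mod_cast this
      · have := Zi.nat 1; exact_mod_cast this
    · rw [mem_range] at hi
      have h4 : bernoulli i * ((k + 1).choose i : ℚ) * ((2 : ℕ) : ℚ) ^ (k + 1 - i) / (k + 1) =
          (2 * bernoulli i) * (k.choose i : ℚ) * (2 ^ (k + 1 - i - 1) / ((k + 1 - i : ℕ) : ℚ)) := by
        have h5 : ((k + 1).choose i : ℚ) * ((k + 1 - i : ℕ) : ℚ) = ((k + 1 : ℕ) : ℚ) * (k.choose i : ℚ) := by
          have := Nat.choose_mul_succ_eq k i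
          have h6 : (k.choose i : ℚ) * ((k + 1 : ℕ) : ℚ) = ((k + 1).choose i : ℚ) * ((k + 1 - i : ℕ) : ℚ) := by
            exact_mod_cast this
          rw [← h6]; ring
        have h7 : ((k + 1 - i : ℕ) : ℚ) ≠ 0 := by
          have : 0 < k + 1 - i := by omega
          positivity
        have h8 : ((k + 1).choose i : ℚ) = ((k + 1 : ℕ) : ℚ) * (k.choose i : ℚ) / ((k + 1 - i : ℕ) : ℚ) := by
          rw [eq_div_iff h7, h5]
        have h9 : (2 : ℚ) ^ (k + 1 - i) = 2 * 2 ^ (k + 1 - i - 1) := by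
          rw [← pow_succ']; congr 1; omega
        rw [h8]
        push_cast
        rw [h9]
        have h10 : (k : ℚ) + 1 ≠ 0 := by positivity
        field_simp
      rw [h4]
      exact ((ih i hi).mul (Zi.nat _)).mul (Zi_pow_div _ (by omega))

end Pool.Agent.TZB
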