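import Pool.Agent.TZB.EUL
import Pool.Agent.TZB.EST
import Pool.Agent.TZB.CMB

set_option autoImplicit false

/-! REC: the digits of `XX`. -/

namespace Pool.Agent.TZB

open Finset

variable {ι : Type*} [Fintype ι] [DecidableEq ι]

/-- sign of a residue -/
def rsg (s : ZMod 2) : ℤ := if s = 0 then 1 else -1

theorem rsg_add (a b : ZMod 2) : rsg (a + b) = rsg a * rsg b := by
  revert a b; decide

theorem rsg_sum {κ : Type*} (D : Finset κ) (f : κ → ZMod 2) :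
    rsg (∑ j ∈ D, f j) = ∏ j ∈ D, rsg (f j) := by
  classical
  induction D using Finset.induction_on with
  | empty => simp [rsg]
  | insert a D ha ih => rw [sum_insert ha, prod_insert ha, rsg_add, ih]

theorem rsg_nn (l : ℕ) : sgs l = rsg (nn l) := by
  unfold sgs nn rsg
  split_ifs <;> simp_all

theorem rsg_lam (l : ℕ) (h : l % 2 = 1) : wt 8 l = rsg (lam l) := by
  have h1 : ZMod.χ₈ ((l : ℤ) : ZMod 8) = if l % 2 = 0 then 0 else if l % 8 = 1 ∨ l % 8 = 7 then 1 else -1 := by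
    rw [← ZMod.χ₈_nat_eq_if_mod_eight]
    norm_cast
  unfold wt
  rw [if_pos rfl, h1, if_neg (by omega)]
  unfold lam rsg
  by_cases h3 : l % 8 = 3 ∨ l % 8 = 5
  · rw [if_pos h3, if_neg (by omega)]
    simp
  · rw [if_neg h3, if_pos (by omega)]
    simp

theorem rsg_sy (p q : ℕ) (hp : p.Prime) (hq : q.Prime) (hpq : p ≠ q) :
    jacobiSym (q : ℤ) p = rsg (sy p q) := by
  have h1 : Int.gcd (q : ℤ) p = 1 := by
    rw [Int.gcd_natCast_natCast]
    exact (Nat.coprime_primes hq hp).2 hpq.symm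
  unfold sy rsg
  rcases jacobiSym.eq_one_or_neg_one h1 with h | h
  · rw [h]; norm_num
  · rw [h]; norm_num

theorem star_eq (l : ℕ) : star l = sgs l * l := by
  unfold star sgs
  split_ifs <;> simp

theorem sgs_sq (l : ℕ) : sgs l * sgs l = 1 := by
  unfold sgs
  split_ifs <;> simp

theorem star_mod (l : ℕ) (h : l % 2 = 1) : ∃ b : ℤ, star l = 1 + 4 * b ∧ (b : ZMod 2) = lam l := by
  unfold star lam
  by_cases h3 : l % 4 = 3
  · rw [if_pos h3]
    obtain ⟨m, hm⟩ : ∃ m : ℤ, (l : ℤ) = 4 * m + 3 := ⟨(l : ℤ) / 4, by omega⟩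
    refine ⟨-m - 1, by omega, ?_⟩
    by_cases h8 : l % 8 = 3 ∨ l % 8 = 5
    · rw [if_pos h8]
      obtain ⟨k, hk⟩ : ∃ k : ℤ, -m - 1 = 2 * k + 1 := ⟨(-m - 1) / 2, by omega⟩
      rw [hk]
      push_cast
      rw [show (2 : ZMod 2) = 0 from rfl]
      ring
    · rw [if_neg h8]
      obtain ⟨k, hk⟩ : ∃ k : ℤ, -m - 1 = 2 * k := ⟨(-m - 1) / 2, by omega⟩
      rw [hk]
      push_cast
      rw [show (2 : ZMod 2) = 0 from rfl]
      ring
  · rw [if_neg h3]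
    obtain ⟨m, hm⟩ : ∃ m : ℤ, (l : ℤ) = 1 + 4 * m := ⟨(l : ℤ) / 4, by omega⟩
    refine ⟨m, by omega, ?_⟩
    by_cases h8 : l % 8 = 3 ∨ l % 8 = 5
    · rw [if_pos h8]
      obtain ⟨k, hk⟩ : ∃ k : ℤ, m = 2 * k + 1 := ⟨m / 2, by omega⟩
      rw [hk]
      push_cast
      rw [show (2 : ZMod 2) = 0 from rfl]
      ring
    · rw [if_neg h8]
      obtain ⟨k, hk⟩ : ∃ k : ℤ, m = 2 * k := ⟨m / 2, by omega⟩
      rw [hk]
      push_cast
      rw [show (2 : ZMod 2) = 0 from rfl]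
      ring

/-- reciprocity -/
theorem jac_star (l q : ℕ) (hl : l % 2 = 1) (hq : q % 2 = 1) :
    jacobiSym (star l) q = jacobiSym q l := by
  unfold star
  by_cases h3 : l % 4 = 3
  · rw [if_pos h3, jacobiSym.neg _ (Nat.odd_iff.2 hq)]
    by_cases h4 : q % 4 = 3
    · rw [ZMod.χ₄_nat_three_mod_four h4, jacobiSym.quadratic_reciprocity_three_mod_four h3 h4]
      ring
    · rw [ZMod.χ₄_nat_one_mod_four (by omega),
        jacobiSym.quadratic_reciprocity_one_mod_four (a := q) (by omega) (Nat.odd_iff.2 hl)]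
      ring
  · rw [if_neg h3, jacobiSym.quadratic_reciprocity_one_mod_four (by omega) (Nat.odd_iff.2 hq)]

theorem NN_odd (ℓ : ι → ℕ) (hℓ : ∀ i, (ℓ i).Prime ∧ ℓ i % 2 = 1) (D : Finset ι) : NN ℓ D % 2 = 1 := by
  unfold NN
  induction D using Finset.induction_on with
  | empty => simp
  | insert a D ha ih => rw [prod_insert ha, Nat.mul_mod, ih, (hℓ a).2]

theorem jac_NN (a : ℤ) (ℓ : ι → ℕ) (hℓ : ∀ i, (ℓ i).Prime ∧ ℓ i % 2 = 1) (D : Finset ι) :
    jacobiSym a (NN ℓ D) = ∏ j ∈ D, jacobiSym a (ℓ j) := by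
  unfold NN
  induction D using Finset.induction_on with
  | empty => simp
  | insert b D hb ih =>
    rw [prod_insert hb, prod_insert hb]
    haveI : NeZero (ℓ b) := ⟨(hℓ b).1.ne_zero⟩
    haveI : NeZero (∏ i ∈ D, ℓ i) := ⟨Finset.prod_ne_zero_iff.2 fun i _ => (hℓ i).1.ne_zero⟩
    rw [jacobiSym.mul_right, ih]

/-- `(1 - A u) / 2` for `u = 1 mod 4`, `A` a sign -/
theorem Rd_half (s : ZMod 2) (u : ℤ) (hu : u % 4 = 1) : Rd ((1 - (rsg s : ℚ) * (u : ℚ)) / 2) s := by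
  obtain ⟨m, hm⟩ : ∃ m : ℤ, u = 1 + 4 * m := ⟨u / 4, by omega⟩
  have key : ∀ s : ZMod 2, s = 0 ∨ s = 1 := by decide
  rcases key s with h | h
  · subst h
    have h1 : (1 - (rsg 0 : ℚ) * (u : ℚ)) / 2 = ((-2 * m : ℤ) : ℚ) := by
      rw [hm]; simp [rsg]; ring
    rw [h1]
    have h2 := Rd.int (-2 * m)
    have h3 : (((-2 * m : ℤ)) : ZMod 2) = 0 := by
      push_cast
      rw [show (2 : ZMod 2) = 0 from rfl]
      ring
    rw [h3] at h2
    exact h2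
  · subst h
    have h1 : (1 - (rsg 1 : ℚ) * (u : ℚ)) / 2 = ((1 + 2 * m : ℤ) : ℚ) := by
      rw [hm]; simp [rsg]; ring
    rw [h1]
    have h2 := Rd.int (1 + 2 * m)
    have h3 : (((1 + 2 * m : ℤ)) : ZMod 2) = 1 := by
      push_cast
      rw [show (2 : ZMod 2) = 0 from rfl]
      ring
    rw [h3] at h2
    exact h2

theorem pow_mod4 (a : ℤ) (ha : a % 4 = 1) (n : ℕ) : a ^ n % 4 = 1 := by
  induction n with
  | zero => simp
  | succ n ih => rw [pow_succ, Int.mul_emod, ih, ha]; norm_num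

/-- Euler factors: half of `EE` has residue `s_i + (l_i) + sum_{j in D} R_ij` -/
theorem Rd_EE (n c : ℕ) (hn : 1 ≤ n) (hc : c = 4 ∨ c = 8) (ℓ : ι → ℕ)
    (hℓ : ∀ i, (ℓ i).Prime ∧ ℓ i % 2 = 1) (hinj : Function.Injective ℓ) (D : Finset ι) (i : ι)
    (hi : i ∉ D) :
    Rd (EE n c (ℓ i) (NN ℓ D) / 2)
      (nn (ℓ i) + (if c = 8 then lam (ℓ i) else 0) + ∑ j ∈ D, sy (ℓ i) (ℓ j)) := by
  obtain ⟨b, hb, -⟩ := star_mod (ℓ i) (hℓ i).2
  have hu := pow_mod4 (star (ℓ i)) (by omega) (n - 1)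
  have h1 := Rd_half (nn (ℓ i) + (if c = 8 then lam (ℓ i) else 0) + ∑ j ∈ D, sy (ℓ i) (ℓ j)) _ hu
  have h2 : EE n c (ℓ i) (NN ℓ D) =
      1 - (rsg (nn (ℓ i) + (if c = 8 then lam (ℓ i) else 0) + ∑ j ∈ D, sy (ℓ i) (ℓ j)) : ℚ) *
        ((star (ℓ i) ^ (n - 1) : ℤ) : ℚ) := by
    have h3 : jacobiSym (star (ℓ i)) (NN ℓ D) = rsg (∑ j ∈ D, sy (ℓ i) (ℓ j)) := by
      rw [jac_NN _ ℓ hℓ, rsg_sum]
      refine prod_congr rfl fun j hj => ?_
      rw [jac_star _ _ (hℓ i).2 (hℓ j).2, rsg_sy _ _ (hℓ i).1 (hℓ j).1]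
      intro h
      exact hi ((hinj h) ▸ hj)
    have h4 : wt c (ℓ i) = rsg (if c = 8 then lam (ℓ i) else 0) := by
      rcases hc with h | h
      · subst h
        simp [wt, rsg]
      · subst h
        rw [rsg_lam _ (hℓ i).2]
        simp
    unfold EE
    rw [h3, h4, rsg_nn, rsg_add, rsg_add]
    push_cast
    ring
  rw [h2]
  exact h1

/-- first order expansion of a difference of products -/
theorem Rd_prod_sub (S : Finset ι) (N : ℚ) (hN : N ≠ 0) (x y k : ι → ℚ) (s l : ι → ZMod 2)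
    (hxy : ∀ i, x i - y i = N * k i) (hx : ∀ i, Rd (x i) (s i)) (hy : ∀ i, Rd (y i) (s i))
    (hk : ∀ i, Rd (k i) (l i)) :
    Rd ((∏ i ∈ S, x i - ∏ i ∈ S, y i) / N) (∑ i ∈ S, l i * ∏ j ∈ S.erase i, s j) := by
  induction S using Finset.induction_on with
  | empty =>
    have h := Rd.int 0
    simpa using h
  | insert a S ha ih =>
    have h1 : (∏ i ∈ insert a S, x i - ∏ i ∈ insert a S, y i) / N =
        k a * ∏ i ∈ S, x i + y a * ((∏ i ∈ S, x i - ∏ i ∈ S, y i) / N) := by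
      rw [prod_insert ha, prod_insert ha]
      have := hxy a
      field_simp
      linear_combination (∏ i ∈ S, x i) * this
    have h2 : ∑ i ∈ insert a S, l i * ∏ j ∈ (insert a S).erase i, s j =
        l a * ∏ i ∈ S, s i + s a * ∑ i ∈ S, l i * ∏ j ∈ S.erase i, s j := by
      rw [sum_insert ha, erase_insert ha, mul_sum]
      congr 1
      refine sum_congr rfl fun i hi => ?_
      have hai : a ≠ i := fun h => ha (h ▸ hi)
      rw [erase_insert_of_ne hai, prod_insert (fun h => ha (mem_of_mem_erase h))]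
      ring
    rw [h1, h2]
    exact ((hk a).mul (Rd.prod S fun i _ => hx i)).add ((hy a).mul ih)

theorem Rd_pm {x : ℚ} {c : ZMod 2} (h : Rd x c) (m : ℕ) : Rd ((-1) ^ m * x) c := by
  rcases neg_one_pow_eq_or ℚ m with h1 | h1
  · rw [h1, one_mul]; exact h
  · rw [h1, neg_one_mul]; exact h.neg

theorem Rd_pm' {x : ℚ} {c : ZMod 2} (m : ℕ) (h : Rd ((-1) ^ m * x) c) : Rd x c := by
  rcases neg_one_pow_eq_or ℚ m with h1 | h1
  · rw [h1, one_mul] at h; exact h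
  · rw [h1, neg_one_mul] at h
    have := h.neg
    rwa [neg_neg] at this

theorem Rd_ell (l : ℕ) (hl : l % 2 = 1) : Rd (((l : ℚ) - 1) / 2) (nn l) := by
  unfold nn
  by_cases h3 : l % 4 = 3
  · rw [if_pos h3]
    obtain ⟨m, hm⟩ : ∃ m : ℕ, l = 4 * m + 3 := ⟨l / 4, by omega⟩
    have h1 : ((l : ℚ) - 1) / 2 = ((2 * m + 1 : ℤ) : ℚ) := by
      rw [hm]; push_cast; ring
    rw [h1]
    have h2 := Rd.int (2 * m + 1)
    have h3 : (((2 * m + 1 : ℤ)) : ZMod 2) = 1 := by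
      push_cast
      rw [show (2 : ZMod 2) = 0 from rfl]
      ring
    rw [h3] at h2
    exact h2
  · rw [if_neg h3]
    obtain ⟨m, hm⟩ : ∃ m : ℕ, l = 4 * m + 1 := ⟨l / 4, by omega⟩
    have h1 : ((l : ℚ) - 1) / 2 = ((2 * m : ℤ) : ℚ) := by
      rw [hm]; push_cast; ring
    rw [h1]
    have h2 := Rd.int (2 * m)
    have h3 : (((2 * m : ℤ)) : ZMod 2) = 0 := by
      push_cast
      rw [show (2 : ZMod 2) = 0 from rfl]
      ring
    rw [h3] at h2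
    exact h2

theorem Rd_one : Rd 1 1 := by
  have h := Rd.int 1
  simpa using h

theorem Rd_odd (a : ℤ) (h : a % 2 = 1) : Rd (a : ℚ) 1 := by
  obtain ⟨k, hk⟩ : ∃ k : ℤ, a = 2 * k + 1 := ⟨a / 2, by omega⟩
  have h2 := Rd.int a
  have h3 : (a : ZMod 2) = 1 := by
    rw [hk]
    push_cast
    rw [show (2 : ZMod 2) = 0 from rfl]
    ring
  rw [h3] at h2
  exact h2

/-- one term of a sum with known residues of the sum and of the other terms -/
theorem Rd_step {κ : Type*} [DecidableEq κ] (P : Finset κ) (S : κ) (hSP : S ∈ P) (f : κ → ℚ)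
    (g : κ → ZMod 2) (h : Rd (∑ D ∈ P, f D) (∑ D ∈ P, g D))
    (h' : ∀ D ∈ P, D ≠ S → Rd (f D) (g D)) : Rd (f S) (g S) := by
  have h1 : f S = ∑ D ∈ P, f D - ∑ D ∈ P.erase S, f D := by
    rw [← add_sum_erase P f hSP]; ring
  have h2 : g S = ∑ D ∈ P, g D + ∑ D ∈ P.erase S, g D := by
    rw [← add_sum_erase P g hSP, add_assoc, CharTwo.add_self_eq_zero, add_zero]
  rw [h1, h2]
  exact h.sub (Rd.sum _ fun D hD => h' D (mem_of_mem_erase hD) (ne_of_mem_erase hD))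

theorem main8 (n : ℕ) (hn : 1 ≤ n) (ℓ : ι → ℕ) (hℓ : ∀ i, (ℓ i).Prime ∧ ℓ i % 2 = 1)
    (hinj : Function.Injective ℓ) (S : Finset ι) :
    Rd (2 * XX n 8 (NN ℓ S) / 2 ^ S.card) (F8 (fun i j => sy (ℓ i) (ℓ j)) (fun i => lam (ℓ i)) S) := by
  induction S using Finset.strongInduction with
  | H S ih =>
    have hkey := key n 8 hn (Or.inr rfl) ℓ hℓ hinj S
    have hest := est8 n hn ℓ hℓ hinj S
    rw [← hkey] at hest
    clear hkey
    have hB : Rd (∑ D ∈ S.powerset, (-1 : ℚ) ^ D.card * (2 * XX n 8 (NN ℓ D) / 2 ^ D.card *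
        ∏ i ∈ S \ D, (EE n 8 (ℓ i) (NN ℓ D) / 2))) (∑ D ∈ S.powerset,
          F8 (fun i j => sy (ℓ i) (ℓ j)) (fun i => lam (ℓ i)) D *
            ∏ i ∈ S \ D, (nn (ℓ i) + lam (ℓ i) + ∑ j ∈ D, sy (ℓ i) (ℓ j))) := by
      rw [F8_rec]
      have h1 : ∑ D ∈ S.powerset, (-1 : ℚ) ^ D.card * (2 * XX n 8 (NN ℓ D) / 2 ^ D.card *
          ∏ i ∈ S \ D, (EE n 8 (ℓ i) (NN ℓ D) / 2)) =
          -(∏ i ∈ S, (((ℓ i : ℚ) - 1) / 2)) +
          2 * ((∑ D ∈ S.powerset, (-1 : ℚ) ^ D.card * (XX n 8 (NN ℓ D) *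
            ∏ i ∈ S \ D, EE n 8 (ℓ i) (NN ℓ D)) + 1 / 2 * ∏ i ∈ S, ((ℓ i : ℚ) - 1)) /
            2 ^ S.card) := by
        rw [prod_div_distrib, prod_const, add_div, mul_add, sum_div, mul_sum]
        have h3 : ∀ x : ℚ, -(x / 2 ^ S.card) + (∑ D ∈ S.powerset, 2 * ((-1 : ℚ) ^ D.card * (XX n 8 (NN ℓ D) *
            ∏ i ∈ S \ D, EE n 8 (ℓ i) (NN ℓ D)) / 2 ^ S.card) + 2 * (1 / 2 * x / 2 ^ S.card)) =
            ∑ D ∈ S.powerset, 2 * ((-1 : ℚ) ^ D.card * (XX n 8 (NN ℓ D) *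
            ∏ i ∈ S \ D, EE n 8 (ℓ i) (NN ℓ D)) / 2 ^ S.card) := by
          intro x; ring
        rw [h3]
        refine sum_congr rfl fun D hD => ?_
        rw [prod_div_distrib, prod_const]
        have h4 : (2 : ℚ) ^ S.card = 2 ^ D.card * 2 ^ (S \ D).card := by
          rw [← pow_add, add_comm, card_sdiff_add_card_eq_card (mem_powerset.1 hD)]
        rw [h4]
        field_simp
      rw [h1]
      have h5 := (Rd.prod S fun i _ => Rd_ell (ℓ i) (hℓ i).2).neg.add (Rd.two_mul hest)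
      rw [add_zero] at h5
      exact h5
    have hS := Rd_step S.powerset S (mem_powerset_self S) _ _ hB (by
      intro D hD hne
      refine Rd_pm ?_ _
      refine (ih D (Finset.ssubset_iff_subset_ne.2 ⟨mem_powerset.1 hD, hne⟩)).mul ?_
      refine Rd.prod _ fun i hi => ?_
      have h6 := Rd_EE n 8 hn (Or.inr rfl) ℓ hℓ hinj D i (mem_sdiff.1 hi).2
      rw [if_pos rfl] at h6
      exact h6)
    simp only [Finset.sdiff_self, prod_empty, mul_one] at hS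
    exact Rd_pm' _ hS

theorem main4 (n : ℕ) (hn : 1 ≤ n) (ℓ : ι → ℕ) (hℓ : ∀ i, (ℓ i).Prime ∧ ℓ i % 2 = 1)
    (hinj : Function.Injective ℓ) (S : Finset ι) (hS : S.Nonempty) :
    Rd (XX n 4 (NN ℓ S) / 2 ^ (S.card - 1)) (F4 (fun i j => sy (ℓ i) (ℓ j)) (fun i => lam (ℓ i)) S) := by
  have hn0 : (n : ℚ) ≠ 0 := by
    have : n ≠ 0 := by omega
    exact_mod_cast this
  -- the empty set
  obtain ⟨z0, hz0, hX0⟩ : ∃ z0 : ℚ, Zi z0 ∧ XX n 4 1 = 1 / (4 * n) - 1 / 2 + z0 := by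
    have hest := est4 n hn ℓ hℓ hinj ∅
    have hkey := key n 4 hn (Or.inl rfl) ℓ hℓ hinj ∅
    rw [← hkey] at hest
    simp only [powerset_empty, sum_singleton, card_empty, pow_zero, Finset.sdiff_self, prod_empty,
      mul_one, one_mul, div_one] at hest
    have h1 : NN ℓ ∅ = 1 := by simp [NN]
    rw [h1] at hest
    refine ⟨_, hest, ?_⟩
    push_cast
    ring
  induction S using Finset.strongInduction with
  | H S ih =>
    have hkey := key n 4 hn (Or.inl rfl) ℓ hℓ hinj S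
    have hest := est4 n hn ℓ hℓ hinj S
    rw [← hkey] at hest
    clear hkey
    have hcard : 1 ≤ S.card := hS.card_pos
    obtain ⟨t, ht⟩ : ∃ t, S.card = t + 1 := ⟨S.card - 1, by omega⟩
    -- the first Euler factors
    have hEE1 : ∀ i, Rd (EE n 4 (ℓ i) 1 / 2) (nn (ℓ i)) := by
      intro i
      have h6 := Rd_EE n 4 hn (Or.inl rfl) ℓ hℓ hinj ∅ i (notMem_empty i)
      rw [if_neg (by norm_num), sum_empty, add_zero, add_zero] at h6
      simpa [NN] using h6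
    have hk : ∀ i, ∃ k : ℚ, Rd k (lam (ℓ i)) ∧
        EE n 4 (ℓ i) 1 / 2 - ((ℓ i : ℚ) - 1) / ℓ i / 2 = (2 * n) * k := by
      intro i
      obtain ⟨b, hb, hb2⟩ := star_mod (ℓ i) (hℓ i).2
      have hl0 : (ℓ i : ℚ) ≠ 0 := by exact_mod_cast (hℓ i).1.ne_zero
      have hs0 : ((star (ℓ i) : ℤ) : ℚ) ≠ 0 := by
        have : star (ℓ i) ≠ 0 := by omega
        exact_mod_cast this
      refine ⟨-((sgs (ℓ i) : ℚ) * (((star (ℓ i) : ℤ) : ℚ))⁻¹ *
        (((star (ℓ i) : ℚ) ^ n - 1) / (4 * n))), ?_, ?_⟩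
      · have h1 := Rd_pow_sub n hn (star (ℓ i)) b hb
        rw [hb2] at h1
        have h2 : Rd (sgs (ℓ i) : ℚ) 1 := Rd_odd _ (by unfold sgs; split_ifs <;> norm_num)
        have h3 : Rd ((star (ℓ i) : ℤ) : ℚ)⁻¹ 1 := (Rd_odd _ (by omega)).inv_odd
        have h4 := ((h2.mul h3).mul h1).neg
        rw [one_mul, one_mul] at h4
        exact h4
      · have h5 : EE n 4 (ℓ i) 1 = 1 - (sgs (ℓ i) : ℚ) * (star (ℓ i) : ℚ) ^ (n - 1) := by
          unfold EE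
          simp [wt]
        have h6 : (star (ℓ i) : ℚ) ^ n = (star (ℓ i) : ℚ) ^ (n - 1) * star (ℓ i) := by
          rw [← pow_succ]
          congr 1
          omega
        have h7 : ((star (ℓ i) : ℤ) : ℚ) = (sgs (ℓ i) : ℚ) * ℓ i := by
          rw [star_eq]; push_cast; ring
        have h8 : (sgs (ℓ i) : ℚ) * (sgs (ℓ i) : ℚ) = 1 := by
          exact_mod_cast sgs_sq (ℓ i)
        have hg0 : (sgs (ℓ i) : ℚ) ≠ 0 := by
          intro h; rw [h] at h8; norm_num at h8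
        rw [h5, h6]
        generalize (star (ℓ i) : ℚ) ^ (n - 1) = w at *
        rw [h7]
        field_simp
        ring
    choose k hk1 hk2 using hk
    have hy : ∀ i, Rd (((ℓ i : ℚ) - 1) / ℓ i / 2) (nn (ℓ i)) := by
      intro i
      have h1 := (Rd_ell (ℓ i) (hℓ i).2).mul (Rd_odd (ℓ i : ℤ) (by have := (hℓ i).2; omega)).inv_odd
      rw [mul_one] at h1
      have h2 : ((ℓ i : ℚ) - 1) / ℓ i / 2 = ((ℓ i : ℚ) - 1) / 2 * (((ℓ i : ℤ) : ℚ))⁻¹ := by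
        push_cast
        ring
      rw [h2]
      exact h1
    have hprod := Rd_prod_sub S (2 * n) (by positivity) (fun i => EE n 4 (ℓ i) 1 / 2)
      (fun i => ((ℓ i : ℚ) - 1) / ℓ i / 2) k (fun i => nn (ℓ i)) (fun i => lam (ℓ i)) hk2 hEE1 hy hk1
    have hB : Rd (∑ D ∈ S.powerset.erase ∅, (-1 : ℚ) ^ D.card * (XX n 4 (NN ℓ D) / 2 ^ (D.card - 1) *
        ∏ i ∈ S \ D, (EE n 4 (ℓ i) (NN ℓ D) / 2))) (∑ D ∈ S.powerset.erase ∅,
          F4 (fun i j => sy (ℓ i) (ℓ j)) (fun i => lam (ℓ i)) D *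
            ∏ i ∈ S \ D, (nn (ℓ i) + ∑ j ∈ D, sy (ℓ i) (ℓ j))) := by
      rw [F4_rec]
      have h1 : ∑ D ∈ S.powerset.erase ∅, (-1 : ℚ) ^ D.card * (XX n 4 (NN ℓ D) / 2 ^ (D.card - 1) *
          ∏ i ∈ S \ D, (EE n 4 (ℓ i) (NN ℓ D) / 2)) =
          (∑ D ∈ S.powerset.erase ∅, (-1 : ℚ) ^ D.card * (XX n 4 (NN ℓ D) *
            ∏ i ∈ S \ D, EE n 4 (ℓ i) (NN ℓ D))) * 2 / 2 ^ S.card := by
        rw [sum_mul, sum_div]
        refine sum_congr rfl fun D hD => ?_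
        have hD2 := mem_powerset.1 (mem_of_mem_erase hD)
        have hD3 : 1 ≤ D.card := (nonempty_iff_ne_empty.2 (ne_of_mem_erase hD)).card_pos
        rw [prod_div_distrib, prod_const]
        have h4 : (2 : ℚ) ^ S.card = 2 ^ D.card * 2 ^ (S \ D).card := by
          rw [← pow_add, add_comm, card_sdiff_add_card_eq_card hD2]
        obtain ⟨d, hd⟩ : ∃ d, D.card = d + 1 := ⟨D.card - 1, by omega⟩
        rw [h4, hd, Nat.add_sub_cancel, pow_succ (2 : ℚ) d]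
        field_simp
      have h2 : ∑ D ∈ S.powerset.erase ∅, (-1 : ℚ) ^ D.card * (XX n 4 (NN ℓ D) *
            ∏ i ∈ S \ D, EE n 4 (ℓ i) (NN ℓ D)) =
          ∑ D ∈ S.powerset, (-1 : ℚ) ^ D.card * (XX n 4 (NN ℓ D) *
            ∏ i ∈ S \ D, EE n 4 (ℓ i) (NN ℓ D)) - XX n 4 1 * ∏ i ∈ S, EE n 4 (ℓ i) 1 := by
        rw [← add_sum_erase S.powerset _ (empty_mem_powerset S)]
        simp [NN]
      rw [h1, h2]
      have h3 : (∑ D ∈ S.powerset, (-1 : ℚ) ^ D.card * (XX n 4 (NN ℓ D) *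
            ∏ i ∈ S \ D, EE n 4 (ℓ i) (NN ℓ D)) - XX n 4 1 * ∏ i ∈ S, EE n 4 (ℓ i) 1) * 2 /
            2 ^ S.card =
          2 * ((∑ D ∈ S.powerset, (-1 : ℚ) ^ D.card * (XX n 4 (NN ℓ D) *
            ∏ i ∈ S \ D, EE n 4 (ℓ i) (NN ℓ D)) -
              (1 / (4 * NN ℓ S * n) - 1 / 2) * ∏ i ∈ S, ((ℓ i : ℚ) - 1)) / 2 ^ S.card)
          - (∏ i ∈ S, (EE n 4 (ℓ i) 1 / 2) - ∏ i ∈ S, (((ℓ i : ℚ) - 1) / ℓ i / 2)) / (2 * n)
          + (∏ i ∈ S, (EE n 4 (ℓ i) 1 / 2) - ∏ i ∈ S, (((ℓ i : ℚ) - 1) / 2))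
          - 2 * (z0 * ∏ i ∈ S, (EE n 4 (ℓ i) 1 / 2)) := by
        have hN : ((NN ℓ S : ℕ) : ℚ) = ∏ i ∈ S, (ℓ i : ℚ) := by unfold NN; push_cast; rfl
        have hN0 : (∏ i ∈ S, (ℓ i : ℚ)) ≠ 0 :=
          prod_ne_zero_iff.2 fun i _ => by exact_mod_cast (hℓ i).1.ne_zero
        rw [hX0, hN]
        simp only [prod_div_distrib, prod_const]
        field_simp
        ring
      rw [h3]
      have h7 : Zi (∏ i ∈ S, (EE n 4 (ℓ i) 1 / 2)) := Zi.prod S fun i _ => (hEE1 i).zi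
      have h8 := (Rd.prod S fun i _ => hEE1 i).sub (Rd.prod S fun i _ => Rd_ell (ℓ i) (hℓ i).2)
      have h9 := (((Rd.two_mul hest).sub hprod).add h8).sub (Rd.two_mul (hz0.mul h7))
      rw [CharTwo.add_self_eq_zero, zero_add, add_zero, add_zero] at h9
      exact h9
    have hSm : S ∈ S.powerset.erase ∅ := mem_erase.2 ⟨nonempty_iff_ne_empty.1 hS, mem_powerset_self S⟩
    have hR := Rd_step (S.powerset.erase ∅) S hSm _ _ hB (by
      intro D hD hne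
      refine Rd_pm ?_ _
      refine (ih D (Finset.ssubset_iff_subset_ne.2 ⟨mem_powerset.1 (mem_of_mem_erase hD), hne⟩)
        (nonempty_iff_ne_empty.2 (ne_of_mem_erase hD))).mul ?_
      refine Rd.prod _ fun i hi => ?_
      have h6 := Rd_EE n 4 hn (Or.inl rfl) ℓ hℓ hinj D i (mem_sdiff.1 hi).2
      rw [if_neg (by norm_num), add_zero] at h6
      exact h6)
    simp only [Finset.sdiff_self, prod_empty, mul_one] at hR
    exact Rd_pm' _ hR

end Pool.Agent.TZB
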